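import Pool.Agent.Helper287.LP.Defs
set_option autoImplicit false
open MeasureTheory Metric Set Filter Topology
open scoped InnerProductSpace ComplexConjugate

namespace Pool.Agent.Helper287.MB.LPA


section LP
variable {E : Type} [NormedAddCommGroup E] [InnerProductSpace ℂ E] [FiniteDimensional ℂ E]
  [MeasurableSpace E] [BorelSpace E]

theorem h441_int (σ : Measure E) (hσ : IsSph σ) (g : E → ℂ)
    (hg : ContinuousOn g (closedBall 0 1)) : Integrable g σ := by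
  have h := HH_integrable σ hσ g hg (z := 0) (by simp)
  simpa only [mob_zero_left] using h

theorem h441_re_mean (σ : Measure E) (hσ : IsSph σ) (g : E → ℂ)
    (hg : ContinuousOn g (closedBall 0 1))
    (hd : DifferentiableOn ℂ g (ball 0 1)) : ∫ ζ, (g ζ).re ∂σ = (g 0).re := by
  have h1 := mean_holo σ hσ g hg hd
  have h2 := integral_re (h441_int σ hσ g hg)
  rw [h1] at h2
  exact h2

theorem h441_F (z : E) (c : ℂ) :
    Differentiable ℂ (fun w : E => 1 + ⟪z, c • w⟫_ℂ) := by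
  have h1 : Differentiable ℂ (fun w : E => (innerSL ℂ z) (c • w)) :=
    (innerSL ℂ z).differentiable.comp (differentiable_id.const_smul c)
  exact h1.const_add 1

theorem h441_re_pos {a : ℂ} (h : ‖a‖ < 1) : 0 < (1 + a).re := by
  have h1 := Complex.abs_re_le_norm a
  have h2 := neg_abs_le a.re
  simp only [Complex.add_re, Complex.one_re]
  linarith

theorem log_mean (σ : Measure E) (hσ : IsSph σ) (F : E → ℂ) (hc : ContinuousOn F (closedBall 0 1))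
    (hd : DifferentiableOn ℂ F (ball 0 1)) (hre : ∀ z, ‖z‖ ≤ 1 → 0 < (F z).re) :
    ∫ ζ, Real.log ‖F ζ‖ ∂σ = Real.log ‖F 0‖ := by
  have hs : ∀ z ∈ closedBall (0 : E) 1, F z ∈ Complex.slitPlane := by
    intro z hz
    left
    exact hre z (by simpa using hz)
  have h := h441_re_mean σ hσ (fun z => Complex.log (F z)) (hc.clog hs)
    (hd.clog (fun z hz => hs z (ball_subset_closedBall hz)))
  simpa only [Complex.log_re] using h

theorem mob_log_mean (σ : Measure E) (hσ : IsSph σ) {z : E} (hz : ‖z‖ < 1) {ρ : ℝ} (h0 : 0 ≤ ρ)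
    (h1 : ρ < 1) : ∫ ζ, Real.log (1 - ‖mob z ((ρ:ℂ) • ζ)‖ ^ 2) ∂σ
      = Real.log (1 - ‖z‖ ^ 2) + Real.log (1 - ρ ^ 2) := by
  have hball : ∀ w : E, ‖w‖ ≤ 1 → ‖⟪z, (ρ:ℂ) • w⟫_ℂ‖ < 1 := by
    intro w hw
    apply norm_inner_lt hz
    rw [norm_smul, Complex.norm_real, Real.norm_of_nonneg h0]
    nlinarith [norm_nonneg w]
  have hF := h441_F z (ρ : ℂ)
  have hmean := log_mean σ hσ (fun w => 1 + ⟪z, (ρ:ℂ) • w⟫_ℂ) hF.continuous.continuousOn
    hF.differentiableOn (fun w hw => h441_re_pos (hball w hw))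
  have hint : Integrable (fun ζ => Real.log ‖1 + ⟪z, (ρ:ℂ) • ζ⟫_ℂ‖) σ := by
    have h3 := h441_int σ hσ (fun w => Complex.log (1 + ⟪z, (ρ:ℂ) • w⟫_ℂ))
      (hF.continuous.continuousOn.clog (fun w hw => Or.inl
        (h441_re_pos (hball w (by simpa using hw)))))
    have h4 := h3.re
    simpa only [Complex.log_re, RCLike.re_eq_complex_re] using h4
  have hprob := hσ.prob
  have hae : (fun ζ => Real.log (1 - ‖mob z ((ρ:ℂ) • ζ)‖ ^ 2)) =ᵐ[σ]
      fun ζ => (Real.log (1 - ‖z‖ ^ 2) + Real.log (1 - ρ ^ 2))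
        - 2 * Real.log ‖1 + ⟪z, (ρ:ℂ) • ζ⟫_ℂ‖ := by
    filter_upwards [hσ.supp] with ζ hζ
    have hne : 1 + ⟪z, (ρ:ℂ) • ζ⟫_ℂ ≠ 0 := one_add_ne_of_norm_lt (hball ζ hζ.le)
    rw [norm_mob_sq' hz.le hne]
    have hn : ‖(ρ:ℂ) • ζ‖ = ρ := by
      rw [norm_smul, Complex.norm_real, Real.norm_of_nonneg h0, hζ, mul_one]
    rw [hn]
    have hz1 : (1 - ‖z‖ ^ 2) ≠ 0 := by nlinarith [norm_nonneg z]
    have hr1 : (1 - ρ ^ 2) ≠ 0 := by nlinarith
    rw [Real.log_div (mul_ne_zero hz1 hr1) (pow_ne_zero _ (norm_ne_zero_iff.mpr hne)),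
      Real.log_mul hz1 hr1, Real.log_pow]
    push_cast
    ring
  rw [integral_congr_ae hae, integral_sub (integrable_const _) (hint.const_mul 2),
    integral_const_mul, hmean]
  simp

theorem pow_mean (σ : Measure E) (hσ : IsSph σ) {z : E} (hz : ‖z‖ < 1) {q : ℝ} (h0 : 0 < q)
    (h1 : q < 1) : ∫ ζ, ‖1 + ⟪z, ζ⟫_ℂ‖ ^ (-q) ∂σ ≤ (Real.cos (q * (Real.pi / 2)))⁻¹ := by
  have hball : ∀ w : E, ‖w‖ ≤ 1 → ‖⟪z, w⟫_ℂ‖ < 1 := fun w hw => norm_inner_lt hz hw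
  have hF : Differentiable ℂ (fun w : E => 1 + ⟪z, w⟫_ℂ) := by
    have := h441_F z (1 : ℂ)
    simpa only [one_smul] using this
  have hs : ∀ w ∈ closedBall (0 : E) 1, 1 + ⟪z, w⟫_ℂ ∈ Complex.slitPlane := fun w hw => Or.inl
        (h441_re_pos (hball w (by simpa using hw)))
  have hgc : ContinuousOn (fun w : E => Complex.exp (-(q:ℂ) * Complex.log (1 + ⟪z, w⟫_ℂ)))
      (closedBall 0 1) :=
    (continuousOn_const.mul (hF.continuous.continuousOn.clog hs)).cexp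
  have hgd : DifferentiableOn ℂ (fun w : E => Complex.exp (-(q:ℂ) * Complex.log (1 + ⟪z, w⟫_ℂ)))
      (ball 0 1) :=
    ((hF.differentiableOn.clog (fun w hw => hs w (ball_subset_closedBall hw))).const_mul
      (-(q:ℂ))).cexp
  have hmean := h441_re_mean σ hσ _ hgc hgd
  have hint : Integrable (fun w : E => (Complex.exp (-(q:ℂ) * Complex.log (1 + ⟪z, w⟫_ℂ))).re) σ := by
    have h4 := (h441_int σ hσ _ hgc).re
    exact h4
  have hcos : 0 < Real.cos (q * (Real.pi / 2)) := by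
    apply Real.cos_pos_of_mem_Ioo
    constructor
    · nlinarith [Real.pi_pos]
    · nlinarith [Real.pi_pos]
  have hle : (fun ζ => ‖1 + ⟪z, ζ⟫_ℂ‖ ^ (-q)) ≤ᵐ[σ] fun ζ => (Real.cos (q * (Real.pi / 2)))⁻¹ *
      (Complex.exp (-(q:ℂ) * Complex.log (1 + ⟪z, ζ⟫_ℂ))).re := by
    filter_upwards [hσ.supp] with ζ hζ
    have hne : 1 + ⟪z, ζ⟫_ℂ ≠ 0 := one_add_ne_of_norm_lt (hball ζ hζ.le)
    have hpos : 0 < ‖1 + ⟪z, ζ⟫_ℂ‖ := norm_pos_iff.mpr hne
    have harg : |Complex.arg (1 + ⟪z, ζ⟫_ℂ)| < Real.pi / 2 :=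
      Complex.abs_arg_lt_pi_div_two_iff.mpr (Or.inl (h441_re_pos (hball ζ hζ.le)))
    have hre : (Complex.exp (-(q:ℂ) * Complex.log (1 + ⟪z, ζ⟫_ℂ))).re =
        ‖1 + ⟪z, ζ⟫_ℂ‖ ^ (-q) * Real.cos (q * |Complex.arg (1 + ⟪z, ζ⟫_ℂ)|) := by
      rw [Complex.exp_re, Real.rpow_def_of_pos hpos]
      have e1 : (-(q:ℂ) * Complex.log (1 + ⟪z, ζ⟫_ℂ)).re = Real.log ‖1 + ⟪z, ζ⟫_ℂ‖ * -q := by
        rw [← Complex.ofReal_neg, Complex.re_ofReal_mul, Complex.log_re]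
        ring
      have e2 : (-(q:ℂ) * Complex.log (1 + ⟪z, ζ⟫_ℂ)).im = -(q * Complex.arg (1 + ⟪z, ζ⟫_ℂ)) := by
        rw [← Complex.ofReal_neg, Complex.im_ofReal_mul, Complex.log_im]
        ring
      rw [e1, e2, Real.cos_neg]
      congr 1
      rw [← Real.cos_abs (q * Complex.arg (1 + ⟪z, ζ⟫_ℂ)), abs_mul, abs_of_pos h0]
    rw [hre]
    have hcl : Real.cos (q * (Real.pi / 2)) ≤ Real.cos (q * |Complex.arg (1 + ⟪z, ζ⟫_ℂ)|) := by
      apply Real.cos_le_cos_of_nonneg_of_le_pi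
      · positivity
      · nlinarith [Real.pi_pos]
      · exact mul_le_mul_of_nonneg_left harg.le h0.le
    have hnn : 0 ≤ ‖1 + ⟪z, ζ⟫_ℂ‖ ^ (-q) := Real.rpow_nonneg (norm_nonneg _) _
    rw [inv_mul_eq_div, le_div_iff₀ hcos]
    exact mul_le_mul_of_nonneg_left hcl hnn
  have h5 := integral_mono_of_nonneg (μ := σ)
    (Filter.Eventually.of_forall fun ζ => Real.rpow_nonneg (norm_nonneg (1 + ⟪z, ζ⟫_ℂ)) (-q))
    (hint.const_mul _) hle
  refine h5.trans ?_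
  rw [integral_const_mul, hmean]
  simp

end LP

end Pool.Agent.Helper287.MB.LPA

namespace Pool.Agent.Helper287.MB
alias log_mean := LPA.log_mean
alias mob_log_mean := LPA.mob_log_mean
alias pow_mean := LPA.pow_mean
end Pool.Agent.Helper287.MB
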