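import Pool.Agent.Helper287.LP.A
set_option autoImplicit false
open MeasureTheory Metric Set Filter Topology
open scoped InnerProductSpace ComplexConjugate

namespace Pool.Agent.Helper287.MB.LPB


section LP
variable {E : Type} [NormedAddCommGroup E] [InnerProductSpace ℂ E] [FiniteDimensional ℂ E]
  [MeasurableSpace E] [BorelSpace E]

theorem lpb_int {F : Type} [NormedAddCommGroup F] [NormedSpace ℝ F] (σ : Measure E) (hσ : IsSph σ)
    (φ : E → F) (hφ : ContinuousOn φ (closedBall 0 1)) : Integrable φ σ := by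
  have hp := hσ.prob
  have hpr : ProperSpace E := FiniteDimensional.proper ℂ E
  obtain ⟨g, hg, hgφ⟩ := exists_ext φ hφ
  obtain ⟨C, _, hC⟩ := ball_bdd φ hφ
  have hae : g =ᵐ[σ] φ := by
    filter_upwards [hσ.supp] with ζ hζ using hgφ ζ hζ.le
  have hgi : Integrable g σ := by
    refine Integrable.of_bound hg.aestronglyMeasurable C ?_
    filter_upwards [hσ.supp] with ζ hζ
    rw [hgφ ζ hζ.le]
    exact hC ζ hζ.le
  exact hgi.congr hae

theorem lpb_rot (σ : Measure E) (hσ : IsSph σ) (J : E → ℂ) (c : ℂ) (hc : ‖c‖ = 1) :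
    ∫ ζ, J (c • ζ) ∂σ = ∫ ζ, J ζ ∂σ := by
  have hc0 : c ≠ 0 := by
    rintro rfl
    simp at hc
  let L : E ≃ₗᵢ[ℂ] E :=
    { LinearEquiv.smulOfNeZero ℂ E c hc0 with
      norm_map' := fun x => by
        show ‖c • x‖ = ‖x‖
        rw [norm_smul, hc, one_mul] }
  have h1 : ∫ ζ, J ζ ∂(σ.map L) = ∫ ζ, J (L ζ) ∂σ :=
    L.toHomeomorph.measurableEmbedding.integral_map J
  rw [hσ.inv L] at h1
  rw [h1]
  rfl

theorem lpb_smul_cont (f : E → ℂ) (hf : ContinuousOn f (ball 0 1)) {ρ : ℝ} (h0 : 0 ≤ ρ) (h1 : ρ < 1) :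
    ContinuousOn (fun z : E => f ((ρ:ℂ) • z)) (closedBall 0 1) := by
  refine hf.comp (by fun_prop) ?_
  intro z hz
  rw [mem_closedBall_zero_iff] at hz
  rw [mem_ball_zero_iff, norm_smul, Complex.norm_real, Real.norm_of_nonneg h0]
  nlinarith [norm_nonneg z]

theorem lpb_circle (h : ℂ → ℂ) (hd : DifferentiableOn ℂ h (ball 0 1)) (hz : h 0 = 0)
    (hdz : deriv h 0 = 0) {ρ : ℝ} (h0 : 0 < ρ) (h1 : ρ < 1) :
    ∫ θ in (0:ℝ)..2 * Real.pi, (circleMap 0 1 θ)⁻¹ * h (circleMap 0 ρ θ) = 0 := by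
  have hk : DifferentiableOn ℂ (dslope h 0) (ball 0 1) :=
    (Complex.differentiableOn_dslope (ball_mem_nhds _ one_pos)).2 hd
  have hk2 : DiffContOnCl ℂ (dslope h 0) (ball 0 |ρ|) :=
    hk.diffContOnCl_ball (by
      rw [abs_of_pos h0]
      exact closedBall_subset_ball h1)
  have hm := hk2.circleAverage
  rw [dslope_same, hdz, Real.circleAverage_def] at hm
  have hpi : (2 * Real.pi)⁻¹ ≠ 0 := by
    have := Real.pi_pos
    positivity
  have hm2 : ∫ θ in (0:ℝ)..2 * Real.pi, dslope h 0 (circleMap 0 ρ θ) = 0 :=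
    (smul_eq_zero.1 hm).resolve_left hpi
  have e : ∀ θ : ℝ, (circleMap 0 1 θ)⁻¹ * h (circleMap 0 ρ θ) =
      (ρ : ℂ) * dslope h 0 (circleMap 0 ρ θ) := by
    intro θ
    have hne : circleMap 0 ρ θ ≠ 0 := circleMap_ne_center h0.ne'
    rw [dslope_of_ne _ hne, slope_def_field, hz, sub_zero, sub_zero]
    have e1 : circleMap 0 ρ θ = ρ * circleMap 0 1 θ := by
      simp [circleMap]
    rw [e1]
    have hne1 : circleMap 0 1 θ ≠ 0 := circleMap_ne_center one_ne_zero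
    have hρ : (ρ : ℂ) ≠ 0 := by exact_mod_cast h0.ne'
    field_simp
  simp only [e]
  rw [intervalIntegral.integral_const_mul, hm2, mul_zero]

theorem lpb_cross (σ : Measure E) (hσ : IsSph σ) (b : E →L[ℂ] ℂ) (H : E → ℂ)
    (hH : DifferentiableOn ℂ H (ball 0 1)) (H0 : H 0 = 0) (H1 : HasFDerivAt H (0 : E →L[ℂ] ℂ) 0)
    {ρ : ℝ} (h0 : 0 < ρ) (h1 : ρ < 1) :
    ∫ ζ, conj (b ζ) * H ((ρ:ℂ) • ζ) ∂σ = 0 := by
  have hp := hσ.prob
  have hpr : ProperSpace E := FiniteDimensional.proper ℂ E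
  obtain ⟨g, hg, hgH⟩ := exists_ext (fun z : E => H ((ρ:ℂ) • z))
    (lpb_smul_cont H hH.continuousOn h0.le h1)
  set J : E → ℂ := fun ζ => conj (b ζ) * g ζ with hJ
  have hJc : Continuous J := (Complex.continuous_conj.comp b.continuous).mul hg
  have e1 : ∫ ζ, conj (b ζ) * H ((ρ:ℂ) • ζ) ∂σ = ∫ ζ, J ζ ∂σ := by
    refine integral_congr_ae ?_
    filter_upwards [hσ.supp] with ζ hζ
    simp only [hJ]
    rw [hgH ζ hζ.le]
  rw [e1]
  obtain ⟨C, _, hC⟩ := ball_bdd J hJc.continuousOn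
  have hcirc : ∀ θ : ℝ, ‖circleMap 0 1 θ‖ = 1 := by
    intro θ
    rw [norm_circleMap_zero, abs_one]
  have hint : Integrable (Function.uncurry (fun (θ : ℝ) (ζ : E) => J (circleMap 0 1 θ • ζ)))
      ((volume.restrict (Ioc 0 (2 * Real.pi))).prod σ) := by
    have hc : Continuous (Function.uncurry (fun (θ : ℝ) (ζ : E) => J (circleMap 0 1 θ • ζ))) := by
      refine hJc.comp ?_
      exact ((continuous_circleMap 0 1).comp continuous_fst).smul continuous_snd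
    refine Integrable.of_bound hc.aestronglyMeasurable C ?_
    have hs : ∀ᵐ p : ℝ × E ∂((volume.restrict (Ioc 0 (2 * Real.pi))).prod σ), ‖p.2‖ = 1 :=
      Measure.quasiMeasurePreserving_snd.ae hσ.supp
    filter_upwards [hs] with p hp
    refine hC _ ?_
    rw [norm_smul, hcirc, one_mul, hp]
  have hswap := integral_integral_swap hint
  have e2 : ∀ θ : ℝ, ∫ ζ, J (circleMap 0 1 θ • ζ) ∂σ = ∫ ζ, J ζ ∂σ := fun θ =>
    lpb_rot σ hσ J _ (hcirc θ)
  simp only [e2] at hswap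
  have e3 : ∫ ζ, (∫ θ in Ioc 0 (2 * Real.pi), J (circleMap 0 1 θ • ζ)) ∂σ = 0 := by
    have : ∀ᵐ ζ ∂σ, (∫ θ in Ioc 0 (2 * Real.pi), J (circleMap 0 1 θ • ζ)) = 0 := by
      filter_upwards [hσ.supp] with ζ hζ
      rw [← intervalIntegral.integral_of_le (by have := Real.pi_pos; positivity)]
      have hmaps : ∀ c : ℂ, c ∈ ball (0:ℂ) 1 → c • ζ ∈ ball (0:E) 1 := by
        intro c hc
        rw [mem_ball_zero_iff] at hc ⊢
        rw [norm_smul, hζ, mul_one]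
        exact hc
      have hd : DifferentiableOn ℂ (fun c : ℂ => H (c • ζ)) (ball 0 1) :=
        hH.comp (by fun_prop) hmaps
      have hdz : deriv (fun c : ℂ => H (c • ζ)) 0 = 0 := by
        have hi : HasDerivAt (fun c : ℂ => c • ζ) ((1:ℂ) • ζ) 0 := (hasDerivAt_id (0:ℂ)).smul_const ζ
        have H1' : HasFDerivAt H (0 : E →L[ℂ] ℂ) ((0:ℂ) • ζ) := by rw [zero_smul]; exact H1
        have h5 : HasDerivAt (fun c : ℂ => H (c • ζ)) ((0 : E →L[ℂ] ℂ) ((1:ℂ) • ζ)) 0 :=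
          H1'.comp_hasDerivAt (0:ℂ) hi
        rw [h5.deriv]
        simp
      have hz := lpb_circle (fun c : ℂ => H (c • ζ)) hd (by simp [H0]) hdz h0 h1
      have e4 : ∀ θ : ℝ, J (circleMap 0 1 θ • ζ) =
          conj (b ζ) * ((circleMap 0 1 θ)⁻¹ * H (circleMap 0 ρ θ • ζ)) := by
        intro θ
        simp only [hJ]
        rw [hgH _ (by rw [norm_smul, hcirc, one_mul, hζ]), map_smul, smul_eq_mul, map_mul]
        have e5 : conj (circleMap 0 1 θ) = (circleMap 0 1 θ)⁻¹ := by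
          rw [Complex.inv_def, Complex.normSq_eq_norm_sq, hcirc]
          simp
        have e6 : (ρ:ℂ) • circleMap 0 1 θ • ζ = circleMap 0 ρ θ • ζ := by
          rw [smul_smul]
          congr 1
          simp [circleMap]
        rw [e5, e6]
        ring
      simp only [e4]
      rw [intervalIntegral.integral_const_mul]
      rw [hz, mul_zero]
    rw [integral_congr_ae this, integral_zero]
  rw [e3] at hswap
  rw [setIntegral_const] at hswap
  have hvol : (volume : Measure ℝ).real (Ioc 0 (2 * Real.pi)) ≠ 0 := by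
    rw [Measure.real, Real.volume_Ioc, sub_zero, ENNReal.toReal_ofReal (by have := Real.pi_pos; positivity)]
    have := Real.pi_pos
    positivity
  exact (smul_eq_zero.1 hswap).resolve_left hvol

theorem sq_mean_bound (σ : Measure E) (hσ : IsSph σ) [Nontrivial E] (G : E → ℂ)
    (hd : DifferentiableOn ℂ G (ball 0 1)) (hG : ∀ z, ‖z‖ < 1 → ‖G z‖ < 1) (hG0 : G 0 = 0)
    {ρ : ℝ} (h0 : 0 < ρ) (h1 : ρ ≤ 1 / 2) :
    ∫ ζ, ‖G ((ρ:ℂ) • ζ)‖ ^ 2 ∂σ ≤ ρ ^ 2 / (Module.finrank ℂ E : ℝ) + 4 * ρ ^ 4 := by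
  have hp := hσ.prob
  have hcs : CompleteSpace E := FiniteDimensional.complete ℂ E
  have hρ1 : ρ < 1 := by linarith
  have hdiff0 : DifferentiableAt ℂ G 0 := (hd 0 (mem_ball_self one_pos)).differentiableAt
    (ball_mem_nhds _ one_pos)
  set b : E →L[ℂ] ℂ := fderiv ℂ G 0 with hb
  have hbder : HasFDerivAt G b 0 := hdiff0.hasFDerivAt
  have hmaps : MapsTo G (ball 0 1) (closedBall 0 1) := fun z hz => by
    rw [mem_ball_zero_iff] at hz
    rw [mem_closedBall_zero_iff]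
    exact (hG z hz).le
  have hbn : ‖b‖ ≤ 1 := Complex.norm_fderiv_le_one_of_mapsTo_ball hd (by rwa [hG0]) one_pos
  set v : E := (InnerProductSpace.toDual ℂ E).symm b with hv
  have hbv : ∀ ζ, b ζ = ⟪v, ζ⟫_ℂ := fun ζ => InnerProductSpace.toDual_symm_apply.symm
  have hvn : ‖v‖ ≤ 1 := by
    rw [hv, LinearIsometryEquiv.norm_map]
    exact hbn
  -- the remainder
  set H : E → ℂ := fun z => G z - b z with hH
  have hHd : DifferentiableOn ℂ H (ball 0 1) := hd.sub b.differentiable.differentiableOn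
  have hH0 : H 0 = 0 := by simp [hH, hG0]
  have hHder : HasFDerivAt H (0 : E →L[ℂ] ℂ) 0 := by
    have := hbder.sub b.hasFDerivAt
    rwa [sub_self] at this
  have hHb : ∀ z, ‖z‖ < 1 → ‖H z‖ ≤ 2 * ‖z‖ ^ 2 := by
    intro z hz
    have hm : MapsTo H (ball 0 1) (closedBall (H 0) 2) := by
      intro w hw
      rw [mem_ball_zero_iff] at hw
      rw [hH0, mem_closedBall_zero_iff]
      have h3 : ‖b w‖ ≤ 1 := by
        calc ‖b w‖ ≤ ‖b‖ * ‖w‖ := b.le_opNorm w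
          _ ≤ 1 * 1 := mul_le_mul hbn hw.le (norm_nonneg _) zero_le_one
          _ = 1 := one_mul 1
      calc ‖G w - b w‖ ≤ ‖G w‖ + ‖b w‖ := norm_sub_le _ _
        _ ≤ 2 := by linarith [(hG w hw).le]
    have ho : (fun w => H w - H 0) =o[𝓝 0] (fun w => ‖w - 0‖ ^ 1) := by
      have h3 := hHder.isLittleO
      have h4 := h3.norm_right
      refine (h4.congr ?_ ?_)
      · intro w
        simp
      · intro w
        rw [pow_one]
    have h3 := Complex.dist_le_mul_div_pow_of_mapsTo_ball_of_isLittleO hHd hm ho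
      (mem_ball_zero_iff.2 hz)
    rw [hH0, dist_zero_right, dist_zero_right, div_one] at h3
    exact h3
  have hRb : ∀ ζ : E, ‖ζ‖ = 1 → ‖H ((ρ:ℂ) • ζ)‖ ≤ 2 * ρ ^ 2 := by
    intro ζ hζ
    have hn : ‖(ρ:ℂ) • ζ‖ = ρ := by
      rw [norm_smul, Complex.norm_real, Real.norm_of_nonneg h0.le, hζ, mul_one]
    have := hHb ((ρ:ℂ) • ζ) (by rw [hn]; exact hρ1)
    rwa [hn] at this
  -- integrability
  have iG : ContinuousOn (fun ζ : E => G ((ρ:ℂ) • ζ)) (closedBall 0 1) :=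
    lpb_smul_cont G hd.continuousOn h0.le hρ1
  have iH : ContinuousOn (fun ζ : E => H ((ρ:ℂ) • ζ)) (closedBall 0 1) :=
    lpb_smul_cont H hHd.continuousOn h0.le hρ1
  have i1 : Integrable (fun ζ : E => ‖b ζ‖ ^ 2) σ :=
    lpb_int σ hσ _ (b.continuous.norm.pow 2).continuousOn
  have i2 : Integrable (fun ζ : E => conj (b ζ) * H ((ρ:ℂ) • ζ)) σ :=
    lpb_int σ hσ _ ((Complex.continuous_conj.comp b.continuous).continuousOn.mul iH)
  have i3 : Integrable (fun ζ : E => ‖H ((ρ:ℂ) • ζ)‖ ^ 2) σ :=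
    lpb_int σ hσ _ (iH.norm.pow 2)
  have i2r : Integrable (fun ζ : E => (conj (b ζ) * H ((ρ:ℂ) • ζ)).re) σ := i2.re
  have hexp : ∀ ζ : E, ‖G ((ρ:ℂ) • ζ)‖ ^ 2 =
      ρ ^ 2 * ‖b ζ‖ ^ 2 + 2 * ρ * (conj (b ζ) * H ((ρ:ℂ) • ζ)).re + ‖H ((ρ:ℂ) • ζ)‖ ^ 2 := by
    intro ζ
    have e : G ((ρ:ℂ) • ζ) = (ρ:ℂ) * b ζ + H ((ρ:ℂ) • ζ) := by
      simp only [hH, map_smul, smul_eq_mul]
      ring
    rw [e, Complex.sq_norm, Complex.sq_norm, Complex.sq_norm]
    simp only [Complex.normSq_apply, Complex.add_re, Complex.add_im, Complex.mul_re, Complex.mul_im,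
      Complex.ofReal_re, Complex.ofReal_im, Complex.conj_re, Complex.conj_im]
    ring
  have hcross : ∫ ζ, (conj (b ζ) * H ((ρ:ℂ) • ζ)).re ∂σ = 0 := by
    have h3 := integral_re i2
    rw [lpb_cross σ hσ b H hHd hH0 hHder h0 hρ1] at h3
    simpa using h3
  have hn : (1:ℝ) ≤ (Module.finrank ℂ E : ℝ) := by
    have : 0 < Module.finrank ℂ E := Module.finrank_pos
    exact_mod_cast this
  have hbint : ∫ ζ, ‖b ζ‖ ^ 2 ∂σ ≤ 1 / (Module.finrank ℂ E : ℝ) := by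
    have h3 := sph_normsq σ hσ v
    simp only [← hbv] at h3
    rw [le_div_iff₀ (by linarith), mul_comm, h3]
    nlinarith [norm_nonneg v]
  have hHint : ∫ ζ, ‖H ((ρ:ℂ) • ζ)‖ ^ 2 ∂σ ≤ 4 * ρ ^ 4 := by
    have h3 : ∫ ζ, ‖H ((ρ:ℂ) • ζ)‖ ^ 2 ∂σ ≤ ∫ _ζ, 4 * ρ ^ 4 ∂σ := by
      refine integral_mono_ae i3 (integrable_const _) ?_
      filter_upwards [hσ.supp] with ζ hζ
      have h4 := hRb ζ hζ
      calc ‖H ((ρ:ℂ) • ζ)‖ ^ 2 ≤ (2 * ρ ^ 2) ^ 2 := pow_le_pow_left₀ (norm_nonneg _) h4 2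
        _ = 4 * ρ ^ 4 := by ring
    rw [integral_const] at h3
    simpa using h3
  simp only [hexp]
  have i12 : Integrable (fun ζ : E => ρ ^ 2 * ‖b ζ‖ ^ 2 +
      2 * ρ * (conj (b ζ) * H ((ρ:ℂ) • ζ)).re) σ := (i1.const_mul _).add (i2r.const_mul _)
  rw [integral_add i12 i3,
    integral_add (i1.const_mul _) (i2r.const_mul _), integral_const_mul, integral_const_mul, hcross,
    mul_zero, add_zero]
  have h5 : ρ ^ 2 * ∫ ζ, ‖b ζ‖ ^ 2 ∂σ ≤ ρ ^ 2 * (1 / (Module.finrank ℂ E : ℝ)) :=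
    mul_le_mul_of_nonneg_left hbint (by positivity)
  rw [mul_one_div] at h5
  linarith

theorem lpb_log_low {x : ℝ} (_ : 0 ≤ x) (h1 : x ≤ 1 / 4) : -x - 2 * x ^ 2 ≤ Real.log (1 - x) := by
  have hpos : 0 < 1 - x := by linarith
  have h2 := Real.one_sub_inv_le_log_of_pos hpos
  refine le_trans ?_ h2
  have e : 1 - (1 - x)⁻¹ = -x / (1 - x) := by
    field_simp
    ring
  rw [e, le_div_iff₀ hpos]
  nlinarith [mul_self_nonneg x]

theorem lpb_log_cont (f : E → ℂ) (hf : ContinuousOn f (ball 0 1)) (hb : ∀ z, ‖z‖ < 1 → ‖f z‖ < 1) :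
    ContinuousOn (fun z => Real.log (1 - ‖f z‖ ^ 2)) (ball 0 1) := by
  refine ContinuousOn.log (by fun_prop) ?_
  intro z hz
  have h1 := hb z (mem_ball_zero_iff.1 hz)
  have h2 : ‖f z‖ ^ 2 < 1 := by nlinarith [norm_nonneg (f z)]
  linarith

theorem lpb_smul_cont' (f : E → ℝ) (hf : ContinuousOn f (ball 0 1)) {ρ : ℝ} (h0 : 0 ≤ ρ) (h1 : ρ < 1) :
    ContinuousOn (fun z : E => f ((ρ:ℂ) • z)) (closedBall 0 1) := by
  refine hf.comp (by fun_prop) ?_
  intro z hz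
  rw [mem_closedBall_zero_iff] at hz
  rw [mem_ball_zero_iff, norm_smul, Complex.norm_real, Real.norm_of_nonneg h0]
  nlinarith [norm_nonneg z]

theorem log_step (σ : Measure E) (hσ : IsSph σ) [Nontrivial E] (g : E → ℂ)
    (hd : DifferentiableOn ℂ g (ball 0 1)) (hg : ∀ z, ‖z‖ < 1 → ‖g z‖ < 1)
    {ρ : ℝ} (h0 : 0 < ρ) (h1 : ρ ≤ 1 / 2) :
    Real.log (1 - ‖g 0‖ ^ 2) - ρ ^ 2 / (Module.finrank ℂ E : ℝ) - 6 * ρ ^ 4
      ≤ ∫ ζ, Real.log (1 - ‖g ((ρ:ℂ) • ζ)‖ ^ 2) ∂σ := by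
  have hp := hσ.prob
  have hρ1 : ρ < 1 := by linarith
  set a : ℂ := g 0 with ha
  have ha1 : ‖a‖ < 1 := hg 0 (by simp)
  have ha2 : 0 < 1 - ‖a‖ ^ 2 := by nlinarith [norm_nonneg a]
  -- the denominator
  have hden : ∀ w : ℂ, ‖w‖ < 1 → 0 < (1 - conj a * w).re := by
    intro w hw
    have h2 : ‖conj a * w‖ < 1 := by
      rw [norm_mul, Complex.norm_conj]
      nlinarith [norm_nonneg a, norm_nonneg w]
    have h3 := Complex.re_le_norm (conj a * w)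
    rw [Complex.sub_re, Complex.one_re]
    linarith
  have hden0 : ∀ w : ℂ, ‖w‖ < 1 → 1 - conj a * w ≠ 0 := by
    intro w hw h
    have := hden w hw
    rw [h, Complex.zero_re] at this
    exact lt_irrefl _ this
  have hid : ∀ w : ℂ, ‖w‖ < 1 → 1 - ‖(w - a) / (1 - conj a * w)‖ ^ 2 =
      (1 - ‖a‖ ^ 2) * (1 - ‖w‖ ^ 2) / ‖1 - conj a * w‖ ^ 2 := by
    intro w hw
    have h2 : ‖1 - conj a * w‖ ^ 2 ≠ 0 := by
      have := norm_pos_iff.2 (hden0 w hw)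
      positivity
    rw [norm_div, div_pow, eq_div_iff h2, sub_mul, one_mul, div_mul_cancel₀ _ h2]
    rw [Complex.sq_norm, Complex.sq_norm, Complex.sq_norm, Complex.sq_norm]
    simp only [Complex.normSq_apply, Complex.sub_re, Complex.sub_im, Complex.mul_re, Complex.mul_im,
      Complex.one_re, Complex.one_im, Complex.conj_re, Complex.conj_im]
    ring
  set G : E → ℂ := fun z => (g z - a) / (1 - conj a * g z) with hG
  have hGd : DifferentiableOn ℂ G (ball 0 1) := by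
    have hden' : DifferentiableOn ℂ (fun z => 1 - conj a * g z) (ball 0 1) :=
      (differentiableOn_const _).sub (hd.const_mul _)
    have hinv : DifferentiableOn ℂ (fun z => (1 - conj a * g z)⁻¹) (ball 0 1) :=
      DifferentiableOn.inv hden' (fun z hz => hden0 _ (hg z (mem_ball_zero_iff.1 hz)))
    simp only [hG, div_eq_mul_inv]
    exact (hd.sub_const a).mul hinv
  have hG1 : ∀ z, ‖z‖ < 1 → ‖G z‖ < 1 := by
    intro z hz
    have h2 := hid (g z) (hg z hz)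
    have h3 : 0 < (1 - ‖a‖ ^ 2) * (1 - ‖g z‖ ^ 2) / ‖1 - conj a * g z‖ ^ 2 := by
      have h4 := norm_pos_iff.2 (hden0 _ (hg z hz))
      have h5 : 0 < 1 - ‖g z‖ ^ 2 := by nlinarith [norm_nonneg (g z), hg z hz]
      positivity
    rw [← h2] at h3
    have h6 : ‖G z‖ ^ 2 < 1 := by linarith
    nlinarith [norm_nonneg (G z)]
  have hG0 : G 0 = 0 := by
    simp only [hG]
    rw [← ha, sub_self, zero_div]
  have hsq := sq_mean_bound σ hσ G hGd hG1 hG0 h0 h1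
  have hGρ : ∀ ζ : E, ‖ζ‖ = 1 → ‖G ((ρ:ℂ) • ζ)‖ ≤ ρ := by
    intro ζ hζ
    have hn : ‖(ρ:ℂ) • ζ‖ = ρ := by
      rw [norm_smul, Complex.norm_real, Real.norm_of_nonneg h0.le, hζ, mul_one]
    have h2 := Complex.norm_le_norm_of_mapsTo_ball hGd (fun z hz => by
      rw [mem_ball_zero_iff] at hz
      rw [mem_closedBall_zero_iff]
      exact (hG1 z hz).le) hG0 (z := (ρ:ℂ) • ζ) (by rw [hn]; exact hρ1)
    rwa [hn] at h2
  -- pointwise identity
  have hpt : ∀ z : E, ‖z‖ < 1 → Real.log (1 - ‖g z‖ ^ 2) =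
      Real.log (1 - ‖G z‖ ^ 2) + (2 * Real.log ‖1 - conj a * g z‖ - Real.log (1 - ‖a‖ ^ 2)) := by
    intro z hz
    have h2 := hid (g z) (hg z hz)
    have h4 := norm_pos_iff.2 (hden0 _ (hg z hz))
    have h5 : 0 < 1 - ‖g z‖ ^ 2 := by nlinarith [norm_nonneg (g z), hg z hz]
    have h6 : Real.log (1 - ‖G z‖ ^ 2) = Real.log (1 - ‖a‖ ^ 2) + Real.log (1 - ‖g z‖ ^ 2) -
        2 * Real.log ‖1 - conj a * g z‖ := by
      simp only [hG]
      rw [h2, Real.log_div (by positivity) (by positivity), Real.log_mul ha2.ne' h5.ne', Real.log_pow]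
      norm_num
    rw [h6]
    ring
  have hball : ∀ ζ : E, ‖ζ‖ ≤ 1 → ‖(ρ:ℂ) • ζ‖ < 1 := by
    intro ζ hζ
    rw [norm_smul, Complex.norm_real, Real.norm_of_nonneg h0.le]
    nlinarith [norm_nonneg ζ]
  -- the mean of the denominator
  have hFc : ContinuousOn (fun z : E => 1 - conj a * g ((ρ:ℂ) • z)) (closedBall 0 1) :=
    continuousOn_const.sub (continuousOn_const.mul (lpb_smul_cont g hd.continuousOn h0.le hρ1))
  have hFd : DifferentiableOn ℂ (fun z : E => 1 - conj a * g ((ρ:ℂ) • z)) (ball 0 1) := by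
    have h2 : DifferentiableOn ℂ (fun z : E => g ((ρ:ℂ) • z)) (ball 0 1) := by
      refine hd.comp (by fun_prop) ?_
      intro z hz
      rw [mem_ball_zero_iff] at hz ⊢
      exact hball z hz.le
    exact (differentiableOn_const _).sub (h2.const_mul _)
  have hlm := log_mean σ hσ (fun z : E => 1 - conj a * g ((ρ:ℂ) • z)) hFc hFd
    (fun z hz => hden _ (hg _ (hball z hz)))
  have hF0 : Real.log ‖1 - conj a * g ((ρ:ℂ) • (0:E))‖ = Real.log (1 - ‖a‖ ^ 2) := by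
    rw [smul_zero, ← ha]
    have : conj a * a = ((‖a‖ ^ 2 : ℝ) : ℂ) := by
      rw [mul_comm, Complex.mul_conj, Complex.normSq_eq_norm_sq]
    rw [this, ← Complex.ofReal_one, ← Complex.ofReal_sub, Complex.norm_real,
      Real.norm_of_nonneg ha2.le]
  simp only [hF0] at hlm
  -- integrability
  have j1 : Integrable (fun ζ : E => Real.log (1 - ‖G ((ρ:ℂ) • ζ)‖ ^ 2)) σ :=
    lpb_int σ hσ _ (lpb_smul_cont' _ (lpb_log_cont G hGd.continuousOn hG1) h0.le hρ1)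
  have j2 : Integrable (fun ζ : E => Real.log ‖1 - conj a * g ((ρ:ℂ) • ζ)‖) σ := by
    refine lpb_int σ hσ _ (ContinuousOn.log hFc.norm ?_)
    intro z hz
    exact (norm_pos_iff.2 (hden0 _ (hg _ (hball z (mem_closedBall_zero_iff.1 hz))))).ne'
  have j3 : Integrable (fun ζ : E => ‖G ((ρ:ℂ) • ζ)‖ ^ 2) σ :=
    lpb_int σ hσ _ ((lpb_smul_cont G hGd.continuousOn h0.le hρ1).norm.pow 2)
  have hI : ∫ ζ, Real.log (1 - ‖g ((ρ:ℂ) • ζ)‖ ^ 2) ∂σ =
      (∫ ζ, Real.log (1 - ‖G ((ρ:ℂ) • ζ)‖ ^ 2) ∂σ) + Real.log (1 - ‖a‖ ^ 2) := by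
    have h2 : ∫ ζ, Real.log (1 - ‖g ((ρ:ℂ) • ζ)‖ ^ 2) ∂σ =
        ∫ ζ, (Real.log (1 - ‖G ((ρ:ℂ) • ζ)‖ ^ 2) +
          (2 * Real.log ‖1 - conj a * g ((ρ:ℂ) • ζ)‖ - Real.log (1 - ‖a‖ ^ 2))) ∂σ := by
      refine integral_congr_ae ?_
      filter_upwards [hσ.supp] with ζ hζ
      exact hpt _ (hball ζ hζ.le)
    have j4 : Integrable (fun ζ : E => 2 * Real.log ‖1 - conj a * g ((ρ:ℂ) • ζ)‖ -
        Real.log (1 - ‖a‖ ^ 2)) σ := (j2.const_mul 2).sub (integrable_const _)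
    rw [h2, integral_add j1 j4,
      integral_sub (j2.const_mul 2) (integrable_const _), integral_const_mul, hlm, integral_const]
    simp
    ring
  have hlow : -(∫ ζ, ‖G ((ρ:ℂ) • ζ)‖ ^ 2 ∂σ) - 2 * ρ ^ 4 ≤
      ∫ ζ, Real.log (1 - ‖G ((ρ:ℂ) • ζ)‖ ^ 2) ∂σ := by
    have h2 : ∫ ζ, (-(‖G ((ρ:ℂ) • ζ)‖ ^ 2) - 2 * ρ ^ 4) ∂σ ≤
        ∫ ζ, Real.log (1 - ‖G ((ρ:ℂ) • ζ)‖ ^ 2) ∂σ := by
      refine integral_mono_ae (j3.neg.sub (integrable_const _)) j1 ?_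
      filter_upwards [hσ.supp] with ζ hζ
      have h3 := hGρ ζ hζ
      have h4 : ‖G ((ρ:ℂ) • ζ)‖ ^ 2 ≤ ρ ^ 2 := pow_le_pow_left₀ (norm_nonneg _) h3 2
      have h5 : ρ ^ 2 ≤ 1 / 4 := by nlinarith
      have h6 := lpb_log_low (x := ‖G ((ρ:ℂ) • ζ)‖ ^ 2) (by positivity) (h4.trans h5)
      refine le_trans ?_ h6
      have h7 : (‖G ((ρ:ℂ) • ζ)‖ ^ 2) ^ 2 ≤ (ρ ^ 2) ^ 2 := pow_le_pow_left₀ (by positivity) h4 2
      have h8 : (ρ ^ 2) ^ 2 = ρ ^ 4 := by ring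
      linarith
    have j5 : Integrable (fun ζ : E => -(‖G ((ρ:ℂ) • ζ)‖ ^ 2)) σ := j3.neg
    rw [integral_sub j5 (integrable_const _), integral_neg, integral_const] at h2
    simpa using h2
  rw [hI]
  linarith

theorem lpb_mob_ball {z : E} (hz : ‖z‖ < 1) {ρ : ℝ} (h0 : 0 ≤ ρ) (h1 : ρ < 1) :
    ContinuousOn (fun ζ : E => mob z ((ρ:ℂ) • ζ)) (closedBall 0 1) ∧
    ∀ ζ ∈ closedBall (0:E) 1, mob z ((ρ:ℂ) • ζ) ∈ ball (0:E) 1 := by
  have hball : ∀ ζ ∈ closedBall (0:E) 1, ‖(ρ:ℂ) • ζ‖ < 1 := by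
    intro ζ hζ
    rw [mem_closedBall_zero_iff] at hζ
    rw [norm_smul, Complex.norm_real, Real.norm_of_nonneg h0]
    nlinarith [norm_nonneg ζ]
  refine ⟨?_, fun ζ hζ => mem_ball_zero_iff.2 (norm_mob_lt hz (hball ζ hζ))⟩
  refine (differentiableOn_mob z).continuousOn.comp (by fun_prop) ?_
  intro ζ hζ
  exact one_add_inner_ne hz (hball ζ hζ).le

theorem ss_int (σ : Measure E) (hσ : IsSph σ) [Nontrivial E] (f : E → ℂ)
    (hd : DifferentiableOn ℂ f (ball 0 1)) (hf : ∀ z, ‖z‖ < 1 → ‖f z‖ < 1)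
    {z : E} (hz : ‖z‖ < 1) {ρ : ℝ} (h0 : 0 ≤ ρ) (h1 : ρ < 1) :
    Integrable (fun ζ => ss f (mob z ((ρ:ℂ) • ζ))) σ := by
  refine lpb_int σ hσ _ ?_
  obtain ⟨hc, hm⟩ := lpb_mob_ball hz h0 h1
  have hss : ContinuousOn (ss f) (ball 0 1) := by
    have h2 := lpb_log_cont f hd.continuousOn hf
    have h3 : ContinuousOn (fun w : E => Real.log (1 - ‖w‖ ^ 2)) (ball 0 1) := by
      refine ContinuousOn.log (by fun_prop) ?_
      intro w hw
      rw [mem_ball_zero_iff] at hw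
      have : ‖w‖ ^ 2 < 1 := by nlinarith [norm_nonneg w]
      linarith
    exact h2.sub (continuousOn_const.mul h3)
  exact hss.comp hc hm

theorem ss_step (σ : Measure E) (hσ : IsSph σ) [Nontrivial E] (f : E → ℂ)
    (hd : DifferentiableOn ℂ f (ball 0 1)) (hf : ∀ z, ‖z‖ < 1 → ‖f z‖ < 1)
    {z : E} (hz : ‖z‖ < 1) {ρ : ℝ} (h0 : 0 < ρ) (h1 : ρ ≤ 1 / 2) :
    ss f z - 6 * ρ ^ 4 ≤ ∫ ζ, ss f (mob z ((ρ:ℂ) • ζ)) ∂σ := by
  have hρ1 : ρ < 1 := by linarith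
  obtain ⟨hc, hm⟩ := lpb_mob_ball hz h0.le hρ1
  have hgd : DifferentiableOn ℂ (fun w : E => f (mob z w)) (ball 0 1) := by
    have h2 : DifferentiableOn ℂ (mob z) (ball 0 1) := (differentiableOn_mob z).mono (fun w hw => by
      rw [mem_ball_zero_iff] at hw
      exact one_add_inner_ne hz hw.le)
    refine hd.comp h2 ?_
    intro w hw
    rw [mem_ball_zero_iff] at hw ⊢
    exact norm_mob_lt hz hw
  have hg1 : ∀ w : E, ‖w‖ < 1 → ‖f (mob z w)‖ < 1 := fun w hw => hf _ (norm_mob_lt hz hw)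
  have hstep := log_step σ hσ (fun w : E => f (mob z w)) hgd hg1 h0 h1
  simp only [mob_zero_right] at hstep
  have hmm := mob_log_mean σ hσ hz h0.le hρ1
  have i1 : Integrable (fun ζ : E => Real.log (1 - ‖f (mob z ((ρ:ℂ) • ζ))‖ ^ 2)) σ :=
    lpb_int σ hσ _ ((lpb_log_cont f hd.continuousOn hf).comp hc hm)
  have i2 : Integrable (fun ζ : E => Real.log (1 - ‖mob z ((ρ:ℂ) • ζ)‖ ^ 2)) σ := by
    refine lpb_int σ hσ _ ?_
    have h3 : ContinuousOn (fun w : E => Real.log (1 - ‖w‖ ^ 2)) (ball 0 1) := by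
      refine ContinuousOn.log (by fun_prop) ?_
      intro w hw
      rw [mem_ball_zero_iff] at hw
      have : ‖w‖ ^ 2 < 1 := by nlinarith [norm_nonneg w]
      linarith
    exact h3.comp hc hm
  unfold ss
  rw [integral_sub i1 (i2.const_mul _), integral_const_mul, hmm]
  have hlog : Real.log (1 - ρ ^ 2) ≤ -ρ ^ 2 := by
    have h3 : 0 < 1 - ρ ^ 2 := by nlinarith
    have h4 := Real.log_le_sub_one_of_pos h3
    linarith
  have hn0 : 0 ≤ 1 / (Module.finrank ℂ E : ℝ) := by positivity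
  have h5 : 1 / (Module.finrank ℂ E : ℝ) * Real.log (1 - ρ ^ 2) ≤
      1 / (Module.finrank ℂ E : ℝ) * (-ρ ^ 2) := mul_le_mul_of_nonneg_left hlog hn0
  have e6 : ρ ^ 2 / (Module.finrank ℂ E : ℝ) = 1 / (Module.finrank ℂ E : ℝ) * ρ ^ 2 := by ring
  rw [e6] at hstep
  linarith

end LP

end Pool.Agent.Helper287.MB.LPB

namespace Pool.Agent.Helper287.MB
alias sq_mean_bound := LPB.sq_mean_bound
alias log_step := LPB.log_step
alias ss_int := LPB.ss_int
alias ss_step := LPB.ss_step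
end Pool.Agent.Helper287.MB
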