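import Pool.Agent.Helper287.LP.Defs
set_option autoImplicit false
open MeasureTheory Metric Set Filter Topology
open scoped InnerProductSpace ComplexConjugate

namespace Pool.Agent.Helper287.MB.LPC


section LP
variable {E : Type} [NormedAddCommGroup E] [InnerProductSpace ℂ E] [FiniteDimensional ℂ E]
  [MeasurableSpace E] [BorelSpace E]

omit [FiniteDimensional ℂ E] [MeasurableSpace E] [BorelSpace E] in
theorem one_sub_inner_mob {a z w : E} (ha : ‖a‖ < 1) (hz : ‖z‖ ≤ 1) (hw : ‖w‖ ≤ 1) :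
    1 - ⟪mob a z, mob a w⟫_ℂ
      = (1 - ((‖a‖ ^ 2 : ℝ) : ℂ)) * (1 - ⟪z, w⟫_ℂ) / ((1 + ⟪z, a⟫_ℂ) * (1 + ⟪a, w⟫_ℂ)) := by
  have hα : 1 + ⟪a, z⟫_ℂ ≠ 0 := one_add_inner_ne ha hz
  have hβ : 1 + ⟪a, w⟫_ℂ ≠ 0 := one_add_inner_ne ha hw
  have hα' : 1 + ⟪z, a⟫_ℂ ≠ 0 := by
    intro h
    apply hα
    have h1 := congrArg (starRingEnd ℂ) h
    rw [map_add, map_one, inner_conj_symm, map_zero] at h1
    exact h1
  have hs := one_add_sq_ne a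
  have hsq : ((‖a‖ ^ 2 : ℝ) : ℂ) = 1 - (sq a : ℂ) ^ 2 := by
    have h1 := sq_sq ha.le
    have h2 : ‖a‖ ^ 2 = 1 - sq a ^ 2 := by linarith
    rw [h2]; push_cast; ring
  unfold mob
  simp only [inner_add_left, inner_add_right, inner_smul_left, inner_smul_right,
    inner_self_cast, map_inv₀, map_add, map_one, map_div₀, inner_conj_symm, Complex.conj_ofReal]
  rw [hsq]
  field_simp
  ring

omit [FiniteDimensional ℂ E] [MeasurableSpace E] [BorelSpace E] in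
theorem one_sub_inner_self_mob {a w : E} (ha : ‖a‖ < 1) (hw : ‖w‖ ≤ 1) :
    1 - ⟪a, mob a w⟫_ℂ = (1 - ((‖a‖ ^ 2 : ℝ) : ℂ)) / (1 + ⟪a, w⟫_ℂ) := by
  have hβ : 1 + ⟪a, w⟫_ℂ ≠ 0 := one_add_inner_ne ha hw
  rw [inner_mob ha.le]
  field_simp
  ring

omit [FiniteDimensional ℂ E] [MeasurableSpace E] [BorelSpace E] in
theorem dist_bound {z ζ₀ η : E} {K : ℝ} (hz : ‖z‖ < 1) (hζ : ‖ζ₀‖ = 1) (hη : ‖η‖ = 1)
    (h : ‖1 - ⟪z, ζ₀⟫_ℂ‖ ≤ K * (1 - ‖z‖ ^ 2)) :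
    ‖1 - ⟪ζ₀, mob z η⟫_ℂ‖ ≤ 2 * K * (1 - ‖z‖ ^ 2) / ‖1 + ⟪z, η⟫_ℂ‖ := by
  obtain ⟨ξ, hξdef⟩ : ∃ ξ, ξ = mob (-z) ζ₀ := ⟨_, rfl⟩
  have hnz : ‖-z‖ < 1 := by rw [norm_neg]; exact hz
  have hξ : mob z ξ = ζ₀ := by rw [hξdef]; exact mob_mob_neg hz hζ.le
  have hξ1 : ‖ξ‖ = 1 := by rw [hξdef]; exact norm_mob_one hnz hζ
  have e1 := one_sub_inner_mob hz hξ1.le hη.le
  have e2 := one_sub_inner_self_mob hz hξ1.le
  rw [hξ] at e1 e2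
  have hα : 1 + ⟪z, ξ⟫_ℂ ≠ 0 := one_add_inner_ne hz hξ1.le
  have hβ : 1 + ⟪z, η⟫_ℂ ≠ 0 := one_add_inner_ne hz hη.le
  have hconj : ‖1 + ⟪ξ, z⟫_ℂ‖ = ‖1 + ⟪z, ξ⟫_ℂ‖ := by
    have h1 : (starRingEnd ℂ) (1 + ⟪z, ξ⟫_ℂ) = 1 + ⟪ξ, z⟫_ℂ := by
      rw [map_add, map_one, inner_conj_symm]
    rw [← h1]
    exact RCLike.norm_conj _
  have hpos : 0 < 1 - ‖z‖ ^ 2 := by nlinarith [norm_nonneg z]
  have hnorm : ‖(1 - ((‖z‖ ^ 2 : ℝ) : ℂ))‖ = 1 - ‖z‖ ^ 2 := by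
    have : (1 - ((‖z‖ ^ 2 : ℝ) : ℂ)) = ((1 - ‖z‖ ^ 2 : ℝ) : ℂ) := by push_cast; ring
    rw [this, Complex.norm_real, Real.norm_eq_abs, abs_of_pos hpos]
  have hαp : 0 < ‖1 + ⟪z, ξ⟫_ℂ‖ := norm_pos_iff.2 hα
  have hβp : 0 < ‖1 + ⟪z, η⟫_ℂ‖ := norm_pos_iff.2 hβ
  have hK : 1 / ‖1 + ⟪z, ξ⟫_ℂ‖ ≤ K := by
    rw [e2, norm_div, hnorm] at h
    have h2 : (1 - ‖z‖ ^ 2) * (1 / ‖1 + ⟪z, ξ⟫_ℂ‖) ≤ (1 - ‖z‖ ^ 2) * K := by
      rw [mul_one_div]; linarith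
    exact le_of_mul_le_mul_left h2 hpos
  have h2 : ‖1 - ⟪ξ, η⟫_ℂ‖ ≤ 2 := by
    calc ‖1 - ⟪ξ, η⟫_ℂ‖ ≤ ‖(1 : ℂ)‖ + ‖⟪ξ, η⟫_ℂ‖ := norm_sub_le _ _
      _ ≤ 1 + ‖ξ‖ * ‖η‖ := by
          rw [norm_one]
          linarith [norm_inner_le_norm (𝕜 := ℂ) ξ η]
      _ = 2 := by rw [hξ1, hη]; norm_num
  rw [e1, norm_div, norm_mul, norm_mul, hnorm, hconj]
  have h3 : (1 - ‖z‖ ^ 2) * ‖1 - ⟪ξ, η⟫_ℂ‖ / (‖1 + ⟪z, ξ⟫_ℂ‖ * ‖1 + ⟪z, η⟫_ℂ‖) =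
      (1 - ‖z‖ ^ 2) * ‖1 - ⟪ξ, η⟫_ℂ‖ * (1 / ‖1 + ⟪z, ξ⟫_ℂ‖) / ‖1 + ⟪z, η⟫_ℂ‖ := by
    field_simp
  rw [h3]
  apply div_le_div_of_nonneg_right _ hβp.le
  have h4 : 0 < 1 / ‖1 + ⟪z, ξ⟫_ℂ‖ := by positivity
  calc (1 - ‖z‖ ^ 2) * ‖1 - ⟪ξ, η⟫_ℂ‖ * (1 / ‖1 + ⟪z, ξ⟫_ℂ‖)
      ≤ (1 - ‖z‖ ^ 2) * 2 * K := by
        apply mul_le_mul _ hK h4.le (by positivity)
        exact mul_le_mul_of_nonneg_left h2 hpos.le
    _ = 2 * K * (1 - ‖z‖ ^ 2) := by ring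

theorem norm_sub_lt_add_conj {A B : ℂ} (hA : 0 < A.re) (hB : 0 < B.re) :
    ‖A - B‖ < ‖A + conj B‖ := by
  have h1 : ‖A - B‖ ^ 2 < ‖A + conj B‖ ^ 2 := by
    rw [← Complex.normSq_eq_norm_sq, ← Complex.normSq_eq_norm_sq, Complex.normSq_apply,
      Complex.normSq_apply]
    simp only [Complex.sub_re, Complex.sub_im, Complex.add_re, Complex.add_im, Complex.conj_re,
      Complex.conj_im]
    nlinarith [mul_pos hA hB]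
  exact lt_of_pow_lt_pow_left₀ 2 (norm_nonneg _) h1

omit [MeasurableSpace E] [BorelSpace E] in
theorem sp_half (W : E → ℂ) (hd : DifferentiableOn ℂ W (ball 0 1))
    (hre : ∀ z, ‖z‖ < 1 → 0 < (W z).re) {z₀ z₁ : E} (h0 : ‖z₀‖ < 1) (h1 : ‖z₁‖ < 1) :
    ‖W z₁ - W z₀‖ ≤ ‖mob (-z₀) z₁‖ * ‖W z₁ + conj (W z₀)‖ := by
  have hn0 : ‖-z₀‖ < 1 := by rw [norm_neg]; exact h0
  have hw1 : ‖mob (-z₀) z₁‖ < 1 := norm_mob_lt hn0 h1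
  have hmw : mob z₀ (mob (-z₀) z₁) = z₁ := mob_mob_neg h0 h1.le
  have hden : ∀ w : E, ‖w‖ < 1 → W (mob z₀ w) + conj (W z₀) ≠ 0 := by
    intro w hw h2
    have h3 := norm_sub_lt_add_conj (hre _ (norm_mob_lt h0 hw)) (hre _ h0)
    rw [h2, norm_zero] at h3
    exact absurd h3 (not_lt.2 (norm_nonneg _))
  have hmaps : MapsTo (mob z₀) (ball (0 : E) 1) (ball 0 1) := by
    intro w hw
    rw [mem_ball_zero_iff] at hw ⊢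
    exact norm_mob_lt h0 hw
  have hmobd : DifferentiableOn ℂ (mob z₀) (ball (0 : E) 1) := by
    refine (differentiableOn_mob z₀).mono fun w hw => ?_
    rw [mem_ball_zero_iff] at hw
    exact one_add_inner_ne h0 hw.le
  have hWd : DifferentiableOn ℂ (fun w => W (mob z₀ w)) (ball (0 : E) 1) := hd.comp hmobd hmaps
  have key := Complex.norm_le_norm_of_mapsTo_ball (R := 1)
    (f := fun w : E => (W (mob z₀ w) - W z₀) / (W (mob z₀ w) + conj (W z₀)))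
    (z := mob (-z₀) z₁)
    (by
      have hi : DifferentiableOn ℂ (fun w => (W (mob z₀ w) + conj (W z₀)))⁻¹ (ball (0 : E) 1) :=
        DifferentiableOn.inv (hWd.add_const _) (by
          intro w hw
          rw [mem_ball_zero_iff] at hw
          exact hden w hw)
      have hm := (hWd.sub_const (W z₀)).mul hi
      refine hm.congr fun w _ => ?_
      simp [div_eq_mul_inv])
    (by
      intro w hw
      rw [mem_ball_zero_iff] at hw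
      rw [mem_closedBall_zero_iff, norm_div]
      have h3 := norm_sub_lt_add_conj (hre _ (norm_mob_lt h0 hw)) (hre _ h0)
      exact div_le_one_of_le₀ h3.le (norm_nonneg _))
    (by simp) hw1
  simp only [hmw, norm_div] at key
  have h3 := norm_sub_lt_add_conj (hre _ h1) (hre _ h0)
  have h4 : 0 < ‖W z₁ + conj (W z₀)‖ := lt_of_le_of_lt (norm_nonneg _) h3
  rwa [div_le_iff₀ h4] at key

omit [MeasurableSpace E] [BorelSpace E] in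
theorem sp_half' (W : E → ℂ) (hd : DifferentiableOn ℂ W (ball 0 1))
    (hre : ∀ z, ‖z‖ < 1 → 0 < (W z).re) {z₀ z₁ : E} (h0 : ‖z₀‖ < 1) (h1 : ‖z₁‖ < 1)
    {κ : ℝ} (hκ : ‖mob (-z₀) z₁‖ ≤ κ) (hκ1 : κ < 1) :
    ‖W z₁ - W z₀‖ ≤ 2 * κ / (1 - κ) * (W z₀).re := by
  have key := sp_half W hd hre h0 h1
  have hre0 := hre _ h0
  have h2 : ‖W z₁ + conj (W z₀)‖ ≤ ‖W z₁ - W z₀‖ + 2 * (W z₀).re := by
    have e : W z₁ + conj (W z₀) = (W z₁ - W z₀) + ((2 * (W z₀).re : ℝ) : ℂ) := by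
      have := Complex.add_conj (W z₀)
      linear_combination this
    rw [e]
    refine (norm_add_le _ _).trans ?_
    rw [Complex.norm_real, Real.norm_eq_abs, abs_of_pos (by linarith)]
  have hκ0 : 0 ≤ κ := (norm_nonneg _).trans hκ
  have h3 : ‖W z₁ - W z₀‖ ≤ κ * (‖W z₁ - W z₀‖ + 2 * (W z₀).re) :=
    key.trans (mul_le_mul hκ h2 (norm_nonneg _) hκ0)
  have h4 : 0 < 1 - κ := by linarith
  rw [div_mul_eq_mul_div, le_div_iff₀ h4]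
  linarith

end LP

end Pool.Agent.Helper287.MB.LPC

namespace Pool.Agent.Helper287.MB
alias one_sub_inner_mob := LPC.one_sub_inner_mob
alias one_sub_inner_self_mob := LPC.one_sub_inner_self_mob
alias dist_bound := LPC.dist_bound
alias sp_half := LPC.sp_half
alias sp_half' := LPC.sp_half'
end Pool.Agent.Helper287.MB
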