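import Pool.Agent.Helper287.LP.C
set_option autoImplicit false
open MeasureTheory Metric Set Filter Topology
open scoped InnerProductSpace ComplexConjugate

namespace Pool.Agent.Helper287.MB.LPD


section LP
variable {E : Type} [NormedAddCommGroup E] [InnerProductSpace ℂ E] [FiniteDimensional ℂ E]
  [MeasurableSpace E] [BorelSpace E]

omit [MeasurableSpace E] [BorelSpace E] in
theorem lip_boundary (f : E → ℂ) (hc : ContinuousOn f (closedBall 0 1))
    (hd : DifferentiableOn ℂ f (ball 0 1)) (hf : ∀ z, ‖z‖ < 1 → ‖f z‖ < 1)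
    {C α : ℝ} (hC : 0 ≤ C) (hα : 0 < α) (hα1 : α ≤ 1)
    (hL : ∀ z w, ‖z‖ ≤ 1 → ‖w‖ ≤ 1 → ‖f z - f w‖ ≤ C * ‖z - w‖ ^ α)
    {ζ₀ ζ : E} (h0 : ‖ζ₀‖ = 1) (h1 : ‖f ζ₀‖ = 1) (hζ : ‖ζ‖ = 1) :
    ‖f ζ - f ζ₀‖ ≤ (16 * C + 4) * ‖1 - ⟪ζ₀, ζ⟫_ℂ‖ ^ α := by
  set d : ℝ := ‖1 - ⟪ζ₀, ζ⟫_ℂ‖ with hdd
  have hd0 : 0 ≤ d := norm_nonneg _
  have hdα : 0 ≤ d ^ α := Real.rpow_nonneg hd0 α
  have hf1 : ∀ z, ‖z‖ ≤ 1 → ‖f z‖ ≤ 1 := by
    intro z hz
    have hmaps : MapsTo f (ball 0 1) (closedBall 0 1) := by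
      intro w hw
      rw [mem_ball_zero_iff] at hw
      rw [mem_closedBall_zero_iff]
      exact (hf w hw).le
    have hcl : closure (ball (0:E) 1) = closedBall 0 1 := closure_ball 0 one_ne_zero
    have h2 := hmaps.closure_of_continuousOn (by rw [hcl]; exact hc)
    rw [hcl, isClosed_closedBall.closure_eq] at h2
    have h3 := h2 (mem_closedBall_zero_iff.mpr hz)
    exact mem_closedBall_zero_iff.mp h3
  rcases le_or_gt (1 / 2) d with hd2 | hd2
  · have h2 : (1 / 2 : ℝ) ≤ d ^ α := by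
      calc (1 / 2 : ℝ) = (1 / 2 : ℝ) ^ (1 : ℝ) := (Real.rpow_one _).symm
        _ ≤ (1 / 2 : ℝ) ^ α := Real.rpow_le_rpow_of_exponent_ge (by norm_num) (by norm_num) hα1
        _ ≤ d ^ α := Real.rpow_le_rpow (by norm_num) hd2 hα.le
    have h3 : ‖f ζ - f ζ₀‖ ≤ 2 := by
      refine (norm_sub_le _ _).trans ?_
      have := hf1 ζ hζ.le
      rw [h1]
      linarith
    have h4 : 0 ≤ 16 * C * d ^ α := by positivity
    nlinarith
  · rcases hd0.eq_or_lt with hd3 | hd3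
    · have h2 : ⟪ζ₀, ζ⟫_ℂ = 1 := by
        have : 1 - ⟪ζ₀, ζ⟫_ℂ = 0 := norm_eq_zero.mp hd3.symm
        exact (sub_eq_zero.mp this).symm
      have h3 : ζ₀ = ζ := (inner_eq_one_iff_of_norm_eq_one h0 hζ).mp h2
      rw [h3, sub_self, norm_zero]
      positivity
    · set r : ℝ := 1 - d with hr
      have hr0 : 0 < r := by rw [hr]; linarith
      have hr1 : r < 1 := by rw [hr]; linarith
      set z₀ : E := (r : ℂ) • ζ₀ with hz₀
      set z₁ : E := (r : ℂ) • ζ with hz₁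
      have hnz₀ : ‖z₀‖ = r := by
        rw [hz₀, norm_smul, h0, mul_one, Complex.norm_real, Real.norm_eq_abs, abs_of_pos hr0]
      have hnz₁ : ‖z₁‖ = r := by
        rw [hz₁, norm_smul, hζ, mul_one, Complex.norm_real, Real.norm_eq_abs, abs_of_pos hr0]
      have hdiff : ∀ w : E, ‖w‖ = 1 → ‖w - (r : ℂ) • w‖ = d := by
        intro w hw
        have : w - (r : ℂ) • w = ((d : ℝ) : ℂ) • w := by
          rw [hr]
          push_cast
          module
        rw [this, norm_smul, hw, mul_one, Complex.norm_real, Real.norm_eq_abs, abs_of_pos hd3]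
      have hA : ‖f ζ - f z₁‖ ≤ C * d ^ α := by
        have := hL ζ z₁ hζ.le (by rw [hnz₁]; exact hr1.le)
        rwa [hz₁, hdiff ζ hζ] at this
      have hB : ‖f ζ₀ - f z₀‖ ≤ C * d ^ α := by
        have := hL ζ₀ z₀ h0.le (by rw [hnz₀]; exact hr1.le)
        rwa [hz₀, hdiff ζ₀ h0] at this
      set W : E → ℂ := fun z => 1 - conj (f ζ₀) * f z with hW
      have hWd : DifferentiableOn ℂ W (ball 0 1) := by
        apply DifferentiableOn.sub (differentiableOn_const _)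
        exact hd.const_mul _
      have hcn : ‖conj (f ζ₀)‖ = 1 := by rw [Complex.norm_conj, h1]
      have hWre : ∀ z, ‖z‖ < 1 → 0 < (W z).re := by
        intro z hz
        have h2 : (conj (f ζ₀) * f z).re ≤ ‖conj (f ζ₀) * f z‖ := Complex.re_le_norm _
        rw [norm_mul, hcn, one_mul] at h2
        have h3 := hf z hz
        simp only [hW, Complex.sub_re, Complex.one_re]
        linarith
      have hWsub : ‖W z₁ - W z₀‖ = ‖f z₁ - f z₀‖ := by
        have : W z₁ - W z₀ = conj (f ζ₀) * (f z₀ - f z₁) := by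
          simp only [hW]
          ring
        rw [this, norm_mul, hcn, one_mul, norm_sub_rev]
      have hWz₀ : (W z₀).re ≤ C * d ^ α := by
        have h2 : W z₀ = conj (f ζ₀) * (f ζ₀ - f z₀) := by
          have h3 : conj (f ζ₀) * f ζ₀ = 1 := by
            rw [mul_comm, Complex.mul_conj, Complex.normSq_eq_norm_sq, h1]
            norm_num
          simp only [hW]
          rw [mul_sub, h3]
        calc (W z₀).re ≤ ‖W z₀‖ := Complex.re_le_norm _
          _ = ‖f ζ₀ - f z₀‖ := by rw [h2, norm_mul, hcn, one_mul]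
          _ ≤ _ := hB
      have hin : ⟪-z₀, z₁⟫_ℂ = -(((r ^ 2 : ℝ) : ℂ) * ⟪ζ₀, ζ⟫_ℂ) := by
        rw [inner_neg_left, hz₀, hz₁, inner_smul_left, inner_smul_right, Complex.conj_ofReal]
        push_cast
        ring
      have hden : ‖1 + ⟪-z₀, z₁⟫_ℂ‖ ≤ 2 * (1 - r ^ 2) := by
        have h2 : 1 + ⟪-z₀, z₁⟫_ℂ = ((1 - r ^ 2 : ℝ) : ℂ) + ((r ^ 2 : ℝ) : ℂ) * (1 - ⟪ζ₀, ζ⟫_ℂ) := by
          rw [hin]
          push_cast
          ring
        have hr2 : 0 ≤ 1 - r ^ 2 := by nlinarith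
        rw [h2]
        refine (norm_add_le _ _).trans ?_
        rw [norm_mul, Complex.norm_real, Complex.norm_real, Real.norm_eq_abs, Real.norm_eq_abs,
          abs_of_nonneg hr2, abs_of_nonneg (sq_nonneg r), ← hdd]
        have h3 : r ^ 2 * d ≤ 1 - r ^ 2 := by
          have e1 : d = 1 - r := by rw [hr]; ring
          rw [e1]
          nlinarith
        linarith
      have hnz₀' : ‖-z₀‖ < 1 := by rw [norm_neg, hnz₀]; exact hr1
      have hnz₁' : ‖z₁‖ < 1 := by rw [hnz₁]; exact hr1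
      have hne : 1 + ⟪-z₀, z₁⟫_ℂ ≠ 0 := one_add_inner_ne hnz₀' hnz₁'.le
      have hκ : ‖mob (-z₀) z₁‖ ≤ 7 / 8 := by
        have h2 := norm_mob_sq' hnz₀'.le hne
        rw [norm_neg, hnz₀, hnz₁] at h2
        have hpos : 0 < ‖1 + ⟪-z₀, z₁⟫_ℂ‖ := norm_pos_iff.mpr hne
        have hr2 : 0 < 1 - r ^ 2 := by nlinarith
        have h3 : 1 / 4 ≤ (1 - r ^ 2) * (1 - r ^ 2) / ‖1 + ⟪-z₀, z₁⟫_ℂ‖ ^ 2 := by
          rw [le_div_iff₀ (by positivity)]
          have := pow_le_pow_left₀ hpos.le hden 2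
          nlinarith
        rw [← h2] at h3
        have h4 := norm_nonneg (mob (-z₀) z₁)
        nlinarith
      have hsp := sp_half' W hWd hWre (by rw [hnz₀]; exact hr1 : ‖z₀‖ < 1) hnz₁' hκ (by norm_num)
      rw [hWsub] at hsp
      have h5 : ‖f z₁ - f z₀‖ ≤ 14 * (C * d ^ α) := by
        refine hsp.trans ?_
        norm_num
        linarith
      have h6 : ‖f ζ - f ζ₀‖ ≤ ‖f ζ - f z₁‖ + ‖f z₁ - f z₀‖ + ‖f z₀ - f ζ₀‖ := by
        have e1 : f ζ - f ζ₀ = (f ζ - f z₁) + (f z₁ - f z₀) + (f z₀ - f ζ₀) := by ring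
        rw [e1]
        exact norm_add₃_le
      rw [norm_sub_rev (f z₀)] at h6
      nlinarith

end LP

end Pool.Agent.Helper287.MB.LPD

namespace Pool.Agent.Helper287.MB
alias lip_boundary := LPD.lip_boundary
end Pool.Agent.Helper287.MB
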