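import Pool.Agent.Helper287.MB.MM
set_option autoImplicit false
open MeasureTheory Metric Set
open scoped InnerProductSpace ComplexConjugate
namespace Pool.Agent.Helper287.MB

/-- Poisson integral of a real function on the sphere -/
noncomputable def PP {E : Type} [NormedAddCommGroup E] [InnerProductSpace ℂ E] [MeasurableSpace E]
    (σ : Measure E) (g : E → ℝ) (z : E) : ℝ := ∫ ζ, g (mob z ζ) ∂σ

/-- continuous cut-off: `0` on `A`, and `1` at distance at least `1 / j` from `A` -/
noncomputable def gc {E : Type} [NormedAddCommGroup E]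
    (A : Set E) (j : ℝ) (ζ : E) : ℝ := min 1 (j * infDist ζ A)

/-- `log (1 - |f|²) - (1/n) log (1 - |z|²)` -/
noncomputable def ss {E : Type} [NormedAddCommGroup E] [InnerProductSpace ℂ E]
    (f : E → ℂ) (z : E) : ℝ :=
  Real.log (1 - ‖f z‖ ^ 2) - (1 / (Module.finrank ℂ E : ℝ)) * Real.log (1 - ‖z‖ ^ 2)

/-- the part of the unit sphere where `|f| = 1` -/
def UM {E : Type} [NormedAddCommGroup E] (f : E → ℂ) : Set E := {ζ | ‖ζ‖ = 1 ∧ ‖f ζ‖ = 1}

alias C_meas_mob := C.C_meas_mob
alias ae_inner_ne := A.ae_inner_ne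
alias ae_norm_mob_one := A.ae_norm_mob_one

end Pool.Agent.Helper287.MB
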