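import Pool.Agent.Helper287.LP.A
import Pool.Agent.Helper287.LP.D
set_option autoImplicit false
open MeasureTheory Metric Set Filter Topology
open scoped InnerProductSpace ComplexConjugate

namespace Pool.Agent.Helper287.MB.LPE


section LP
set_option linter.unusedSectionVars false
variable {E : Type} [NormedAddCommGroup E] [InnerProductSpace ℂ E] [FiniteDimensional ℂ E]
  [MeasurableSpace E] [BorelSpace E]

theorem lp_meas1 (z : E) : Measurable (fun ζ : E => ((z, ζ) : E × E)) := by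
  exact measurable_prodMk_left

theorem lp_meas2 : Measurable (fun p : E × E => mob p.1 p.2) := by
  exact C_meas_mob

theorem lp_meas3 (z : E) (h : Measurable (fun ζ : E => ((z, ζ) : E × E)))
    (h2 : Measurable (fun p : E × E => mob p.1 p.2)) : Measurable (fun ζ : E => mob z ζ) := by
  exact Measurable.comp (f := fun ζ : E => ((z, ζ) : E × E)) (g := fun p : E × E => mob p.1 p.2) h2 h

theorem lp_meas (z : E) : Measurable (fun ζ : E => mob z ζ) :=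
  lp_meas3 z (lp_meas1 z) lp_meas2

theorem gc_cont (A : Set E) (j : ℝ) : Continuous (gc A j) := by
  unfold gc
  exact continuous_const.min (continuous_const.mul (continuous_infDist_pt A))

theorem gc_nonneg (A : Set E) {j : ℝ} (hj : 0 ≤ j) (ζ : E) : 0 ≤ gc A j ζ :=
  le_min zero_le_one (mul_nonneg hj infDist_nonneg)

theorem gc_le_one (A : Set E) (j : ℝ) (ζ : E) : gc A j ζ ≤ 1 := min_le_left _ _

theorem gc_int (σ : Measure E) (hσ : IsSph σ) (A : Set E) {j : ℝ} (hj : 0 ≤ j) (z : E) :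
    Integrable (fun η => gc A j (mob z η)) σ := by
  have := hσ.prob
  refine (MemLp.of_bound (p := 1) ((gc_cont A j).measurable.comp (lp_meas z)).aestronglyMeasurable 1
    (Eventually.of_forall (fun η => ?_))).integrable le_rfl
  show ‖gc A j (mob z η)‖ ≤ 1
  rw [Real.norm_of_nonneg (gc_nonneg A hj _)]
  exact gc_le_one A j _

theorem norm_one_sub_sq {z : E} (hD : 0 < 1 - ‖z‖ ^ 2) : ‖(1 - ((‖z‖ ^ 2 : ℝ) : ℂ))‖ = 1 - ‖z‖ ^ 2 := by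
  rw [← Complex.ofReal_one, ← Complex.ofReal_sub, Complex.norm_real, Real.norm_of_nonneg hD.le]

theorem lp_step1 (σ : Measure E) (hσ : IsSph σ) (hdim : 2 ≤ Module.finrank ℂ E) (A : Set E)
    (hne : A.Nonempty) {j : ℝ} {z : E} (hz : ‖z‖ < 1) (hj : 0 < j)
    (hjD : 1 ≤ j * (1 - ‖z‖ ^ 2)) (hP : PP σ (gc A j) z ≤ 1 / 4) :
    ∃ ζ₀ ∈ A, ‖1 - ⟪z, ζ₀⟫_ℂ‖ ≤ 9 * (1 - ‖z‖ ^ 2) := by
  by_contra hcon
  push Not at hcon
  have := hσ.prob
  have hD : 0 < 1 - ‖z‖ ^ 2 := by nlinarith [norm_nonneg z]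
  have hpt : ∀ᵐ η ∂σ, 1 - 64 / 49 * ‖⟪z, η⟫_ℂ‖ ^ 2 ≤ gc A j (mob z η) := by
    filter_upwards [ae_inner_ne σ hσ hz.le] with η hη
    by_cases hN : 1 / 8 < ‖1 + ⟪z, η⟫_ℂ‖
    · have h1 : gc A j (mob z η) = 1 := by
        unfold gc
        apply min_eq_left
        have h2 : 1 - ‖z‖ ^ 2 ≤ infDist (mob z η) A := by
          rw [le_infDist hne]
          intro ζ' hζ'
          have h3 := hcon ζ' hζ'
          have h4 := one_sub_inner_self_mob (a := z) (w := η) hz hη.1.le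
          have h5 : ‖1 - ⟪z, mob z η⟫_ℂ‖ < 8 * (1 - ‖z‖ ^ 2) := by
            rw [h4, norm_div, norm_one_sub_sq hD, div_lt_iff₀ (by linarith)]
            nlinarith
          have h6 : ⟪z, mob z η - ζ'⟫_ℂ = (1 - ⟪z, ζ'⟫_ℂ) - (1 - ⟪z, mob z η⟫_ℂ) := by
            rw [inner_sub_right]; ring
          have h7 : ‖⟪z, mob z η - ζ'⟫_ℂ‖ ≤ ‖z‖ * ‖mob z η - ζ'‖ := norm_inner_le_norm _ _
          have h8 : ‖(1 - ⟪z, ζ'⟫_ℂ)‖ - ‖(1 - ⟪z, mob z η⟫_ℂ)‖ ≤ ‖⟪z, mob z η - ζ'⟫_ℂ‖ := by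
            rw [h6]; exact norm_sub_norm_le _ _
          rw [dist_eq_norm]
          have h9 : ‖z‖ * ‖mob z η - ζ'‖ ≤ ‖mob z η - ζ'‖ := by nlinarith [norm_nonneg (mob z η - ζ')]
          linarith
        calc 1 ≤ j * (1 - ‖z‖ ^ 2) := hjD
          _ ≤ j * infDist (mob z η) A := mul_le_mul_of_nonneg_left h2 hj.le
      rw [h1]
      nlinarith [sq_nonneg ‖⟪z, η⟫_ℂ‖]
    · push Not at hN
      have h1 : 7 / 8 ≤ ‖⟪z, η⟫_ℂ‖ := by
        have h2 : ‖(1 : ℂ)‖ ≤ ‖1 + ⟪z, η⟫_ℂ‖ + ‖⟪z, η⟫_ℂ‖ := by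
          calc ‖(1 : ℂ)‖ = ‖(1 + ⟪z, η⟫_ℂ) - ⟪z, η⟫_ℂ‖ := by congr 1; ring
            _ ≤ _ := norm_sub_le _ _
        rw [norm_one] at h2
        linarith
      have := gc_nonneg A hj.le (mob z η)
      nlinarith
  have hint1 : Integrable (fun η => ‖⟪z, η⟫_ℂ‖ ^ 2) σ := by
    refine (MemLp.of_bound (p := 1) (C := 1) ?_ ?_).integrable le_rfl
    · exact (by fun_prop : Continuous (fun η : E => ‖⟪z, η⟫_ℂ‖ ^ 2)).measurable.aestronglyMeasurable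
    · filter_upwards [hσ.supp] with η hη
      rw [Real.norm_of_nonneg (by positivity)]
      have h1 : ‖⟪z, η⟫_ℂ‖ ≤ ‖z‖ * ‖η‖ := norm_inner_le_norm _ _
      rw [hη, mul_one] at h1
      have h2 : ‖⟪z, η⟫_ℂ‖ ≤ 1 := h1.trans hz.le
      exact pow_le_one₀ (norm_nonneg _) h2
  have hint2 := gc_int σ hσ A hj.le z
  have h1 : ∫ η, (1 - 64 / 49 * ‖⟪z, η⟫_ℂ‖ ^ 2) ∂σ ≤ PP σ (gc A j) z :=
    integral_mono_ae ((integrable_const 1).sub (hint1.const_mul (64 / 49))) hint2 hpt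
  rw [integral_sub (integrable_const 1) (hint1.const_mul (64 / 49)), integral_const_mul] at h1
  simp only [integral_const, probReal_univ, smul_eq_mul, mul_one] at h1
  have h2 := sph_normsq σ hσ z
  have h3 : (0 : ℝ) ≤ ∫ η, ‖⟪z, η⟫_ℂ‖ ^ 2 ∂σ := integral_nonneg (fun η => by positivity)
  have h4 : (2 : ℝ) ≤ (Module.finrank ℂ E : ℝ) := by exact_mod_cast hdim
  have h5 : ‖z‖ ^ 2 ≤ 1 := by nlinarith [norm_nonneg z]
  nlinarith

theorem lp_int_pow (σ : Measure E) (hσ : IsSph σ) {z : E} (hz : ‖z‖ < 1) {q : ℝ} (h0 : 0 < q) :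
    Integrable (fun ζ : E => ‖1 + ⟪z, ζ⟫_ℂ‖ ^ (-q)) σ := by
  have := hσ.prob
  refine (MemLp.of_bound (p := 1) (C := (1 - ‖z‖) ^ (-q)) ?_ ?_).integrable le_rfl
  · have : Measurable (fun ζ : E => ‖1 + ⟪z, ζ⟫_ℂ‖) :=
      (by fun_prop : Continuous (fun ζ : E => ‖1 + ⟪z, ζ⟫_ℂ‖)).measurable
    exact (this.pow_const (-q)).aestronglyMeasurable
  · filter_upwards [hσ.supp] with η hη
    rw [Real.norm_of_nonneg (by positivity)]
    have h1 : ‖⟪z, η⟫_ℂ‖ ≤ ‖z‖ * ‖η‖ := norm_inner_le_norm _ _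
    rw [hη, mul_one] at h1
    have h2 : ‖(1 : ℂ)‖ ≤ ‖1 + ⟪z, η⟫_ℂ‖ + ‖⟪z, η⟫_ℂ‖ := by
      calc ‖(1 : ℂ)‖ = ‖(1 + ⟪z, η⟫_ℂ) - ⟪z, η⟫_ℂ‖ := by congr 1; ring
        _ ≤ _ := norm_sub_le _ _
    rw [norm_one] at h2
    exact Real.rpow_le_rpow_of_nonpos (by linarith) (by linarith) (by linarith)

theorem lp_step2 (σ : Measure E) (hσ : IsSph σ)
    (f : E → ℂ) (hc : Continuous f)
    (hd : DifferentiableOn ℂ f (ball 0 1)) (hf : ∀ z, ‖z‖ < 1 → ‖f z‖ < 1)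
    {C α : ℝ} (hC : 0 ≤ C) (hα : 0 < α) (hα1 : α ≤ 1 / 2)
    (hL : ∀ z w, ‖z‖ ≤ 1 → ‖w‖ ≤ 1 → ‖f z - f w‖ ≤ C * ‖z - w‖ ^ α)
    {z ζ₀ : E} (hz : ‖z‖ < 1) (h0 : ‖ζ₀‖ = 1) (h1 : ‖f ζ₀‖ = 1)
    (hζ : ‖1 - ⟪z, ζ₀⟫_ℂ‖ ≤ 9 * (1 - ‖z‖ ^ 2)) :
    ∫ η, ‖f (mob z η) - f ζ₀‖ ^ (4 / 3 : ℝ) ∂σ ≤
      2 * ((16 * C + 4) ^ (4 / 3 : ℝ) * (18 * (1 - ‖z‖ ^ 2)) ^ (4 * α / 3)) := by
  have := hσ.prob
  have hD : 0 < 1 - ‖z‖ ^ 2 := by nlinarith [norm_nonneg z]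
  set D := 1 - ‖z‖ ^ 2 with hDdef
  have hpt : ∀ᵐ η ∂σ, ‖f (mob z η) - f ζ₀‖ ^ (4 / 3 : ℝ) ≤
      ((16 * C + 4) ^ (4 / 3 : ℝ) * (18 * D) ^ (4 * α / 3)) * ‖1 + ⟪z, η⟫_ℂ‖ ^ (-(4 * α / 3)) := by
    filter_upwards [ae_inner_ne σ hσ hz.le, ae_norm_mob_one σ hσ hz.le] with η hη hm
    have h2 := lip_boundary f hc.continuousOn hd hf hC hα (by linarith) hL h0 h1 hm
    have h3 := dist_bound hz h0 hη.1 hζ
    have hw : 0 < ‖1 + ⟪z, η⟫_ℂ‖ := norm_pos_iff.2 hη.2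
    have h4 : ‖1 - ⟪ζ₀, mob z η⟫_ℂ‖ ^ α ≤ (18 * D / ‖1 + ⟪z, η⟫_ℂ‖) ^ α := by
      apply Real.rpow_le_rpow (norm_nonneg _) _ hα.le
      refine h3.trans (le_of_eq ?_)
      rw [hDdef]; ring
    have h5 : ‖f (mob z η) - f ζ₀‖ ≤ (16 * C + 4) * (18 * D / ‖1 + ⟪z, η⟫_ℂ‖) ^ α :=
      h2.trans (mul_le_mul_of_nonneg_left h4 (by positivity))
    calc ‖f (mob z η) - f ζ₀‖ ^ (4 / 3 : ℝ)
        ≤ ((16 * C + 4) * (18 * D / ‖1 + ⟪z, η⟫_ℂ‖) ^ α) ^ (4 / 3 : ℝ) :=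
          Real.rpow_le_rpow (norm_nonneg _) h5 (by norm_num)
      _ = ((16 * C + 4) ^ (4 / 3 : ℝ) * (18 * D) ^ (4 * α / 3)) * ‖1 + ⟪z, η⟫_ℂ‖ ^ (-(4 * α / 3)) := by
          rw [Real.mul_rpow (by positivity) (by positivity), ← Real.rpow_mul (by positivity),
            show α * (4 / 3) = 4 * α / 3 by ring, Real.div_rpow (by positivity) hw.le,
            Real.rpow_neg hw.le]
          ring
  have hint := lp_int_pow σ hσ hz (q := 4 * α / 3) (by positivity)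
  have hX : Integrable (fun η => ‖f (mob z η) - f ζ₀‖ ^ (4 / 3 : ℝ)) σ := by
    refine (hint.const_mul ((16 * C + 4) ^ (4 / 3 : ℝ) * (18 * D) ^ (4 * α / 3))).mono' ?_ ?_
    · have : Measurable (fun η => ‖f (mob z η) - f ζ₀‖) :=
        (((hc.measurable.comp (lp_meas z)).sub_const (f ζ₀))).norm
      exact (this.pow_const _).aestronglyMeasurable
    · filter_upwards [hpt] with η hη
      rw [Real.norm_of_nonneg (by positivity)]
      exact hη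
  have h6 := integral_mono_ae hX (hint.const_mul _) hpt
  rw [integral_const_mul] at h6
  have h7 := pow_mean σ hσ hz (q := 4 * α / 3) (by positivity) (by linarith)
  have h8 : (1 / 2 : ℝ) ≤ Real.cos (4 * α / 3 * (Real.pi / 2)) := by
    rw [← Real.cos_pi_div_three]
    apply Real.cos_le_cos_of_nonneg_of_le_pi
    · positivity
    · linarith [Real.pi_pos]
    · nlinarith [Real.pi_pos]
  have h9 : (Real.cos (4 * α / 3 * (Real.pi / 2)))⁻¹ ≤ 2 := by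
    rw [inv_le_comm₀ (by linarith) (by norm_num)]
    linarith
  refine h6.trans ?_
  rw [mul_comm (2 : ℝ)]
  apply mul_le_mul_of_nonneg_left (h7.trans h9) (by positivity)

theorem lp_norm_le_one (f : E → ℂ) (hc : Continuous f) (hf : ∀ z, ‖z‖ < 1 → ‖f z‖ < 1) {z : E}
    (hz : ‖z‖ ≤ 1) : ‖f z‖ ≤ 1 := by
  have h1 : closedBall (0:E) 1 ⊆ {z | ‖f z‖ ≤ 1} := by
    rw [← closure_ball (0:E) one_ne_zero]
    apply closure_minimal
    · intro w hw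
      rw [mem_ball_zero_iff] at hw
      exact (hf w hw).le
    · exact isClosed_le hc.norm continuous_const
  exact h1 (mem_closedBall_zero_iff.2 hz)

theorem lp_pt (f : E → ℂ) (hc : Continuous f) (hf : ∀ z, ‖z‖ < 1 → ‖f z‖ < 1)
    {C α : ℝ} (hC : 0 ≤ C) (hα : 0 < α)
    (hL : ∀ z w, ‖z‖ ≤ 1 → ‖w‖ ≤ 1 → ‖f z - f w‖ ≤ C * ‖z - w‖ ^ α)
    (hne : (UM f).Nonempty) {j : ℝ} (hj : 0 < j) {c : ℂ} (hc1 : ‖c‖ = 1) {ζ : E} (hζ : ‖ζ‖ = 1) :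
    1 - ‖f ζ‖ ^ 2 ≤ 2 * (gc (UM f) j ζ * ‖f ζ - c‖) + 2 * C * j ^ (-α) := by
  have h1 : ‖f ζ‖ ≤ 1 := lp_norm_le_one f hc hf hζ.le
  have h0 := norm_nonneg (f ζ)
  have h2 : 1 - ‖f ζ‖ ^ 2 ≤ 2 * (1 - ‖f ζ‖) := by nlinarith
  have hjα : 0 ≤ j ^ (-α) := by positivity
  rcases (gc_le_one (UM f) j ζ).eq_or_lt with hg | hg
  · rw [hg, one_mul]
    have h3 : ‖c‖ - ‖f ζ‖ ≤ ‖f ζ - c‖ := by
      rw [norm_sub_rev]; exact norm_sub_norm_le _ _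
    rw [hc1] at h3
    have : 0 ≤ 2 * C * j ^ (-α) := by positivity
    linarith
  · have hg' : j * infDist ζ (UM f) < 1 := by
      unfold gc at hg
      rcases min_lt_iff.1 hg with h | h
      · exact absurd h (lt_irrefl _)
      · exact h
    have h4 : infDist ζ (UM f) < 1 / j := by
      rw [lt_div_iff₀ hj]; linarith
    obtain ⟨ζ', hζ', hdist⟩ := (infDist_lt_iff hne).1 h4
    have h5 := hL ζ' ζ hζ'.1.le hζ.le
    have h6 : ‖ζ' - ζ‖ ^ α ≤ j ^ (-α) := by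
      have h7 : ‖ζ' - ζ‖ ≤ j⁻¹ := by
        rw [dist_comm, dist_eq_norm] at hdist
        rw [← one_div]; exact hdist.le
      calc ‖ζ' - ζ‖ ^ α ≤ (j⁻¹) ^ α := Real.rpow_le_rpow (norm_nonneg _) h7 hα.le
        _ = j ^ (-α) := by rw [Real.inv_rpow hj.le, Real.rpow_neg hj.le]
    have h8 : ‖f ζ'‖ - ‖f ζ‖ ≤ ‖f ζ' - f ζ‖ := norm_sub_norm_le _ _
    rw [hζ'.2] at h8
    have h9 : C * ‖ζ' - ζ‖ ^ α ≤ C * j ^ (-α) := mul_le_mul_of_nonneg_left h6 hC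
    have h10 : 0 ≤ gc (UM f) j ζ * ‖f ζ - c‖ := mul_nonneg (gc_nonneg _ hj.le _) (norm_nonneg _)
    linarith

theorem lp_re (c w : ℂ) (hc : ‖c‖ = 1) :
    2 * (1 - conj c * w).re = (1 - ‖w‖ ^ 2) + ‖w - c‖ ^ 2 := by
  have h1 : ‖c‖ ^ 2 = 1 := by rw [hc]; norm_num
  rw [Complex.sq_norm, Complex.normSq_apply] at h1
  rw [Complex.sq_norm, Complex.sq_norm, Complex.normSq_apply, Complex.normSq_apply]
  simp only [Complex.sub_re, Complex.one_re, Complex.mul_re, Complex.conj_re, Complex.conj_im,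
    Complex.sub_im]
  linear_combination (-1 : ℝ) * h1

theorem lp_main (σ : Measure E) (hσ : IsSph σ)
    (f : E → ℂ) (hc : Continuous f)
    (hd : DifferentiableOn ℂ f (ball 0 1)) (hf : ∀ z, ‖z‖ < 1 → ‖f z‖ < 1)
    {C α : ℝ} (hC : 0 ≤ C) (hα : 0 < α)
    (hL : ∀ z w, ‖z‖ ≤ 1 → ‖w‖ ≤ 1 → ‖f z - f w‖ ≤ C * ‖z - w‖ ^ α)
    (hne : (UM f).Nonempty) {j : ℝ} (hj : 0 < j) {z : E} (hz : ‖z‖ < 1) {c : ℂ} (hc1 : ‖c‖ = 1) :
    1 - ‖f z‖ ^ 2 ≤ 2 * ∫ η, gc (UM f) j (mob z η) * ‖f (mob z η) - c‖ ∂σ + 2 * C * j ^ (-α)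
      + ∫ η, ‖f (mob z η) - c‖ ^ 2 ∂σ := by
  have := hσ.prob
  have hXm : Measurable (fun η => ‖f (mob z η) - c‖) :=
    (((hc.measurable.comp (lp_meas z)).sub_const c)).norm
  have hGm : Measurable (fun η => gc (UM f) j (mob z η)) := (gc_cont (UM f) j).measurable.comp (lp_meas z)
  have hX2 : ∀ᵐ η ∂σ, ‖f (mob z η) - c‖ ≤ 2 := by
    filter_upwards [ae_norm_mob_one σ hσ hz.le] with η hη
    have h1 := lp_norm_le_one f hc hf hη.le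
    calc ‖f (mob z η) - c‖ ≤ ‖f (mob z η)‖ + ‖c‖ := norm_sub_le _ _
      _ ≤ 2 := by rw [hc1]; linarith
  have hGX : Integrable (fun η => gc (UM f) j (mob z η) * ‖f (mob z η) - c‖) σ := by
    refine (MemLp.of_bound (p := 1) (C := 2) (hGm.mul hXm).aestronglyMeasurable ?_).integrable le_rfl
    filter_upwards [hX2] with η hη
    show ‖gc (UM f) j (mob z η) * ‖f (mob z η) - c‖‖ ≤ 2
    rw [Real.norm_of_nonneg (mul_nonneg (gc_nonneg _ hj.le _) (norm_nonneg _))]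
    calc gc (UM f) j (mob z η) * ‖f (mob z η) - c‖ ≤ 1 * 2 :=
          mul_le_mul (gc_le_one _ _ _) hη (norm_nonneg _) zero_le_one
      _ = 2 := by norm_num
  have hXX : Integrable (fun η => ‖f (mob z η) - c‖ ^ 2) σ := by
    refine (MemLp.of_bound (p := 1) (C := 4) (hXm.pow_const 2).aestronglyMeasurable ?_).integrable le_rfl
    filter_upwards [hX2] with η hη
    rw [Real.norm_of_nonneg (by positivity)]
    nlinarith [norm_nonneg (f (mob z η) - c)]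
  have hfi : Integrable (fun η => f (mob z η)) σ := HH_integrable σ hσ f hc.continuousOn hz.le
  have hi1 : Integrable (fun η => (1 : ℂ) - conj c * f (mob z η)) σ :=
    (integrable_const (1 : ℂ)).sub (hfi.const_mul _)
  have h1 : ∫ η, ((1 : ℂ) - conj c * f (mob z η)) ∂σ = 1 - conj c * f z := by
    rw [integral_sub (integrable_const (1 : ℂ)) (hfi.const_mul _), integral_const_mul]
    have h2 : ∫ η, f (mob z η) ∂σ = f z := HH_holo σ hσ f hc.continuousOn hd hz.le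
    rw [h2]
    simp
  have h3 : ∫ η, ((1 : ℂ) - conj c * f (mob z η)).re ∂σ = (1 - conj c * f z).re := by
    have := Complex.reCLM.integral_comp_comm hi1
    rw [h1] at this
    exact this
  have h4 : 1 - ‖f z‖ ^ 2 ≤ 2 * (1 - conj c * f z).re := by
    rw [lp_re c (f z) hc1]
    have : 0 ≤ ‖f z - c‖ ^ 2 := by positivity
    linarith
  refine h4.trans ?_
  rw [← h3, ← integral_const_mul]
  have h5 : ∫ η, 2 * ((1 : ℂ) - conj c * f (mob z η)).re ∂σ ≤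
      ∫ η, (2 * (gc (UM f) j (mob z η) * ‖f (mob z η) - c‖) + 2 * C * j ^ (-α) + ‖f (mob z η) - c‖ ^ 2) ∂σ := by
    apply integral_mono_ae
    · exact (hi1.re).const_mul 2
    · exact ((hGX.const_mul 2).add (integrable_const _)).add hXX
    · filter_upwards [ae_norm_mob_one σ hσ hz.le] with η hη
      rw [lp_re c _ hc1]
      have := lp_pt f hc hf hC hα hL hne hj hc1 hη
      linarith
  refine h5.trans (le_of_eq ?_)
  have e1 := integral_add (μ := σ)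
    (f := fun η => 2 * (gc (UM f) j (mob z η) * ‖f (mob z η) - c‖) + 2 * C * j ^ (-α))
    (g := fun η => ‖f (mob z η) - c‖ ^ 2) ((hGX.const_mul 2).add (integrable_const _)) hXX
  have e2 := integral_add (μ := σ)
    (f := fun η => 2 * (gc (UM f) j (mob z η) * ‖f (mob z η) - c‖))
    (g := fun _ => 2 * C * j ^ (-α)) (hGX.const_mul 2) (integrable_const _)
  rw [e1, e2, integral_const_mul]
  simp

theorem lp_holder (σ : Measure E) (hσ : IsSph σ)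
    (f : E → ℂ) (hc : Continuous f) (hf : ∀ z, ‖z‖ < 1 → ‖f z‖ < 1)
    (A : Set E) {j : ℝ} (hj : 0 < j) {z : E} (hz : ‖z‖ < 1) {c : ℂ} (hc1 : ‖c‖ = 1) :
    ∫ η, gc A j (mob z η) * ‖f (mob z η) - c‖ ∂σ ≤
      (PP σ (gc A j) z) ^ (1 / 4 : ℝ) * (∫ η, ‖f (mob z η) - c‖ ^ (4 / 3 : ℝ) ∂σ) ^ (3 / 4 : ℝ) := by
  have := hσ.prob
  have hXm : Measurable (fun η => ‖f (mob z η) - c‖) :=
    (((hc.measurable.comp (lp_meas z)).sub_const c)).norm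
  have hGm : Measurable (fun η => gc A j (mob z η)) := (gc_cont A j).measurable.comp (lp_meas z)
  have hX2 : ∀ᵐ η ∂σ, ‖f (mob z η) - c‖ ≤ 2 := by
    filter_upwards [ae_norm_mob_one σ hσ hz.le] with η hη
    have h1 := lp_norm_le_one f hc hf hη.le
    calc ‖f (mob z η) - c‖ ≤ ‖f (mob z η)‖ + ‖c‖ := norm_sub_le _ _
      _ ≤ 2 := by rw [hc1]; linarith
  have hpq : (4 : ℝ).HolderConjugate (4 / 3) := by
    rw [Real.holderConjugate_iff]; norm_num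
  have h1 := integral_mul_le_Lp_mul_Lq_of_nonneg (μ := σ) hpq
    (f := fun η => gc A j (mob z η)) (g := fun η => ‖f (mob z η) - c‖)
    (Eventually.of_forall (fun η => gc_nonneg A hj.le _)) (Eventually.of_forall (fun η => norm_nonneg _))
    (MemLp.of_bound (C := 1) hGm.aestronglyMeasurable (Eventually.of_forall (fun η => by
      show ‖gc A j (mob z η)‖ ≤ 1
      rw [Real.norm_of_nonneg (gc_nonneg A hj.le _)]
      exact gc_le_one A j _)))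
    (MemLp.of_bound (C := 2) hXm.aestronglyMeasurable (hX2.mono (fun η hη => by
      rw [Real.norm_of_nonneg (norm_nonneg _)]; exact hη)))
  have h2 : ∫ η, gc A j (mob z η) ^ (4 : ℝ) ∂σ ≤ PP σ (gc A j) z := by
    apply integral_mono_of_nonneg
    · exact Eventually.of_forall (fun η => Real.rpow_nonneg (gc_nonneg A hj.le _) _)
    · exact gc_int σ hσ A hj.le z
    · refine Eventually.of_forall (fun η => ?_)
      have h3 := gc_nonneg A hj.le (mob z η)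
      have h4 := gc_le_one A j (mob z η)
      show gc A j (mob z η) ^ (4 : ℝ) ≤ gc A j (mob z η)
      calc gc A j (mob z η) ^ (4 : ℝ) ≤ gc A j (mob z η) ^ (1 : ℝ) :=
            Real.rpow_le_rpow_of_exponent_ge_of_imp h3 h4 (by norm_num) (by intro _ h; norm_num at h)
        _ = gc A j (mob z η) := Real.rpow_one _
  have h0 : 0 ≤ ∫ η, gc A j (mob z η) ^ (4 : ℝ) ∂σ :=
    integral_nonneg (fun η => Real.rpow_nonneg (gc_nonneg A hj.le _) _)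
  have hx0 : 0 ≤ ∫ η, ‖f (mob z η) - c‖ ^ (4 / 3 : ℝ) ∂σ :=
    integral_nonneg (fun η => Real.rpow_nonneg (norm_nonneg _) _)
  refine h1.trans ?_
  rw [show (1 : ℝ) / (4 / 3) = 3 / 4 by norm_num]
  apply mul_le_mul_of_nonneg_right _ (by positivity)
  exact Real.rpow_le_rpow h0 h2 (by norm_num)

theorem lp_sq (σ : Measure E) (hσ : IsSph σ)
    (f : E → ℂ) (hc : Continuous f) (hf : ∀ z, ‖z‖ < 1 → ‖f z‖ < 1)
    {z : E} (hz : ‖z‖ < 1) {c : ℂ} (hc1 : ‖c‖ = 1) :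
    ∫ η, ‖f (mob z η) - c‖ ^ 2 ∂σ ≤
      (2 : ℝ) ^ (2 / 3 : ℝ) * ∫ η, ‖f (mob z η) - c‖ ^ (4 / 3 : ℝ) ∂σ := by
  have := hσ.prob
  have hXm : Measurable (fun η => ‖f (mob z η) - c‖) :=
    (((hc.measurable.comp (lp_meas z)).sub_const c)).norm
  have hX2 : ∀ᵐ η ∂σ, ‖f (mob z η) - c‖ ≤ 2 := by
    filter_upwards [ae_norm_mob_one σ hσ hz.le] with η hη
    have h1 := lp_norm_le_one f hc hf hη.le
    calc ‖f (mob z η) - c‖ ≤ ‖f (mob z η)‖ + ‖c‖ := norm_sub_le _ _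
      _ ≤ 2 := by rw [hc1]; linarith
  have hX : Integrable (fun η => ‖f (mob z η) - c‖ ^ (4 / 3 : ℝ)) σ := by
    refine (MemLp.of_bound (p := 1) (C := (2 : ℝ) ^ (4 / 3 : ℝ)) (hXm.pow_const _).aestronglyMeasurable ?_).integrable le_rfl
    filter_upwards [hX2] with η hη
    rw [Real.norm_of_nonneg (by positivity)]
    exact Real.rpow_le_rpow (norm_nonneg _) hη (by norm_num)
  rw [← integral_const_mul]
  apply integral_mono_of_nonneg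
  · exact Eventually.of_forall (fun η => by positivity)
  · exact hX.const_mul _
  · filter_upwards [hX2] with η hη
    have h0 := norm_nonneg (f (mob z η) - c)
    calc ‖f (mob z η) - c‖ ^ 2 = ‖f (mob z η) - c‖ ^ (2 / 3 : ℝ) * ‖f (mob z η) - c‖ ^ (4 / 3 : ℝ) := by
          rw [← Real.rpow_add_of_nonneg h0 (by norm_num) (by norm_num)]
          rw [show (2 / 3 : ℝ) + 4 / 3 = (2 : ℕ) by norm_num, Real.rpow_natCast]
      _ ≤ (2 : ℝ) ^ (2 / 3 : ℝ) * ‖f (mob z η) - c‖ ^ (4 / 3 : ℝ) := by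
          apply mul_le_mul_of_nonneg_right _ (by positivity)
          exact Real.rpow_le_rpow h0 hη (by norm_num)

theorem master (σ : Measure E) (hσ : IsSph σ) (hdim : 2 ≤ Module.finrank ℂ E)
    (f : E → ℂ) (hc : ContinuousOn f (closedBall 0 1))
    (hd : DifferentiableOn ℂ f (ball 0 1)) (hf : ∀ z, ‖z‖ < 1 → ‖f z‖ < 1)
    {C α : ℝ} (hC : 0 ≤ C) (hα : 0 < α) (hα1 : α ≤ 1 / 2)
    (hL : ∀ z w, ‖z‖ ≤ 1 → ‖w‖ ≤ 1 → ‖f z - f w‖ ≤ C * ‖z - w‖ ^ α)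
    (hne : (UM f).Nonempty) :
    ∃ C' : ℝ, 0 < C' ∧ ∀ (j : ℝ) (z : E), ‖z‖ < 1 → 0 < j → 1 ≤ j * (1 - ‖z‖ ^ 2) →
      PP σ (gc (UM f) j) z ≤ 1 / 4 →
      1 - ‖f z‖ ^ 2 ≤ C' * (1 - ‖z‖ ^ 2) ^ α *
        ((PP σ (gc (UM f) j) z) ^ (1 / 4 : ℝ) + (1 - ‖z‖ ^ 2) ^ (α / 3)
          + (j * (1 - ‖z‖ ^ 2)) ^ (-α)) := by
  obtain ⟨F, hFc, hFe⟩ := exists_ext f hc
  have hUM : UM f = UM F := by
    ext ζ
    constructor
    · rintro ⟨h1, h2⟩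
      exact ⟨h1, by rw [hFe ζ h1.le]; exact h2⟩
    · rintro ⟨h1, h2⟩
      exact ⟨h1, by rw [← hFe ζ h1.le]; exact h2⟩
  have hdF : DifferentiableOn ℂ F (ball 0 1) := by
    refine hd.congr (fun z hz => ?_)
    rw [mem_ball_zero_iff] at hz
    exact hFe z hz.le
  have hfF : ∀ z, ‖z‖ < 1 → ‖F z‖ < 1 := fun z hz => by rw [hFe z hz.le]; exact hf z hz
  have hLF : ∀ z w, ‖z‖ ≤ 1 → ‖w‖ ≤ 1 → ‖F z - F w‖ ≤ C * ‖z - w‖ ^ α := fun z w hz hw => by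
    rw [hFe z hz, hFe w hw]; exact hL z w hz hw
  rw [hUM] at hne ⊢
  set B : ℝ := 16 * C + 4 with hB
  have hB0 : 0 ≤ B := by positivity
  set M1 : ℝ := 2 * ((2 : ℝ) ^ (3 / 4 : ℝ) * (B * (18 : ℝ) ^ α)) with hM1
  set M3 : ℝ := (2 : ℝ) ^ (2 / 3 : ℝ) * (2 * (B ^ (4 / 3 : ℝ) * (18 : ℝ) ^ (4 * α / 3))) with hM3
  have hM10 : 0 ≤ M1 := by positivity
  have hM30 : 0 ≤ M3 := by positivity
  refine ⟨M1 + 2 * C + M3 + 1, by positivity, ?_⟩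
  intro j z hz hj hjD hP
  have hD : 0 < 1 - ‖z‖ ^ 2 := by nlinarith [norm_nonneg z]
  obtain ⟨ζ₀, hζ₀, hζ1⟩ := lp_step1 σ hσ hdim (UM F) hne hz hj hjD hP
  have h2 := lp_step2 σ hσ F hFc hdF hfF hC hα hα1 hLF hz hζ₀.1 hζ₀.2 hζ1
  have h3 := lp_main σ hσ F hFc hdF hfF hC hα hLF hne hj hz (c := F ζ₀) hζ₀.2
  have h4 := lp_holder σ hσ F hFc hfF (UM F) hj hz (c := F ζ₀) hζ₀.2
  have h5 := lp_sq σ hσ F hFc hfF hz (c := F ζ₀) hζ₀.2
  rw [← hFe z hz.le]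
  set D : ℝ := 1 - ‖z‖ ^ 2 with hDdef
  set hh : ℝ := PP σ (gc (UM F) j) z with hhdef
  have hh0 : 0 ≤ hh := integral_nonneg (fun η => gc_nonneg _ hj.le _)
  set I : ℝ := ∫ η, ‖F (mob z η) - F ζ₀‖ ^ (4 / 3 : ℝ) ∂σ with hI
  have hI0 : 0 ≤ I := integral_nonneg (fun η => Real.rpow_nonneg (norm_nonneg _) _)
  have e1 : (2 * (B ^ (4 / 3 : ℝ) * (18 * D) ^ (4 * α / 3))) ^ (3 / 4 : ℝ)
      = (2 : ℝ) ^ (3 / 4 : ℝ) * (B * ((18 : ℝ) ^ α * D ^ α)) := by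
    rw [Real.mul_rpow (by norm_num) (by positivity), Real.mul_rpow (by positivity) (by positivity),
      ← Real.rpow_mul hB0, ← Real.rpow_mul (by positivity)]
    rw [show (4 / 3 : ℝ) * (3 / 4) = 1 by norm_num, Real.rpow_one,
      show 4 * α / 3 * (3 / 4) = α by ring, Real.mul_rpow (by norm_num) hD.le]
  have e2 : (18 * D) ^ (4 * α / 3) = (18 : ℝ) ^ (4 * α / 3) * (D ^ α * D ^ (α / 3)) := by
    rw [Real.mul_rpow (by norm_num) hD.le, ← Real.rpow_add hD]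
    congr 2
    ring
  have e3 : j ^ (-α) = D ^ α * (j * D) ^ (-α) := by
    rw [Real.mul_rpow hj.le hD.le, Real.rpow_neg hD.le]
    have : D ^ α ≠ 0 := (Real.rpow_pos_of_pos hD α).ne'
    field_simp
  have h6 : I ^ (3 / 4 : ℝ) ≤ (2 : ℝ) ^ (3 / 4 : ℝ) * (B * ((18 : ℝ) ^ α * D ^ α)) := by
    rw [← e1]
    exact Real.rpow_le_rpow hI0 h2 (by norm_num)
  have hT : 0 ≤ D ^ α := by positivity
  have hPp : 0 ≤ hh ^ (1 / 4 : ℝ) := by positivity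
  have hQ : 0 ≤ D ^ (α / 3) := by positivity
  have hS : 0 ≤ (j * D) ^ (-α) := by positivity
  have h7 : 1 - ‖F z‖ ^ 2 ≤ 2 * (hh ^ (1 / 4 : ℝ) * ((2 : ℝ) ^ (3 / 4 : ℝ) * (B * ((18 : ℝ) ^ α * D ^ α))))
      + 2 * C * (D ^ α * (j * D) ^ (-α))
      + (2 : ℝ) ^ (2 / 3 : ℝ) * (2 * (B ^ (4 / 3 : ℝ) * ((18 : ℝ) ^ (4 * α / 3) * (D ^ α * D ^ (α / 3))))) := by
    rw [← e2, ← e3]
    have h8 := h4.trans (mul_le_mul_of_nonneg_left h6 hPp)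
    have h9 := h5.trans (mul_le_mul_of_nonneg_left h2 (by positivity : (0 : ℝ) ≤ (2 : ℝ) ^ (2 / 3 : ℝ)))
    linarith
  refine h7.trans ?_
  have h10 : (M1 + 2 * C + M3 + 1) * D ^ α * (hh ^ (1 / 4 : ℝ) + D ^ (α / 3) + (j * D) ^ (-α))
      - (M1 * (D ^ α * hh ^ (1 / 4 : ℝ)) + 2 * C * (D ^ α * (j * D) ^ (-α)) + M3 * (D ^ α * D ^ (α / 3)))
      = D ^ α * ((2 * C + M3 + 1) * hh ^ (1 / 4 : ℝ) + (M1 + 2 * C + 1) * D ^ (α / 3)
        + (M1 + M3 + 1) * (j * D) ^ (-α)) := by ring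
  have h11 : 0 ≤ D ^ α * ((2 * C + M3 + 1) * hh ^ (1 / 4 : ℝ) + (M1 + 2 * C + 1) * D ^ (α / 3)
        + (M1 + M3 + 1) * (j * D) ^ (-α)) := by positivity
  have h12 : 2 * (hh ^ (1 / 4 : ℝ) * ((2 : ℝ) ^ (3 / 4 : ℝ) * (B * ((18 : ℝ) ^ α * D ^ α))))
      + 2 * C * (D ^ α * (j * D) ^ (-α))
      + (2 : ℝ) ^ (2 / 3 : ℝ) * (2 * (B ^ (4 / 3 : ℝ) * ((18 : ℝ) ^ (4 * α / 3) * (D ^ α * D ^ (α / 3)))))
      = M1 * (D ^ α * hh ^ (1 / 4 : ℝ)) + 2 * C * (D ^ α * (j * D) ^ (-α)) + M3 * (D ^ α * D ^ (α / 3)) := by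
    rw [hM1, hM3]; ring
  rw [h12]
  linarith


end LP

end Pool.Agent.Helper287.MB.LPE

namespace Pool.Agent.Helper287.MB
alias master := LPE.master
end Pool.Agent.Helper287.MB
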