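import Pool.Agent.Helper287.LP.Defs
set_option autoImplicit false
open MeasureTheory Metric Set Filter Topology
open scoped InnerProductSpace ComplexConjugate

namespace Pool.Agent.Helper287.MB.LPF


section LP
variable {E : Type} [NormedAddCommGroup E] [InnerProductSpace ℂ E] [FiniteDimensional ℂ E]
  [MeasurableSpace E] [BorelSpace E]


omit [InnerProductSpace ℂ E] [FiniteDimensional ℂ E] [MeasurableSpace E] [BorelSpace E] in
theorem auxLP_cont (A : Set E) (j : ℝ) : Continuous (gc A j) := by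
  unfold gc
  exact continuous_const.min ((continuous_infDist_pt A).const_mul j |>.congr (fun _ => rfl))

omit [InnerProductSpace ℂ E] [FiniteDimensional ℂ E] [MeasurableSpace E] [BorelSpace E] in
theorem auxLP_nonneg (A : Set E) {j : ℝ} (hj : 0 ≤ j) (ζ : E) : 0 ≤ gc A j ζ :=
  le_min zero_le_one (mul_nonneg hj infDist_nonneg)

omit [InnerProductSpace ℂ E] [FiniteDimensional ℂ E] [MeasurableSpace E] [BorelSpace E] in
theorem auxLP_le_one (A : Set E) (j : ℝ) (ζ : E) : gc A j ζ ≤ 1 := min_le_left _ _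

omit [InnerProductSpace ℂ E] [FiniteDimensional ℂ E] [MeasurableSpace E] [BorelSpace E] in
theorem auxLP_mono (A : Set E) {j k : ℝ} (h : j ≤ k) (ζ : E) : gc A j ζ ≤ gc A k ζ :=
  min_le_min_left _ (mul_le_mul_of_nonneg_right h infDist_nonneg)

omit [InnerProductSpace ℂ E] [FiniteDimensional ℂ E] [MeasurableSpace E] [BorelSpace E] in
theorem auxLP_zero (A : Set E) (j : ℝ) {ζ : E} (h : ζ ∈ A) : gc A j ζ = 0 := by
  unfold gc
  rw [infDist_zero_of_mem h, mul_zero]
  exact min_eq_right zero_le_one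

omit [InnerProductSpace ℂ E] [FiniteDimensional ℂ E] [MeasurableSpace E] [BorelSpace E] in
theorem auxLP_tendsto (A : Set E) (hA : IsClosed A) (hne : A.Nonempty) (ζ : E) :
    Tendsto (fun n : ℕ => gc A ((n : ℝ) + 1) ζ) atTop (𝓝 (Aᶜ.indicator (fun _ => (1 : ℝ)) ζ)) := by
  by_cases h : ζ ∈ A
  · rw [Set.indicator_of_notMem (by simpa using h)]
    refine tendsto_const_nhds.congr (fun n => ?_)
    rw [auxLP_zero A _ h]
  · rw [Set.indicator_of_mem (by simpa using h)]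
    have hpos : 0 < infDist ζ A := (hA.notMem_iff_infDist_pos hne).mp h
    have h1 : Tendsto (fun n : ℕ => ((n : ℝ) + 1) * infDist ζ A) atTop atTop :=
      (tendsto_atTop_add_const_right _ _ tendsto_natCast_atTop_atTop).atTop_mul_const hpos
    refine tendsto_const_nhds.congr' ?_
    filter_upwards [h1.eventually_ge_atTop 1] with n hn
    unfold gc
    exact (min_eq_left hn).symm

theorem auxLP_PP (σ : Measure E) (g : E → ℝ) (z : E) :
    ((PP σ g z : ℝ) : ℂ) = HH σ (fun w => (g w : ℂ)) z := by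
  unfold PP HH
  exact integral_ofReal.symm

theorem auxLP_int (σ : Measure E) (hσ : IsSph σ) (g : E → ℝ) (hg : Continuous g) {z : E}
    (hz : ‖z‖ ≤ 1) : Integrable (fun ζ => g (mob z ζ)) σ := by
  have h := HH_integrable σ hσ (fun w => (g w : ℂ))
    (Complex.continuous_ofReal.comp hg).continuousOn hz
  exact h.re

theorem auxLP_PPmono (σ : Measure E) (hσ : IsSph σ) (g h : E → ℝ) (hg : Continuous g)
    (hh : Continuous h) (hgh : ∀ w, g w ≤ h w) {z : E} (hz : ‖z‖ ≤ 1) :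
    PP σ g z ≤ PP σ h z :=
  integral_mono (auxLP_int σ hσ g hg hz) (auxLP_int σ hσ h hh hz) (fun w => hgh _)

theorem auxLP_norm (σ : Measure E) (hσ : IsSph σ) {r : ℝ} (hr0 : 0 ≤ r) (hr1 : r < 1) :
    ∀ᵐ ζ ∂σ, ‖(r : ℂ) • ζ‖ ≤ 1 := by
  filter_upwards [hσ.supp] with ζ hζ
  rw [norm_smul, hζ, mul_one, Complex.norm_real, Real.norm_of_nonneg hr0]
  exact hr1.le

theorem auxLP_PPint (σ : Measure E) (hσ : IsSph σ) (g : E → ℝ) (hg : Continuous g)
    {r : ℝ} (hr0 : 0 ≤ r) (hr1 : r < 1) : Integrable (fun ζ => PP σ g ((r : ℂ) • ζ)) σ := by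
  have hc := (Complex.continuous_ofReal.comp hg).continuousOn (s := closedBall (0 : E) 1)
  have h := TT_integrable σ hσ (HH σ (fun w => (g w : ℂ))) (HH_cont σ hσ _ hc) hr0 hr1
    (z := (0 : E)) (by simp)
  simp only [mob_zero_left, ← auxLP_PP] at h
  exact h.re

theorem auxLP_mean (σ : Measure E) (hσ : IsSph σ) [Nontrivial E] (g : E → ℝ) (hg : Continuous g)
    {r : ℝ} (hr0 : 0 ≤ r) (hr1 : r < 1) : ∫ ζ, PP σ g ((r : ℂ) • ζ) ∂σ = ∫ ζ, g ζ ∂σ := by
  have hc := (Complex.continuous_ofReal.comp hg).continuousOn (s := closedBall (0 : E) 1)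
  have h := TT_HH σ hσ (fun w => (g w : ℂ)) hc hr0 hr1 (z := (0 : E)) (by simp)
  rw [HH_zero_eq] at h
  unfold TT at h
  simp only [mob_zero_left, ← auxLP_PP] at h
  rw [integral_complex_ofReal, integral_complex_ofReal] at h
  exact_mod_cast h

theorem limE (σ : Measure E) (hσ : IsSph σ) [Nontrivial E] (A : Set E) (hA : IsClosed A)
    (hAs : A ⊆ sphere 0 1) {ε : ℝ} (hε : 0 < ε) :
    ∃ r₀ : ℝ, 0 ≤ r₀ ∧ r₀ < 1 ∧ ∀ r : ℝ, r₀ < r → r < 1 → ∀ j : ℝ, 0 < j →
      ∫ ζ in A, PP σ (gc A j) ((r:ℂ) • ζ) ∂σ ≤ ε := by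
  have := hσ.prob
  rcases A.eq_empty_or_nonempty with rfl | hne
  · refine ⟨0, le_rfl, zero_lt_one, fun r _ _ j _ => ?_⟩
    rw [Measure.restrict_empty, integral_zero_measure]
    exact hε.le
  have hAm := hA.measurableSet
  have hgi : ∀ j, 0 ≤ j → Integrable (gc A j) σ := by
    intro j hj
    refine (integrable_const (1 : ℝ)).mono' (auxLP_cont A j).aestronglyMeasurable
      (ae_of_all _ (fun ζ => ?_))
    rw [Real.norm_of_nonneg (auxLP_nonneg A hj ζ)]
    exact auxLP_le_one A j ζ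
  have hlim : Tendsto (fun n : ℕ => ∫ ζ, gc A ((n : ℝ) + 1) ζ ∂σ) atTop
      (𝓝 (∫ ζ, Aᶜ.indicator (fun _ => (1 : ℝ)) ζ ∂σ)) := by
    refine tendsto_integral_of_dominated_convergence (fun _ => (1 : ℝ))
      (fun n => (auxLP_cont A _).aestronglyMeasurable) (integrable_const _) (fun n => ?_)
      (ae_of_all _ (fun ζ => auxLP_tendsto A hA hne ζ))
    refine ae_of_all _ (fun ζ => ?_)
    rw [Real.norm_of_nonneg (auxLP_nonneg A (by positivity) ζ)]
    exact auxLP_le_one A _ ζ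
  obtain ⟨n, hn⟩ := (hlim.eventually (lt_mem_nhds (show ∫ ζ, Aᶜ.indicator (fun _ => (1 : ℝ)) ζ ∂σ
    - ε / 2 < ∫ ζ, Aᶜ.indicator (fun _ => (1 : ℝ)) ζ ∂σ by linarith))).exists
  set J : ℝ := (n : ℝ) + 1 with hJ
  have hJ0 : 0 < J := by positivity
  have hle : ∀ j, 0 ≤ j → ∫ ζ, gc A j ζ ∂σ ≤ ∫ ζ, Aᶜ.indicator (fun _ => (1 : ℝ)) ζ ∂σ := by
    intro j hj
    apply integral_mono (hgi j hj) ((integrable_const (1 : ℝ)).indicator hAm.compl)
    intro ζ
    by_cases h : ζ ∈ A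
    · show gc A j ζ ≤ _
      rw [auxLP_zero A _ h, Set.indicator_of_notMem (by simpa using h)]
    · show gc A j ζ ≤ _
      rw [Set.indicator_of_mem (by simpa using h)]
      exact auxLP_le_one A _ ζ
  -- uniform continuity
  have hc := (Complex.continuous_ofReal.comp (auxLP_cont A J)).continuousOn
    (s := closedBall (0 : E) 1)
  have : ProperSpace E := FiniteDimensional.proper ℂ E
  have huc := (isCompact_closedBall (0 : E) 1).uniformContinuousOn_of_continuous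
    (HH_cont σ hσ (fun w => (gc A J w : ℂ)) hc)
  rw [Metric.uniformContinuousOn_iff] at huc
  obtain ⟨δ, hδ, hδ'⟩ := huc (ε / 2) (half_pos hε)
  refine ⟨max 0 (1 - δ), le_max_left _ _, max_lt zero_lt_one (by linarith), ?_⟩
  intro r hr hr1 j hj
  have hr0 : 0 ≤ r := (le_max_left _ _).trans hr.le
  have hrδ : 1 - r < δ := by
    have := (le_max_right 0 (1 - δ)).trans_lt hr
    linarith
  have hsmall : ∀ ζ ∈ A, PP σ (gc A J) ((r : ℂ) • ζ) ≤ ε / 2 := by
    intro ζ hζ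
    have hn1 : ‖ζ‖ = 1 := by simpa using hAs hζ
    have hn2 : ‖(r : ℂ) • ζ‖ = r := by
      rw [norm_smul, hn1, mul_one, Complex.norm_real, Real.norm_of_nonneg hr0]
    have hd : dist ((r : ℂ) • ζ) ζ < δ := by
      rw [dist_eq_norm]
      have : (r : ℂ) • ζ - ζ = ((r - 1 : ℝ) : ℂ) • ζ := by
        push_cast
        rw [sub_smul, one_smul]
      rw [this, norm_smul, hn1, mul_one, Complex.norm_real, Real.norm_of_nonpos (by linarith)]
      linarith
    have h1 := hδ' _ (by rw [mem_closedBall_zero_iff, hn2]; exact hr1.le) _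
      (by rw [mem_closedBall_zero_iff, hn1]) hd
    rw [HH_bdry σ hσ _ hn1, auxLP_zero A J hζ, ← auxLP_PP, Complex.ofReal_zero,
      dist_zero_right, Complex.norm_real, Real.norm_eq_abs] at h1
    exact (le_abs_self _).trans h1.le
  -- the bound
  set k := max j J with hk
  have hk0 : 0 ≤ k := hj.le.trans (le_max_left _ _)
  have hPint : ∀ i, Integrable (fun ζ => PP σ (gc A i) ((r : ℂ) • ζ)) σ := fun i =>
    auxLP_PPint σ hσ _ (auxLP_cont A i) hr0 hr1
  have hnrm := auxLP_norm σ hσ hr0 hr1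
  have e1 : ∫ ζ in A, PP σ (gc A j) ((r:ℂ) • ζ) ∂σ ≤ ∫ ζ in A, PP σ (gc A k) ((r:ℂ) • ζ) ∂σ := by
    apply integral_mono_ae (hPint j).integrableOn (hPint k).integrableOn
    apply ae_restrict_of_ae
    filter_upwards [hnrm] with ζ hζ
    exact auxLP_PPmono σ hσ _ _ (auxLP_cont A j) (auxLP_cont A k)
      (auxLP_mono A (le_max_left _ _)) hζ
  have e2 : ∫ ζ in A, PP σ (gc A J) ((r:ℂ) • ζ) ∂σ ≤ ε / 2 := by
    have h1 : ∫ ζ in A, PP σ (gc A J) ((r:ℂ) • ζ) ∂σ ≤ ∫ ζ in A, (ε / 2 : ℝ) ∂σ := by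
      apply setIntegral_mono_on (hPint J).integrableOn integrableOn_const hAm
      exact hsmall
    have h2 : ∫ ζ in A, (ε / 2 : ℝ) ∂σ ≤ ε / 2 := by
      rw [setIntegral_const, smul_eq_mul]
      have : σ.real A ≤ 1 := measureReal_le_one
      have := mul_le_mul_of_nonneg_right this (half_pos hε).le
      linarith
    linarith
  have e3 : ∫ ζ in A, (PP σ (gc A k) ((r:ℂ) • ζ) - PP σ (gc A J) ((r:ℂ) • ζ)) ∂σ ≤
      ∫ ζ, (PP σ (gc A k) ((r:ℂ) • ζ) - PP σ (gc A J) ((r:ℂ) • ζ)) ∂σ := by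
    apply setIntegral_le_integral ((hPint k).sub (hPint J))
    filter_upwards [hnrm] with ζ hζ
    have := auxLP_PPmono σ hσ _ _ (auxLP_cont A J) (auxLP_cont A k)
      (auxLP_mono A (le_max_right j J)) hζ
    show (0 : ℝ) ≤ PP σ (gc A k) ((r:ℂ) • ζ) - PP σ (gc A J) ((r:ℂ) • ζ)
    exact sub_nonneg.mpr this
  have e4 : ∫ ζ, (PP σ (gc A k) ((r:ℂ) • ζ) - PP σ (gc A J) ((r:ℂ) • ζ)) ∂σ ≤ ε / 2 := by
    rw [integral_sub (hPint k) (hPint J), auxLP_mean σ hσ _ (auxLP_cont A k) hr0 hr1,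
      auxLP_mean σ hσ _ (auxLP_cont A J) hr0 hr1]
    have := hle k hk0
    linarith
  have e5 := integral_sub (hPint k).integrableOn (hPint J).integrableOn (μ := σ.restrict A)
  linarith

theorem pick_a (σ : Measure E) (hσ : IsSph σ) [Nontrivial E] (A : Set E) (hA : IsClosed A)
    (hAs : A ⊆ sphere 0 1) (hpos : 0 < σ A) {ε : ℝ} (hε : 0 < ε) :
    ∃ a : E, ‖a‖ < 1 ∧ (σ {ζ | mob a ζ ∉ A}).toReal ≤ ε := by
  have := hσ.prob
  have hne : A.Nonempty := by
    rcases A.eq_empty_or_nonempty with rfl | h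
    · simp at hpos
    · exact h
  have hAm := hA.measurableSet
  have hσA : 0 < σ.real A := by
    rw [measureReal_def]
    exact ENNReal.toReal_pos hpos.ne' (measure_ne_top _ _)
  obtain ⟨r₀, hr₀0, hr₀1, hr₀⟩ := limE σ hσ A hA hAs (ε := ε / 2 * σ.real A) (by positivity)
  set r := (r₀ + 1) / 2 with hr
  have hr0 : 0 ≤ r := by linarith
  have hr1 : r < 1 := by linarith
  have hrr : r₀ < r := by linarith
  have hb := hr₀ r hrr hr1
  have hPint : ∀ i, Integrable (fun ζ => PP σ (gc A i) ((r : ℂ) • ζ)) σ := fun i =>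
    auxLP_PPint σ hσ _ (auxLP_cont A i) hr0 hr1
  have hmm : ∀ z : E, Measurable (mob z) := fun z => C_meas_mob.comp measurable_prodMk_left
  have hlim : ∀ z : E, ‖z‖ ≤ 1 → Tendsto (fun n : ℕ => PP σ (gc A ((n : ℝ) + 1)) z) atTop
      (𝓝 ((σ {ζ | mob z ζ ∉ A}).toReal)) := by
    intro z hz
    have h1 : (σ {ζ | mob z ζ ∉ A}).toReal =
        ∫ ζ, Aᶜ.indicator (fun _ => (1 : ℝ)) (mob z ζ) ∂σ := by
      have h2 : (fun ζ => Aᶜ.indicator (fun _ => (1 : ℝ)) (mob z ζ)) =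
          {ζ | mob z ζ ∉ A}.indicator (fun _ => (1 : ℝ)) := by
        funext ζ
        by_cases h : mob z ζ ∈ A
        · rw [Set.indicator_of_notMem (by simpa using h), Set.indicator_of_notMem (by simpa using h)]
        · rw [Set.indicator_of_mem (by simpa using h), Set.indicator_of_mem (by simpa using h)]
      have hms : MeasurableSet {ζ | mob z ζ ∉ A} := (hmm z) hAm.compl
      have h3 := integral_indicator_const (μ := σ) (1 : ℝ) hms
      rw [smul_eq_mul, mul_one] at h3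
      rw [h2]
      exact h3.symm
    rw [h1]
    unfold PP
    refine tendsto_integral_of_dominated_convergence (fun _ => (1 : ℝ))
      (fun n => ((auxLP_cont A _).measurable.comp (hmm z)).aestronglyMeasurable)
      (integrable_const _) (fun n => ?_) (ae_of_all _ (fun ζ => auxLP_tendsto A hA hne _))
    refine ae_of_all _ (fun ζ => ?_)
    rw [Real.norm_of_nonneg (auxLP_nonneg A (by positivity) _)]
    exact auxLP_le_one A _ _
  have hnrm := auxLP_norm σ hσ hr0 hr1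
  have hlimA : ∀ᵐ ζ ∂(σ.restrict A), Tendsto
      (fun n : ℕ => PP σ (gc A ((n : ℝ) + 1)) ((r : ℂ) • ζ)) atTop
      (𝓝 ((σ {η | mob ((r : ℂ) • ζ) η ∉ A}).toReal)) := by
    apply ae_restrict_of_ae
    filter_upwards [hnrm] with ζ hζ
    exact hlim _ hζ
  have hmeas : AEStronglyMeasurable (fun ζ => (σ {η | mob ((r : ℂ) • ζ) η ∉ A}).toReal)
      (σ.restrict A) :=
    aestronglyMeasurable_of_tendsto_ae atTop
      (fun n : ℕ => (hPint ((n : ℝ) + 1)).integrableOn.aestronglyMeasurable) hlimA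
  have hint : IntegrableOn (fun ζ => (σ {η | mob ((r : ℂ) • ζ) η ∉ A}).toReal) A σ := by
    refine (integrable_const (1 : ℝ)).mono' hmeas (ae_of_all _ (fun ζ => ?_))
    rw [Real.norm_of_nonneg ENNReal.toReal_nonneg]
    exact measureReal_le_one
  have hconv : Tendsto (fun n : ℕ => ∫ ζ in A, PP σ (gc A ((n : ℝ) + 1)) ((r : ℂ) • ζ) ∂σ) atTop
      (𝓝 (∫ ζ in A, (σ {η | mob ((r : ℂ) • ζ) η ∉ A}).toReal ∂σ)) := by
    refine tendsto_integral_of_dominated_convergence (fun _ => (1 : ℝ))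
      (fun n : ℕ => (hPint ((n : ℝ) + 1)).integrableOn.aestronglyMeasurable)
      (integrable_const _) (fun n => ?_) hlimA
    apply ae_restrict_of_ae
    filter_upwards [hnrm] with ζ hζ
    have h1 : 0 ≤ PP σ (gc A ((n : ℝ) + 1)) ((r : ℂ) • ζ) :=
      integral_nonneg (fun η => auxLP_nonneg A (by positivity) _)
    rw [Real.norm_of_nonneg h1]
    have h2 : PP σ (gc A ((n : ℝ) + 1)) ((r : ℂ) • ζ) ≤ ∫ _, (1 : ℝ) ∂σ :=
      integral_mono (auxLP_int σ hσ _ (auxLP_cont A _) hζ) (integrable_const _)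
        (fun η => auxLP_le_one A _ _)
    simpa using h2
  have hfin : ∫ ζ in A, (σ {η | mob ((r : ℂ) • ζ) η ∉ A}).toReal ∂σ ≤ ε / 2 * σ.real A :=
    le_of_tendsto' hconv (fun n => hb _ (by positivity))
  by_contra hcon
  push Not at hcon
  have h3 : ∀ ζ ∈ A, ε ≤ (σ {η | mob ((r : ℂ) • ζ) η ∉ A}).toReal := by
    intro ζ hζ
    have hn1 : ‖ζ‖ = 1 := by simpa using hAs hζ
    refine (hcon ((r : ℂ) • ζ) ?_).le
    rw [norm_smul, hn1, mul_one, Complex.norm_real, Real.norm_of_nonneg hr0]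
    exact hr1
  have h4 := setIntegral_ge_of_const_le_real hAm (measure_ne_top _ _) h3 hint
  have h5 : ε / 2 * σ.real A < ε * σ.real A := by
    have := mul_pos (half_pos hε) hσA
    linarith
  have h6 : ε * σ.real A ≤ ∫ ζ in A, (σ {η | mob ((r : ℂ) • ζ) η ∉ A}).toReal ∂σ := by
    exact h4
  linarith

end LP

end Pool.Agent.Helper287.MB.LPF

namespace Pool.Agent.Helper287.MB
alias limE := LPF.limE
alias pick_a := LPF.pick_a
end Pool.Agent.Helper287.MB
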