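import Pool.Agent.Helper287.LP.Defs
set_option autoImplicit false
open MeasureTheory Metric Set Filter Topology
open scoped InnerProductSpace ComplexConjugate

namespace Pool.Agent.Helper287.MB.LPG


section LP
variable {E : Type} [NormedAddCommGroup E] [InnerProductSpace ℂ E] [FiniteDimensional ℂ E]
  [MeasurableSpace E] [BorelSpace E]

omit [FiniteDimensional ℂ E] [MeasurableSpace E] [BorelSpace E] in
theorem mob_lip {a : E} (ha : ‖a‖ < 1) :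
    ∃ C : ℝ, 0 ≤ C ∧ ∀ z w : E, ‖z‖ ≤ 1 → ‖w‖ ≤ 1 → ‖mob a z - mob a w‖ ≤ C * ‖z - w‖ := by
  obtain ⟨d, hd⟩ : ∃ d : ℝ, d = 1 - ‖a‖ := ⟨_, rfl⟩
  have hd0 : 0 < d := by rw [hd]; linarith
  have hs0 := sq_nonneg' a
  have hs1 := sq_le_one a
  have hs2 := one_add_sq_pos a
  have hin : ∀ z : E, ‖⟪a, z⟫_ℂ‖ ≤ ‖z‖ := by
    intro z
    refine (norm_inner_le_norm a z).trans ?_
    exact mul_le_of_le_one_left (norm_nonneg _) ha.le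
  have hin' : ∀ z : E, ‖z‖ ≤ 1 → ‖⟪a, z⟫_ℂ‖ ≤ ‖a‖ := by
    intro z hz
    refine (norm_inner_le_norm a z).trans ?_
    exact mul_le_of_le_one_right (norm_nonneg _) hz
  have hu : ∀ z : E, ‖z‖ ≤ 1 → d ≤ ‖1 + ⟪a, z⟫_ℂ‖ := by
    intro z hz
    have h1 : ‖(1 : ℂ)‖ - ‖-⟪a, z⟫_ℂ‖ ≤ ‖(1 : ℂ) - -⟪a, z⟫_ℂ‖ := norm_sub_norm_le _ _
    rw [norm_one, norm_neg, sub_neg_eq_add] at h1
    have h2 := hin' z hz
    rw [hd]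
    linarith
  have hlast : ∀ z : E, ‖(⟪a, z⟫_ℂ / (1 + (sq a : ℂ))) • a‖ ≤ ‖z‖ := by
    intro z
    rw [norm_smul, norm_div]
    have h1 : ‖(1 + (sq a : ℂ))‖ = 1 + sq a := by
      have : (1 + (sq a : ℂ)) = ((1 + sq a : ℝ) : ℂ) := by push_cast; rfl
      rw [this, Complex.norm_real, Real.norm_eq_abs, abs_of_pos hs2]
    rw [h1]
    have h2 : ‖⟪a, z⟫_ℂ‖ / (1 + sq a) ≤ ‖z‖ := by
      rw [div_le_iff₀ hs2]
      have := hin z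
      nlinarith [norm_nonneg z]
    calc ‖⟪a, z⟫_ℂ‖ / (1 + sq a) * ‖a‖ ≤ ‖z‖ * 1 :=
          mul_le_mul h2 ha.le (norm_nonneg _) (norm_nonneg _)
      _ = ‖z‖ := mul_one _
  obtain ⟨N, hN⟩ : ∃ N : E → E, N = fun z => a + (sq a : ℂ) • z + (⟪a, z⟫_ℂ / (1 + (sq a : ℂ))) • a :=
    ⟨_, rfl⟩
  have hsn : ‖(sq a : ℂ)‖ ≤ 1 := by
    rw [Complex.norm_real, Real.norm_eq_abs, abs_of_nonneg hs0]
    exact hs1
  have hNb : ∀ z : E, ‖z‖ ≤ 1 → ‖N z‖ ≤ 3 := by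
    intro z hz
    rw [hN]
    refine (norm_add₃_le).trans ?_
    have h1 := hlast z
    have h2 : ‖(sq a : ℂ) • z‖ ≤ 1 := by
      rw [norm_smul]
      exact mul_le_one₀ hsn (norm_nonneg _) hz
    linarith
  have hNl : ∀ z w : E, ‖N z - N w‖ ≤ 2 * ‖z - w‖ := by
    intro z w
    have h1 : N z - N w = (sq a : ℂ) • (z - w) + (⟪a, z - w⟫_ℂ / (1 + (sq a : ℂ))) • a := by
      rw [hN]
      simp only
      rw [inner_sub_right, sub_div, sub_smul, smul_sub]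
      abel
    rw [h1]
    refine (norm_add_le _ _).trans ?_
    have h2 := hlast (z - w)
    have h3 : ‖(sq a : ℂ) • (z - w)‖ ≤ ‖z - w‖ := by
      rw [norm_smul]
      exact mul_le_of_le_one_left (norm_nonneg _) hsn
    linarith
  refine ⟨2 / d + 3 / d ^ 2, by positivity, ?_⟩
  intro z w hz hw
  have hmz : mob a z = (1 + ⟪a, z⟫_ℂ)⁻¹ • N z := by rw [hN]; rfl
  have hmw : mob a w = (1 + ⟪a, w⟫_ℂ)⁻¹ • N w := by rw [hN]; rfl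
  have huz := hu z hz
  have huw := hu w hw
  have huz0 : 1 + ⟪a, z⟫_ℂ ≠ 0 := norm_pos_iff.1 (hd0.trans_le huz)
  have huw0 : 1 + ⟪a, w⟫_ℂ ≠ 0 := norm_pos_iff.1 (hd0.trans_le huw)
  have hsplit : mob a z - mob a w = (1 + ⟪a, z⟫_ℂ)⁻¹ • (N z - N w) +
      ((1 + ⟪a, z⟫_ℂ)⁻¹ - (1 + ⟪a, w⟫_ℂ)⁻¹) • N w := by
    rw [hmz, hmw, smul_sub, sub_smul]
    abel
  have e1 : ‖(1 + ⟪a, z⟫_ℂ)⁻¹ • (N z - N w)‖ ≤ 2 / d * ‖z - w‖ := by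
    rw [norm_smul, norm_inv]
    have h1 : ‖1 + ⟪a, z⟫_ℂ‖⁻¹ ≤ d⁻¹ := inv_anti₀ hd0 huz
    calc ‖1 + ⟪a, z⟫_ℂ‖⁻¹ * ‖N z - N w‖ ≤ d⁻¹ * (2 * ‖z - w‖) :=
          mul_le_mul h1 (hNl z w) (norm_nonneg _) (by positivity)
      _ = 2 / d * ‖z - w‖ := by ring
  have e2 : ‖((1 + ⟪a, z⟫_ℂ)⁻¹ - (1 + ⟪a, w⟫_ℂ)⁻¹) • N w‖ ≤ 3 / d ^ 2 * ‖z - w‖ := by
    rw [norm_smul]
    have h1 : (1 + ⟪a, z⟫_ℂ)⁻¹ - (1 + ⟪a, w⟫_ℂ)⁻¹ = ⟪a, w - z⟫_ℂ * ((1 + ⟪a, z⟫_ℂ)⁻¹ * (1 + ⟪a, w⟫_ℂ)⁻¹) := by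
      rw [inner_sub_right]
      field_simp
      ring
    have h2 : ‖(1 + ⟪a, z⟫_ℂ)⁻¹ - (1 + ⟪a, w⟫_ℂ)⁻¹‖ ≤ ‖z - w‖ * (d⁻¹ * d⁻¹) := by
      rw [h1, norm_mul, norm_mul, norm_inv, norm_inv]
      apply mul_le_mul
      · rw [norm_sub_rev z w]
        exact hin _
      · exact mul_le_mul (inv_anti₀ hd0 huz) (inv_anti₀ hd0 huw) (by positivity) (by positivity)
      · positivity
      · exact norm_nonneg _
    calc ‖(1 + ⟪a, z⟫_ℂ)⁻¹ - (1 + ⟪a, w⟫_ℂ)⁻¹‖ * ‖N w‖ ≤ (‖z - w‖ * (d⁻¹ * d⁻¹)) * 3 :=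
          mul_le_mul h2 (hNb w hw) (norm_nonneg _) (by positivity)
      _ = 3 / d ^ 2 * ‖z - w‖ := by
          field_simp
  rw [hsplit]
  refine (norm_add_le _ _).trans ?_
  rw [add_mul]
  exact add_le_add e1 e2

end LP

end Pool.Agent.Helper287.MB.LPG

namespace Pool.Agent.Helper287.MB
alias mob_lip := LPG.mob_lip
end Pool.Agent.Helper287.MB
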