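import Pool.Agent.Helper287.LP.A
set_option autoImplicit false
open MeasureTheory Metric Set Filter Topology
open scoped InnerProductSpace ComplexConjugate

namespace Pool.Agent.Helper287.MB.LPH


section LP
variable {E : Type} [NormedAddCommGroup E] [InnerProductSpace ℂ E] [FiniteDimensional ℂ E]
  [MeasurableSpace E] [BorelSpace E]


theorem submean (σ : Measure E) (hσ : IsSph σ) [Nontrivial E] (t : E → ℝ)
    (ht : ContinuousOn t (ball 0 1)) {r C ρ₀ : ℝ} (hr : 0 < r) (hr1 : r < 1) (hC : 0 ≤ C)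
    (hρ : 0 < ρ₀)
    (h : ∀ z : E, ‖z‖ ≤ r → ∀ ρ : ℝ, 0 < ρ → ρ < ρ₀ → ρ < 1 →
      t z ≤ (∫ ζ, t (mob z ((ρ:ℂ) • ζ)) ∂σ) + C * ρ ^ 4) :
    t 0 ≤ ∫ ζ, t ((r:ℂ) • ζ) ∂σ := by
  obtain ⟨D⟩ := exists_haarData E
  have : IsProbabilityMeasure σ := hσ.prob
  have : ProperSpace E := FiniteDimensional.proper ℂ E
  have hr2 : 0 < 1 - r ^ 2 := by nlinarith
  set R : ℝ := √(1 - 3 * (1 - r^2) / 16) with hR
  have hR2 : R ^ 2 = 1 - 3 * (1 - r^2)/16 := Real.sq_sqrt (by nlinarith)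
  have hRpos : 0 < R := Real.sqrt_pos.mpr (by nlinarith)
  have hR1 : R < 1 := by nlinarith
  have hrR : r ≤ R := by
    apply Real.le_sqrt_of_sq_le; nlinarith
  have hmobR : ∀ z w : E, ‖z‖ ≤ r → ‖w‖ ≤ 1/2 → ‖mob z w‖ ≤ R := by
    intro z w hz hw
    have h1 : ‖⟪z, w⟫_ℂ‖ < 1 := norm_inner_lt (hz.trans_lt hr1) (hw.trans (by norm_num))
    have hne : 1 + ⟪z, w⟫_ℂ ≠ 0 := one_add_inner_ne (hz.trans_lt hr1) (hw.trans (by norm_num))
    have h2 := norm_mob_sq' (hz.trans hr1.le) hne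
    have h0 : 0 < ‖1 + ⟪z, w⟫_ℂ‖ := norm_pos_iff.mpr hne
    have h3 : ‖1 + ⟪z, w⟫_ℂ‖ ^ 2 ≤ 4 := by
      have : ‖1 + ⟪z, w⟫_ℂ‖ ≤ 2 := (norm_add_le _ _).trans (by rw [norm_one]; linarith)
      nlinarith
    have h4 : 3 * (1-r^2)/16 ≤ 1 - ‖mob z w‖^2 := by
      rw [h2, le_div_iff₀ (by positivity)]
      have h5 : 1 - r^2 ≤ 1 - ‖z‖^2 := by nlinarith [norm_nonneg z]
      have h6 : 3/4 ≤ 1 - ‖w‖^2 := by nlinarith [norm_nonneg w]
      calc 3 * (1-r^2)/16 * ‖1 + ⟪z, w⟫_ℂ‖ ^ 2 ≤ 3 * (1-r^2)/16 * 4 := by gcongr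
        _ = (1 - r^2) * (3/4) := by ring
        _ ≤ (1 - ‖z‖^2) * (1 - ‖w‖^2) := mul_le_mul h5 h6 (by norm_num) (hr2.le.trans h5)
    have h7 : ‖mob z w‖ ^ 2 ≤ R ^ 2 := by rw [hR2]; linarith
    exact (pow_le_pow_iff_left₀ (norm_nonneg _) hRpos.le two_ne_zero).mp h7
  have hmax0 : ∀ z : E, 0 < max R ‖z‖ := fun z => lt_of_lt_of_le hRpos (le_max_left _ _)
  let pr : E → E := fun z => ((R / max R ‖z‖ : ℝ) : ℂ) • z
  have hprc : Continuous pr := by
    refine Continuous.smul (Complex.continuous_ofReal.comp ?_) continuous_id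
    exact continuous_const.div (continuous_const.max continuous_norm) (fun z => (hmax0 z).ne')
  have hprn : ∀ z, ‖pr z‖ ≤ R := by
    intro z
    show ‖((R / max R ‖z‖ : ℝ) : ℂ) • z‖ ≤ R
    rw [norm_smul, Complex.norm_real, Real.norm_eq_abs, abs_of_nonneg (by have := hmax0 z; positivity),
      div_mul_eq_mul_div, div_le_iff₀ (hmax0 z)]
    exact mul_le_mul_of_nonneg_left (le_max_right _ _) hRpos.le
  have hpr_eq : ∀ z, ‖z‖ ≤ R → pr z = z := by
    intro z hz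
    show ((R / max R ‖z‖ : ℝ) : ℂ) • z = z
    rw [max_eq_left hz, div_self hRpos.ne', Complex.ofReal_one, one_smul]
  let t' : E → ℝ := fun z => t (pr z)
  have ht'_eq : ∀ z, ‖z‖ ≤ R → t' z = t z := fun z hz => by
    show t (pr z) = t z
    rw [hpr_eq z hz]
  have ht'c : Continuous t' :=
    ht.comp_continuous hprc (fun z => mem_ball_zero_iff.mpr ((hprn z).trans_lt hR1))
  obtain ⟨M, hM⟩ : ∃ M, ∀ z, ‖t' z‖ ≤ M := by
    have hcomp : IsCompact (closedBall (0:E) R) := isCompact_closedBall _ _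
    have hcont : ContinuousOn t (closedBall 0 R) := ht.mono (closedBall_subset_ball hR1)
    obtain ⟨M, hM⟩ := hcomp.exists_bound_of_continuousOn hcont
    exact ⟨M, fun z => hM _ (mem_closedBall_zero_iff.mpr (hprn z))⟩
  let tb : E → ℝ := fun z => ∫ k, t' (D.act k z) ∂D.μ
  have hkc : ∀ z, Continuous (fun k : D.K => D.act k z) := fun z =>
    D.cont.comp (Continuous.prodMk continuous_id continuous_const)
  have htbc : Continuous tb := by
    apply continuous_of_dominated (bound := fun _ => M)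
    · intro z; exact (ht'c.comp (hkc z)).aestronglyMeasurable
    · intro z; exact Eventually.of_forall (fun k => hM _)
    · exact integrable_const _
    · exact Eventually.of_forall (fun k => ht'c.comp (D.act k).continuous)
  have htbM : ∀ z, ‖tb z‖ ≤ M := by
    intro z
    have := norm_integral_le_of_norm_le_const (μ := D.μ) (f := fun k => t' (D.act k z)) (C := M)
      (Eventually.of_forall (fun k => hM _))
    simpa using this
  have hb : ∀ e : E, ‖e‖ = 1 → ∀ s : ℝ, tb ((s:ℂ) • e) = ∫ ζ, t' ((s:ℂ) • ζ) ∂σ := by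
    intro e he s
    rw [← D.law σ hσ e he, integral_map]
    · simp only [tb, map_smul]
    · exact (hkc e).aemeasurable
    · exact (ht'c.comp (continuous_const.smul continuous_id)).aestronglyMeasurable
  have hmeas : ∀ (z : E) (ρ : ℝ), Measurable (fun ζ : E => mob z ((ρ:ℂ) • ζ)) := by
    intro z ρ
    have h1 : Measurable (fun ζ : E => (ρ:ℂ) • ζ) := (continuous_const_smul (ρ:ℂ)).measurable
    exact C_meas_mob.comp (measurable_const.prodMk h1)
  have hc : ∀ z : E, ‖z‖ ≤ r → ∀ ρ : ℝ, 0 < ρ → ρ < ρ₀ → ρ < 1/2 →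
      tb z ≤ (∫ ζ, tb (mob z ((ρ:ℂ) • ζ)) ∂σ) + C * ρ ^ 4 := by
    intro z hz ρ h0 h1 h2
    have hk : ∀ k, t' (D.act k z) ≤ (∫ ζ, t' (D.act k (mob z ((ρ:ℂ) • ζ))) ∂σ) + C * ρ^4 := by
      intro k
      have hn : ‖D.act k z‖ ≤ r := by rw [LinearIsometryEquiv.norm_map]; exact hz
      have h3 := h (D.act k z) hn ρ h0 h1 (by linarith)
      have e1 : t' (D.act k z) = t (D.act k z) := ht'_eq _ (hn.trans hrR)
      have e3 : ∫ ζ, t (mob (D.act k z) ((ρ:ℂ) • ζ)) ∂σ = ∫ ζ, t' (mob (D.act k z) ((ρ:ℂ) • ζ)) ∂σ := by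
        refine integral_congr_ae (hσ.supp.mono fun ζ hζ => ?_)
        refine (ht'_eq _ (hmobR _ _ hn ?_)).symm
        rw [norm_smul, Complex.norm_real, hζ, Real.norm_eq_abs, abs_of_pos h0]; linarith
      have e4 : ∫ ζ, t' (mob (D.act k z) ((ρ:ℂ) • ζ)) ∂σ
          = ∫ ζ, t' (mob (D.act k z) ((ρ:ℂ) • (D.act k ζ))) ∂σ := by
        conv_lhs => rw [← hσ.inv (D.act k)]
        rw [integral_map]
        · exact (D.act k).continuous.aemeasurable
        · exact (ht'c.measurable.comp (hmeas _ _)).aestronglyMeasurable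
      have e5 : ∀ ζ, mob (D.act k z) ((ρ:ℂ) • (D.act k ζ)) = D.act k (mob z ((ρ:ℂ) • ζ)) := by
        intro ζ
        rw [← mob_iso, map_smul]
      rw [e1]
      rw [e3, e4] at h3
      simp only [e5] at h3
      exact h3
    have hint : Integrable (Function.uncurry fun (k : D.K) (ζ : E) => t' (D.act k (mob z ((ρ:ℂ) • ζ))))
        (D.μ.prod σ) := by
      refine Integrable.of_bound (C := M) ?_ (Eventually.of_forall fun p => hM _)
      have hφ : Measurable (fun p : D.K × E => (p.1, mob z ((ρ:ℂ) • p.2))) :=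
        measurable_fst.prodMk ((hmeas z ρ).comp measurable_snd)
      have h5 : Measurable (fun p : D.K × E => t' (D.act p.1 (mob z ((ρ:ℂ) • p.2)))) :=
        ht'c.measurable.comp (D.cont.measurable.comp hφ)
      exact h5.aestronglyMeasurable
    have hint2 : Integrable (fun k => t' (D.act k z)) D.μ :=
      Integrable.of_bound (C := M) (ht'c.comp (hkc z)).aestronglyMeasurable
        (Eventually.of_forall fun p => hM _)
    have hint3 : Integrable (fun k => ∫ ζ, t' (D.act k (mob z ((ρ:ℂ) • ζ))) ∂σ) D.μ :=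
      hint.integral_prod_left
    calc tb z ≤ ∫ k, ((∫ ζ, t' (D.act k (mob z ((ρ:ℂ) • ζ))) ∂σ) + C * ρ^4) ∂D.μ :=
          integral_mono hint2 (hint3.add (integrable_const _)) hk
      _ = (∫ k, ∫ ζ, t' (D.act k (mob z ((ρ:ℂ) • ζ))) ∂σ ∂D.μ) + C * ρ^4 := by
          rw [integral_add hint3 (integrable_const _), integral_const]; simp
      _ = (∫ ζ, tb (mob z ((ρ:ℂ) • ζ)) ∂σ) + C * ρ^4 := by
          rw [integral_integral_swap hint]
  have hlogint : ∀ z : E, ‖z‖ ≤ r → ∀ ρ : ℝ, 0 < ρ → ρ < 1/2 →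
      Integrable (fun ζ => Real.log (1 - ‖mob z ((ρ:ℂ) • ζ)‖ ^ 2)) σ := by
    intro z hz ρ h0 h2
    refine Integrable.of_bound (C := -Real.log (1 - R ^ 2)) ?_ ?_
    · exact (Real.measurable_log.comp (measurable_const.sub ((hmeas z ρ).norm.pow_const 2))).aestronglyMeasurable
    · filter_upwards [hσ.supp] with ζ hζ
      have h1 : ‖mob z ((ρ:ℂ) • ζ)‖ ≤ R := by
        apply hmobR _ _ hz
        rw [norm_smul, Complex.norm_real, hζ, Real.norm_eq_abs, abs_of_pos h0]; linarith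
      have h3 : ‖mob z ((ρ:ℂ) • ζ)‖ ^ 2 ≤ R ^ 2 := by
        have := norm_nonneg (mob z ((ρ:ℂ) • ζ)); gcongr
      have h4 : 0 < 1 - R ^ 2 := by nlinarith
      rw [Real.norm_eq_abs, abs_of_nonpos]
      · apply neg_le_neg
        exact Real.log_le_log h4 (by linarith)
      · apply Real.log_nonpos (by linarith)
        have := sq_nonneg ‖mob z ((ρ:ℂ) • ζ)‖
        linarith
  have he : ∀ z : E, ‖z‖ ≤ r → ∀ ρ : ℝ, 0 < ρ → ρ < 1/2 →
      -Real.log (1 - ‖z‖ ^ 2) + ρ ^ 2 ≤ ∫ ζ, -Real.log (1 - ‖mob z ((ρ:ℂ) • ζ)‖ ^ 2) ∂σ := by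
    intro z hz ρ h0 h2
    rw [integral_neg, mob_log_mean σ hσ (hz.trans_lt hr1) h0.le (by linarith)]
    have : Real.log (1 - ρ ^ 2) ≤ (1 - ρ ^ 2) - 1 := Real.log_le_sub_one_of_pos (by nlinarith)
    linarith
  have hmax : ∀ ε > 0, tb 0 ≤ (∫ ζ, t' ((r:ℂ) • ζ) ∂σ) + ε * (-Real.log (1 - r^2)) := by
    intro ε hε
    set G : E → ℝ := fun z => tb z + ε * (-Real.log (1 - ‖z‖^2)) with hG
    have hGc : ContinuousOn G (closedBall 0 r) := by
      refine htbc.continuousOn.add (continuousOn_const.mul (ContinuousOn.neg ?_))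
      refine ContinuousOn.log (by fun_prop) ?_
      intro z hz
      have hz' : ‖z‖ ≤ r := mem_closedBall_zero_iff.mp hz
      have := norm_nonneg z
      nlinarith
    obtain ⟨z₁, hz₁, hmx⟩ := (isCompact_closedBall (0:E) r).exists_isMaxOn
      ⟨0, by simp [hr.le]⟩ hGc
    have hz₁' : ‖z₁‖ ≤ r := mem_closedBall_zero_iff.mp hz₁
    have hmx' : ∀ w, ‖w‖ ≤ r → G w ≤ G z₁ := fun w hw => hmx (mem_closedBall_zero_iff.mpr hw)
    rcases hz₁'.lt_or_eq with hlt | heq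
    · exfalso
      have hopen : IsOpen {z : E | 1 + ⟪z₁, z⟫_ℂ ≠ 0} := by
        apply isOpen_ne_fun _ continuous_const
        fun_prop
      have hcm : ContinuousAt (mob z₁) 0 := by
        apply (differentiableOn_mob z₁).continuousOn.continuousAt
        apply hopen.mem_nhds
        simp
      have hev : ∀ᶠ w in 𝓝 (0:E), ‖mob z₁ w‖ < r := by
        apply hcm.norm.eventually_lt_const
        simpa using hlt
      obtain ⟨δ, hδ, hδ'⟩ := Metric.eventually_nhds_iff.mp hev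
      obtain ⟨ρ, h0, h1, h2, h3, h4⟩ : ∃ ρ : ℝ, 0 < ρ ∧ ρ < δ ∧ ρ < ρ₀ ∧ ρ < 1/2 ∧ C * ρ ^ 2 < ε := by
        have hcc : ∀ᶠ ρ in 𝓝 (0:ℝ), C * ρ ^ 2 < ε := by
          have : Tendsto (fun ρ : ℝ => C * ρ ^ 2) (𝓝 0) (𝓝 (C * 0 ^ 2)) :=
            (continuous_const.mul (continuous_pow 2)).tendsto 0
          exact this.eventually_lt_const (by simpa using hε)
        have e1 : ∀ᶠ ρ in 𝓝[>] (0:ℝ), C * ρ ^ 2 < ε := hcc.filter_mono nhdsWithin_le_nhds
        have e2 : ∀ᶠ ρ in 𝓝[>] (0:ℝ), ρ ∈ Ioo 0 δ := Ioo_mem_nhdsGT hδ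
        have e3 : ∀ᶠ ρ in 𝓝[>] (0:ℝ), ρ ∈ Ioo 0 ρ₀ := Ioo_mem_nhdsGT hρ
        have e4 : ∀ᶠ ρ in 𝓝[>] (0:ℝ), ρ ∈ Ioo (0:ℝ) (1/2) := Ioo_mem_nhdsGT (by norm_num)
        obtain ⟨ρ, a1, a2, a3, a4⟩ := (e1.and (e2.and (e3.and e4))).exists
        exact ⟨ρ, a2.1, a2.2, a3.2, a4.2, a1⟩
      have q1 := hc z₁ hz₁' ρ h0 h2 h3
      have q2 := he z₁ hz₁' ρ h0 h3
      have i1 : Integrable (fun ζ => tb (mob z₁ ((ρ:ℂ) • ζ))) σ :=
        Integrable.of_bound (C := M) (htbc.measurable.comp (hmeas _ _)).aestronglyMeasurable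
          (Eventually.of_forall fun p => htbM _)
      have i2 : Integrable (fun ζ => ε * (-Real.log (1 - ‖mob z₁ ((ρ:ℂ) • ζ)‖ ^ 2))) σ :=
        ((hlogint z₁ hz₁' ρ h0 h3).neg).const_mul ε
      have q3 : ∫ ζ, G (mob z₁ ((ρ:ℂ) • ζ)) ∂σ ≤ G z₁ := by
        calc ∫ ζ, G (mob z₁ ((ρ:ℂ) • ζ)) ∂σ ≤ ∫ ζ, G z₁ ∂σ := by
              refine integral_mono_ae (i1.add i2) (integrable_const _) ?_
              filter_upwards [hσ.supp] with ζ hζ
              apply hmx'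
              have := @hδ' ((ρ:ℂ) • ζ) (by
                rw [dist_zero_right, norm_smul, Complex.norm_real, hζ, Real.norm_eq_abs,
                  abs_of_pos h0, mul_one]
                exact h1)
              exact this.le
          _ = G z₁ := by simp
      have q4 : ∫ ζ, G (mob z₁ ((ρ:ℂ) • ζ)) ∂σ = (∫ ζ, tb (mob z₁ ((ρ:ℂ) • ζ)) ∂σ)
          + ε * ∫ ζ, -Real.log (1 - ‖mob z₁ ((ρ:ℂ) • ζ)‖ ^ 2) ∂σ := by
        rw [← integral_const_mul, ← integral_add i1 i2]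
      have q5 : G z₁ = tb z₁ + ε * (-Real.log (1 - ‖z₁‖^2)) := rfl
      have q6 : ε * (-Real.log (1 - ‖z₁‖ ^ 2) + ρ ^ 2)
          ≤ ε * ∫ ζ, -Real.log (1 - ‖mob z₁ ((ρ:ℂ) • ζ)‖ ^ 2) ∂σ := by gcongr
      have q7 : ε * ρ ^ 2 ≤ C * ρ ^ 4 := by
        rw [q4, q5] at q3
        nlinarith
      have q8 : C * ρ ^ 4 < ε * ρ ^ 2 := by
        have : C * ρ ^ 4 = (C * ρ ^ 2) * ρ ^ 2 := by ring
        rw [this]
        exact mul_lt_mul_of_pos_right h4 (by positivity)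
      linarith
    · have hne : z₁ ≠ 0 := by
        rintro rfl
        rw [norm_zero] at heq
        linarith
      set e : E := ((r⁻¹ : ℝ) : ℂ) • z₁ with he'
      have hen : ‖e‖ = 1 := by
        rw [he', norm_smul, Complex.norm_real, heq, Real.norm_eq_abs, abs_of_pos (by positivity)]
        field_simp
      have hz₁e : z₁ = (r : ℂ) • e := by
        rw [he', smul_smul, ← Complex.ofReal_mul, mul_inv_cancel₀ hr.ne', Complex.ofReal_one, one_smul]
      have h0 := hmx' 0 (by simp [hr.le])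
      have h1 : G 0 = tb 0 := by simp [hG]
      have h2 : G z₁ = (∫ ζ, t' ((r:ℂ) • ζ) ∂σ) + ε * (-Real.log (1 - r^2)) := by
        show tb z₁ + ε * (-Real.log (1 - ‖z₁‖^2)) = _
        rw [heq, ← hb e hen r, ← hz₁e]
      rw [h1, h2] at h0
      exact h0
  have hfin : tb 0 ≤ ∫ ζ, t' ((r:ℂ) • ζ) ∂σ := by
    have hL : 0 ≤ -Real.log (1 - r^2) := by
      have := Real.log_nonpos hr2.le (by nlinarith)
      linarith
    apply le_of_forall_pos_le_add
    intro δ hδ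
    have := hmax (δ / (-Real.log (1 - r^2) + 1)) (by positivity)
    refine this.trans ?_
    have h1 : δ / (-Real.log (1 - r^2) + 1) * (-Real.log (1 - r^2)) ≤ δ := by
      rw [div_mul_eq_mul_div, div_le_iff₀ (by linarith)]
      nlinarith
    linarith
  have h0 : tb 0 = t 0 := by
    simp only [tb, map_zero]
    rw [integral_const]
    simp only [probReal_univ, one_smul]
    exact ht'_eq 0 (by simp [hRpos.le])
  have h1 : ∫ ζ, t' ((r:ℂ) • ζ) ∂σ = ∫ ζ, t ((r:ℂ) • ζ) ∂σ := by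
    refine integral_congr_ae (hσ.supp.mono fun ζ hζ => ?_)
    refine ht'_eq _ ?_
    rw [norm_smul, Complex.norm_real, hζ, Real.norm_eq_abs, abs_of_pos hr, mul_one]
    exact hrR
  rw [← h0, ← h1]
  exact hfin

end LP

end Pool.Agent.Helper287.MB.LPH

namespace Pool.Agent.Helper287.MB
alias submean := LPH.submean
end Pool.Agent.Helper287.MB
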