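import Pool.Agent.Helper287.LP.B
import Pool.Agent.Helper287.LP.E
import Pool.Agent.Helper287.LP.F
import Pool.Agent.Helper287.LP.H
set_option autoImplicit false
open MeasureTheory Metric Set Filter Topology
open scoped InnerProductSpace ComplexConjugate

namespace Pool.Agent.Helper287.MB.LPI


section LP
variable {E : Type} [NormedAddCommGroup E] [InnerProductSpace ℂ E] [FiniteDimensional ℂ E]
  [MeasurableSpace E] [BorelSpace E]


theorem ms_gc_nonneg (A : Set E) {j : ℝ} (hj : 0 ≤ j) (ζ : E) : 0 ≤ gc A j ζ := by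
  unfold gc; exact le_min zero_le_one (mul_nonneg hj infDist_nonneg)

theorem ms_gc_le (A : Set E) (j : ℝ) (ζ : E) : gc A j ζ ≤ 1 := min_le_left _ _

omit [FiniteDimensional ℂ E] in
theorem ms_gc_cont (A : Set E) (j : ℝ) : Continuous (gc A j) := by
  unfold gc
  exact continuous_const.min (continuous_const.mul (continuous_infDist_pt A))

theorem ms_gc_zero (A : Set E) (j : ℝ) {ζ : E} (h : ζ ∈ A) : gc A j ζ = 0 := by
  unfold gc; rw [infDist_zero_of_mem h]; simp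

theorem ms_HH (σ : Measure E) (g : E → ℝ) (z : E) :
    HH σ (fun w => (g w : ℂ)) z = ((PP σ g z : ℝ) : ℂ) := by
  unfold HH PP
  exact integral_complex_ofReal

theorem ms_PP_cont (σ : Measure E) (hσ : IsSph σ) (g : E → ℝ) (hg : Continuous g) :
    ContinuousOn (PP σ g) (closedBall 0 1) := by
  have h1 := HH_cont σ hσ (fun w => (g w : ℂ)) (Complex.continuous_ofReal.comp hg).continuousOn
  have h2 : ContinuousOn (fun z => (HH σ (fun w => (g w:ℂ)) z).re) (closedBall 0 1) :=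
    Complex.continuous_re.comp_continuousOn h1
  refine h2.congr fun z _ => ?_
  change PP σ g z = (HH σ (fun w => (g w:ℂ)) z).re
  rw [ms_HH]; simp

theorem ms_PP_mean (σ : Measure E) (hσ : IsSph σ) [Nontrivial E] (g : E → ℝ) (hg : Continuous g)
    {r : ℝ} (hr0 : 0 ≤ r) (hr1 : r < 1) {z : E} (hz : ‖z‖ ≤ 1) :
    ∫ ζ, PP σ g (mob z ((r:ℂ) • ζ)) ∂σ = PP σ g z := by
  have h1 := TT_HH σ hσ (fun w => (g w : ℂ)) (Complex.continuous_ofReal.comp hg).continuousOn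
    hr0 hr1 hz
  unfold TT at h1
  simp only [ms_HH] at h1
  rw [integral_complex_ofReal] at h1
  exact_mod_cast h1

theorem ms_int (σ : Measure E) (hσ : IsSph σ) (t : E → ℝ) (ht : ContinuousOn t (ball 0 1))
    {z : E} (hz : ‖z‖ < 1) {ρ : ℝ} (h0 : 0 ≤ ρ) (h1 : ρ < 1) :
    Integrable (fun ζ => t (mob z ((ρ:ℂ) • ζ))) σ := by
  haveI := hσ.prob
  haveI : ProperSpace E := FiniteDimensional.proper ℂ E
  have hn : ∀ ζ : E, ζ ∈ closedBall (0:E) 1 → ‖(ρ:ℂ) • ζ‖ < 1 := by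
    intro ζ hζ
    rw [mem_closedBall_zero_iff] at hζ
    rw [norm_smul, Complex.norm_real, Real.norm_of_nonneg h0]
    nlinarith
  have hc : ContinuousOn (fun ζ => t (mob z ((ρ:ℂ) • ζ))) (closedBall 0 1) := by
    refine ContinuousOn.comp (g := t) (f := fun ζ : E => mob z ((ρ:ℂ) • ζ)) (t := ball 0 1) ht ?_ ?_
    · have h2 : ContinuousOn (fun ζ : E => ((z, (ρ:ℂ) • ζ) : E × E)) (closedBall 0 1) := by fun_prop
      have h3 : ContinuousOn ((fun p : E × E => mob p.1 p.2) ∘ (fun ζ : E => ((z, (ρ:ℂ) • ζ) : E × E)))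
          (closedBall 0 1) := by
        refine ContinuousOn.comp continuousOn_mob h2 ?_
        intro ζ hζ
        exact one_add_inner_ne hz (hn ζ hζ).le
      exact h3
    · intro ζ hζ
      rw [mem_ball_zero_iff]
      exact norm_mob_lt hz (hn ζ hζ)
  have hint : IntegrableOn (fun ζ => t (mob z ((ρ:ℂ) • ζ))) (closedBall 0 1) σ :=
    hc.integrableOn_compact (isCompact_closedBall 0 1)
  have hres : σ.restrict (closedBall 0 1) = σ := by
    apply Measure.restrict_eq_self_of_ae_mem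
    filter_upwards [hσ.supp] with ζ hζ
    rw [mem_closedBall_zero_iff]; exact hζ.le
  unfold IntegrableOn at hint
  rwa [hres] at hint

set_option maxHeartbeats 2000000 in
theorem ms_core (σ : Measure E) (hσ : IsSph σ) [Nontrivial E] (A : Set E) (hA : IsClosed A)
    (hAs : A ⊆ sphere 0 1) (s : E → ℝ) (hs : ContinuousOn s (ball 0 1))
    (hstep : ∀ z : E, ‖z‖ < 1 → ∀ ρ : ℝ, 0 < ρ → ρ ≤ 1 / 2 →
      s z - 6 * ρ ^ 4 ≤ ∫ ζ, s (mob z ((ρ:ℂ) • ζ)) ∂σ)
    {C' α : ℝ} (hC' : 0 < C') (hα : 0 < α)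
    (hm : ∀ (j : ℝ) (z : E), ‖z‖ < 1 → 0 < j → 1 ≤ j * (1 - ‖z‖ ^ 2) →
      PP σ (gc A j) z ≤ 1 / 4 →
      s z ≤ Real.log (C' * ((PP σ (gc A j) z) ^ (1 / 4 : ℝ) + (1 - ‖z‖ ^ 2) ^ (α / 3)
          + (j * (1 - ‖z‖ ^ 2)) ^ (-α))))
    (hs0 : s 0 ≤ 0) (hsmall : (σ Aᶜ).toReal ≤ 1 / 40) : False := by
  haveI := hσ.prob
  haveI : ProperSpace E := FiniteDimensional.proper ℂ E
  obtain ⟨C7, hC7⟩ : ∃ C7 : ℝ, C7 = max 0 (Real.log (3 * C')) := ⟨_, rfl⟩
  have hC70 : 0 ≤ C7 := by rw [hC7]; exact le_max_left _ _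
  have hC7l : Real.log (3 * C') ≤ C7 := by rw [hC7]; exact le_max_right _ _
  obtain ⟨M, hM⟩ : ∃ M : ℝ, M = (4 / 3) * (C7 / 4 - s 0 + 1) := ⟨_, rfl⟩
  have hM0 : 0 ≤ M := by rw [hM]; linarith
  obtain ⟨δ, hδ⟩ : ∃ δ : ℝ, δ = Real.exp (-M) / C' := ⟨_, rfl⟩
  have hδ0 : 0 < δ := by rw [hδ]; positivity
  obtain ⟨η, hη⟩ : ∃ η : ℝ, η = δ / 4 := ⟨_, rfl⟩
  have hη0 : 0 < η := by rw [hη]; positivity
  obtain ⟨κ, hκ⟩ : ∃ κ : ℝ, κ = min (1 / 16) ((δ / 2) ^ 4) := ⟨_, rfl⟩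
  have hκ0 : 0 < κ := by rw [hκ]; positivity
  have hκ16 : κ ≤ 1 / 16 := by rw [hκ]; exact min_le_left _ _
  have hκ4 : κ ^ (1 / 4 : ℝ) ≤ δ / 2 := by
    calc κ ^ (1 / 4 : ℝ) ≤ ((δ / 2) ^ 4) ^ (1 / 4 : ℝ) :=
          Real.rpow_le_rpow hκ0.le (by rw [hκ]; exact min_le_right _ _) (by norm_num)
      _ = δ / 2 := by
        rw [← Real.rpow_natCast (δ / 2) 4, ← Real.rpow_mul (by positivity)]; norm_num
  obtain ⟨r₀, hr₀0, hr₀1, hr₀⟩ := limE σ hσ A hA hAs (ε := κ / 40) (by positivity)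
  obtain ⟨r, hr0, hr1, hrr₀, hrη⟩ : ∃ r : ℝ, 0 < r ∧ r < 1 ∧ r₀ < r ∧
      (1 - r ^ 2) ^ (α / 3) ≤ η := by
    obtain ⟨d, hd⟩ : ∃ d : ℝ, d = η ^ (3 / α) := ⟨_, rfl⟩
    have hd0 : 0 < d := by rw [hd]; exact Real.rpow_pos_of_pos hη0 _
    refine ⟨max ((1 + r₀) / 2) (1 - d / 2), ?_, ?_, ?_, ?_⟩
    · exact lt_of_lt_of_le (by linarith) (le_max_left _ _)
    · exact max_lt (by linarith) (by linarith)
    · exact lt_of_lt_of_le (by linarith) (le_max_left _ _)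
    · have h1 : max ((1 + r₀) / 2) (1 - d / 2) < 1 := max_lt (by linarith) (by linarith)
      have h2 : 1 - d / 2 ≤ max ((1 + r₀) / 2) (1 - d / 2) := le_max_right _ _
      have h3 : (1 + r₀) / 2 ≤ max ((1 + r₀) / 2) (1 - d / 2) := le_max_left _ _
      generalize max ((1 + r₀) / 2) (1 - d / 2) = r at h1 h2 h3
      have h4 : 1 - r ^ 2 ≤ d := by
        nlinarith [mul_nonneg (show 0 ≤ d / 2 - (1 - r) by linarith) (show 0 ≤ 1 + r by linarith),
          mul_nonneg hd0.le (show 0 ≤ 1 - r by linarith)]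
      have h5 : 0 ≤ 1 - r ^ 2 := by nlinarith
      calc (1 - r ^ 2) ^ (α / 3) ≤ d ^ (α / 3) := Real.rpow_le_rpow h5 h4 (by positivity)
        _ = η := by
          rw [hd, ← Real.rpow_mul hη0.le, show 3 / α * (α / 3) = 1 by field_simp]
          exact Real.rpow_one _
  obtain ⟨R, hR⟩ : ∃ R : ℝ, R = (1 + r) / 2 := ⟨_, rfl⟩
  have hR1 : R < 1 := by linarith
  have hrR : r < R := by linarith
  have hDR : 0 < 1 - R ^ 2 := by nlinarith
  have hDr : 0 < 1 - r ^ 2 := by nlinarith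
  have hDRr : 1 - R ^ 2 ≤ 1 - r ^ 2 := by nlinarith
  obtain ⟨j, hj0, hjR, hjη⟩ : ∃ j : ℝ, 0 < j ∧ 1 ≤ j * (1 - R ^ 2) ∧
      (j * (1 - r ^ 2)) ^ (-α) ≤ η := by
    refine ⟨max (1 / (1 - R ^ 2)) (η ^ (-(1 / α)) / (1 - r ^ 2)), ?_, ?_, ?_⟩
    · exact lt_of_lt_of_le (by positivity) (le_max_left _ _)
    · calc (1:ℝ) = 1 / (1 - R ^ 2) * (1 - R ^ 2) := by field_simp
        _ ≤ _ := mul_le_mul_of_nonneg_right (le_max_left _ _) hDR.le
    · have h1 : η ^ (-(1 / α)) ≤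
          max (1 / (1 - R ^ 2)) (η ^ (-(1 / α)) / (1 - r ^ 2)) * (1 - r ^ 2) := by
        calc η ^ (-(1 / α)) = η ^ (-(1 / α)) / (1 - r ^ 2) * (1 - r ^ 2) := by field_simp
          _ ≤ _ := mul_le_mul_of_nonneg_right (le_max_right _ _) hDr.le
      have h2 : 0 < η ^ (-(1 / α)) := Real.rpow_pos_of_pos hη0 _
      calc _ ≤ (η ^ (-(1 / α))) ^ (-α) :=
            Real.rpow_le_rpow_of_nonpos h2 h1 (by linarith)
        _ = η := by
            rw [← Real.rpow_mul hη0.le, show -(1 / α) * -α = 1 by field_simp, Real.rpow_one]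
  obtain ⟨u, hu⟩ : ∃ u : E → ℝ, u = PP σ (gc A j) := ⟨_, rfl⟩
  have hgc := ms_gc_cont A j
  have huc : ContinuousOn u (closedBall 0 1) := by rw [hu]; exact ms_PP_cont σ hσ _ hgc
  have hu0 : ∀ z, 0 ≤ u z := by
    intro z; rw [hu]; exact integral_nonneg fun ζ => ms_gc_nonneg A hj0.le _
  have hmean : ∀ z : E, ‖z‖ ≤ 1 → ∀ ρ : ℝ, 0 ≤ ρ → ρ < 1 →
      ∫ ζ, u (mob z ((ρ:ℂ) • ζ)) ∂σ = u z := by
    intro z hz ρ h0 h1; rw [hu]; exact ms_PP_mean σ hσ _ hgc h0 h1 hz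
  have hzero : u 0 ≤ 1 / 40 := by
    rw [hu]
    have h1 : PP σ (gc A j) 0 = ∫ ζ, gc A j ζ ∂σ := by unfold PP; simp
    rw [h1]
    calc ∫ ζ, gc A j ζ ∂σ ≤ ∫ ζ, Aᶜ.indicator (fun _ => (1:ℝ)) ζ ∂σ := by
          apply integral_mono_of_nonneg
          · exact Eventually.of_forall fun ζ => ms_gc_nonneg A hj0.le ζ
          · exact (integrable_const (1:ℝ)).indicator hA.measurableSet.compl
          · refine Eventually.of_forall fun ζ => ?_
            by_cases hζ : ζ ∈ A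
            · simp [ms_gc_zero A j hζ, hζ]
            · simpa [hζ] using ms_gc_le A j ζ
      _ = (σ Aᶜ).toReal := by
          rw [integral_indicator hA.measurableSet.compl]; simp [Measure.real]
      _ ≤ 1 / 40 := hsmall
  have hsC7 : ∀ z : E, ‖z‖ ≤ R → u z ≤ 1 / 4 → s z ≤ C7 := by
    intro z hz huz
    have hz2 : ‖z‖ ^ 2 ≤ R ^ 2 := pow_le_pow_left₀ (norm_nonneg _) hz 2
    have hD1 : 1 ≤ j * (1 - ‖z‖ ^ 2) :=
      le_trans hjR (mul_le_mul_of_nonneg_left (by linarith) hj0.le)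
    have hD0 : 0 < 1 - ‖z‖ ^ 2 := by linarith
    have hD2 : 1 - ‖z‖ ^ 2 ≤ 1 := by nlinarith [sq_nonneg ‖z‖]
    have huz0 := hu0 z
    rw [hu] at huz huz0
    have h1 := hm j z (by linarith) hj0 hD1 huz
    have h2 : 0 ≤ (PP σ (gc A j) z) ^ (1 / 4 : ℝ) := Real.rpow_nonneg huz0 _
    have h3 : 0 < (1 - ‖z‖ ^ 2) ^ (α / 3) := Real.rpow_pos_of_pos hD0 _
    have h4 : 0 < (j * (1 - ‖z‖ ^ 2)) ^ (-α) := Real.rpow_pos_of_pos (by linarith) _
    have h5 : (PP σ (gc A j) z) ^ (1 / 4 : ℝ) ≤ 1 :=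
      Real.rpow_le_one huz0 (by linarith) (by norm_num)
    have h6 : (1 - ‖z‖ ^ 2) ^ (α / 3) ≤ 1 := Real.rpow_le_one hD0.le hD2 (by positivity)
    have h7 : (j * (1 - ‖z‖ ^ 2)) ^ (-α) ≤ 1 :=
      Real.rpow_le_one_of_one_le_of_nonpos hD1 (by linarith)
    refine le_trans h1 (le_trans (Real.log_le_log ?_ ?_) hC7l)
    · exact mul_pos hC' (by linarith)
    · rw [mul_comm 3 C']
      exact mul_le_mul_of_nonneg_left (by linarith) hC'.le
  have hnr : ∀ ζ : E, ‖ζ‖ = 1 → ‖(r:ℂ) • ζ‖ = r := by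
    intro ζ hζ
    rw [norm_smul, hζ, mul_one, Complex.norm_real, Real.norm_of_nonneg hr0.le]
  have hsκ : ∀ ζ : E, ‖ζ‖ = 1 → u ((r:ℂ) • ζ) ≤ κ → s ((r:ℂ) • ζ) ≤ -M := by
    intro ζ hζ hx
    have hn := hnr ζ hζ
    have hx0 := hu0 ((r:ℂ) • ζ)
    rw [hu] at hx hx0
    have hD1 : 1 ≤ j * (1 - ‖(r:ℂ) • ζ‖ ^ 2) := by
      rw [hn]; exact le_trans hjR (mul_le_mul_of_nonneg_left hDRr hj0.le)
    have h1 := hm j ((r:ℂ) • ζ) (by rw [hn]; exact hr1) hj0 hD1 (by linarith)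
    rw [hn] at h1 hD1
    have h2 : (PP σ (gc A j) ((r:ℂ) • ζ)) ^ (1 / 4 : ℝ) ≤ δ / 2 :=
      le_trans (Real.rpow_le_rpow hx0 hx (by norm_num)) hκ4
    have h2' : 0 ≤ (PP σ (gc A j) ((r:ℂ) • ζ)) ^ (1 / 4 : ℝ) := Real.rpow_nonneg hx0 _
    have h3 : 0 < (1 - r ^ 2) ^ (α / 3) := Real.rpow_pos_of_pos hDr _
    have h4 : 0 < (j * (1 - r ^ 2)) ^ (-α) := Real.rpow_pos_of_pos (by linarith) _
    have h5 : C' * ((PP σ (gc A j) ((r:ℂ) • ζ)) ^ (1 / 4 : ℝ) + (1 - r ^ 2) ^ (α / 3)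
          + (j * (1 - r ^ 2)) ^ (-α)) ≤ Real.exp (-M) := by
      calc _ ≤ C' * δ := mul_le_mul_of_nonneg_left (by linarith) hC'.le
        _ = Real.exp (-M) := by rw [hδ]; field_simp
    calc s ((r:ℂ) • ζ) ≤ _ := h1
      _ ≤ Real.log (Real.exp (-M)) := Real.log_le_log (mul_pos hC' (by linarith)) h5
      _ = -M := Real.log_exp _
  obtain ⟨ρ₀, hρ₀, hρ₀2, hρ⟩ : ∃ ρ₀ : ℝ, 0 < ρ₀ ∧ ρ₀ ≤ 1 / 2 ∧ ∀ z w : E, ‖z‖ ≤ r → ‖w‖ < ρ₀ →
      ‖mob z w‖ ≤ R ∧ |u (mob z w) - u z| ≤ 1 / 8 := by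
    have hK : IsCompact ((closedBall (0:E) r) ×ˢ (closedBall (0:E) (1 / 2))) :=
      (isCompact_closedBall _ _).prod (isCompact_closedBall _ _)
    have hcm : ContinuousOn (fun p : E × E => mob p.1 p.2)
        ((closedBall (0:E) r) ×ˢ (closedBall (0:E) (1 / 2))) := by
      refine continuousOn_mob.mono ?_
      rintro ⟨z, w⟩ ⟨hz, hw⟩
      simp only [mem_closedBall_zero_iff] at hz hw
      exact one_add_inner_ne (by linarith) (by linarith)
    have hcψ : ContinuousOn (fun p : E × E => ((‖mob p.1 p.2‖, u (mob p.1 p.2)) : ℝ × ℝ))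
        ((closedBall (0:E) r) ×ˢ (closedBall (0:E) (1 / 2))) := by
      refine ContinuousOn.prodMk hcm.norm (huc.comp hcm ?_)
      rintro ⟨z, w⟩ ⟨hz, hw⟩
      simp only [mem_closedBall_zero_iff] at hz hw ⊢
      exact norm_mob_le (by linarith) (by linarith)
    have huc' := hK.uniformContinuousOn_of_continuous hcψ
    rw [Metric.uniformContinuousOn_iff] at huc'
    obtain ⟨δ', hδ', hu'⟩ := huc' (min (1 / 8) ((1 - r) / 2)) (lt_min (by norm_num) (by linarith))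
    refine ⟨min δ' (1 / 2), lt_min hδ' (by norm_num), min_le_right _ _, ?_⟩
    intro z w hz hw
    have hw1 : ‖w‖ < δ' := lt_of_lt_of_le hw (min_le_left _ _)
    have hw2 : ‖w‖ < 1 / 2 := lt_of_lt_of_le hw (min_le_right _ _)
    have h1 := hu' (z, w) ⟨by simpa using hz, by simpa using hw2.le⟩ (z, 0)
      ⟨by simpa using hz, by simp⟩ (by rw [Prod.dist_eq]; simpa using hw1)
    rw [Prod.dist_eq] at h1
    simp only [mob_zero_right] at h1
    have h2 := lt_of_le_of_lt (le_max_left _ _) h1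
    have h3 := lt_of_le_of_lt (le_max_right _ _) h1
    rw [Real.dist_eq] at h2 h3
    have h4 := lt_of_lt_of_le h2 (min_le_right _ _)
    have h5 := lt_of_lt_of_le h3 (min_le_left _ _)
    refine ⟨?_, h5.le⟩
    have := (abs_lt.1 h4).2
    linarith
  obtain ⟨b, hb⟩ : ∃ b : E → ℝ, b = fun z => -M + 8 * (M + C7) * u z := ⟨_, rfl⟩
  obtain ⟨t, ht⟩ : ∃ t : E → ℝ, t = fun z => max (min (s z) C7) (b z) := ⟨_, rfl⟩
  have huball : ContinuousOn u (ball 0 1) := huc.mono ball_subset_closedBall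
  have hbc : ContinuousOn b (ball 0 1) := by
    rw [hb]; exact continuousOn_const.add (continuousOn_const.mul huball)
  have htc : ContinuousOn t (ball 0 1) := by
    rw [ht]; exact ContinuousOn.sup (ContinuousOn.inf hs continuousOn_const) hbc
  have hbmean : ∀ z : E, ‖z‖ < 1 → ∀ ρ : ℝ, 0 ≤ ρ → ρ < 1 →
      ∫ ζ, b (mob z ((ρ:ℂ) • ζ)) ∂σ = b z := by
    intro z hz ρ h0 h1
    rw [hb]
    simp only
    rw [integral_add (integrable_const _) ((ms_int σ hσ u huball hz h0 h1).const_mul _),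
      integral_const_mul, hmean z hz.le ρ h0 h1]
    simp
  have hloc : ∀ z : E, ‖z‖ ≤ r → ∀ ρ : ℝ, 0 < ρ → ρ < ρ₀ → ρ < 1 →
      t z ≤ (∫ ζ, t (mob z ((ρ:ℂ) • ζ)) ∂σ) + 6 * ρ ^ 4 := by
    intro z hz ρ h0 hρ1 h1
    have hz1 : ‖z‖ < 1 := by linarith
    have hti := ms_int σ hσ t htc hz1 h0.le h1
    have hbi := ms_int σ hσ b hbc hz1 h0.le h1
    have hsi := ms_int σ hσ s hs hz1 h0.le h1
    have hb_le : b z ≤ ∫ ζ, t (mob z ((ρ:ℂ) • ζ)) ∂σ := by
      rw [← hbmean z hz1 ρ h0.le h1]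
      refine integral_mono hbi hti fun ζ => ?_
      rw [ht]; exact le_max_right _ _
    have hρ4 : 0 ≤ 6 * ρ ^ 4 := by positivity
    have htz : t z = max (min (s z) C7) (b z) := by rw [ht]
    rw [htz]
    rcases lt_or_ge (u z) (1 / 8) with hu8 | hu8
    · have hs_le : ∫ ζ, s (mob z ((ρ:ℂ) • ζ)) ∂σ ≤ ∫ ζ, t (mob z ((ρ:ℂ) • ζ)) ∂σ := by
        apply integral_mono_ae hsi hti
        filter_upwards [hσ.supp] with ζ hζ
        have hw : ‖(ρ:ℂ) • ζ‖ < ρ₀ := by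
          rw [norm_smul, hζ, mul_one, Complex.norm_real, Real.norm_of_nonneg h0.le]; exact hρ1
        obtain ⟨h3, h4⟩ := hρ z _ hz hw
        have h5 : u (mob z ((ρ:ℂ) • ζ)) ≤ 1 / 4 := by
          have := (abs_le.1 h4).2
          linarith
        have h6 := hsC7 _ h3 h5
        rw [ht]
        simp only
        rw [min_eq_left h6]
        exact le_max_left _ _
      have h7 := hstep z hz1 ρ h0 (by linarith)
      exact max_le (le_trans (min_le_left _ _) (by linarith)) (by linarith)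
    · have h8 : C7 ≤ b z := by
        rw [hb]; simp only
        have h9 := mul_le_mul_of_nonneg_left hu8 (show 0 ≤ 8 * (M + C7) by linarith)
        linarith
      exact max_le (le_trans (min_le_right _ _) (by linarith)) (by linarith)
  have hsub := submean σ hσ t htc hr0 hr1 (by norm_num : (0:ℝ) ≤ 6) hρ₀ hloc
  have ht0 : s 0 ≤ t 0 := by
    rw [ht]; simp only; exact le_max_of_le_left (le_min le_rfl (by linarith))
  have hub : ∫ ζ, t ((r:ℂ) • ζ) ∂σ ≤ -M + (M + C7) / 4 := by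
    have hz0 : ‖(0:E)‖ < 1 := by simp
    have hti : Integrable (fun ζ => t ((r:ℂ) • ζ)) σ := by
      simpa using ms_int σ hσ t htc hz0 hr0.le hr1
    have hbi : Integrable (fun ζ => b ((r:ℂ) • ζ)) σ := by
      simpa using ms_int σ hσ b hbc hz0 hr0.le hr1
    have hui : Integrable (fun ζ => u ((r:ℂ) • ζ)) σ := by
      simpa using ms_int σ hσ u huball hz0 hr0.le hr1
    have hbm : ∫ ζ, b ((r:ℂ) • ζ) ∂σ = b 0 := by simpa using hbmean 0 hz0 r hr0.le hr1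
    have hi1 : Integrable (fun ζ => Aᶜ.indicator (fun _ => (1:ℝ)) ζ) σ :=
      (integrable_const (1:ℝ)).indicator hA.measurableSet.compl
    have hi2 : Integrable (fun ζ => A.indicator (fun ζ => u ((r:ℂ) • ζ) / κ) ζ) σ :=
      (hui.div_const κ).indicator hA.measurableSet
    have hi3 : Integrable (fun ζ => (M + C7) * (Aᶜ.indicator (fun _ => (1:ℝ)) ζ
            + A.indicator (fun ζ => u ((r:ℂ) • ζ) / κ) ζ)) σ := (hi1.add hi2).const_mul _
    have hlim : ∫ ζ in A, u ((r:ℂ) • ζ) ∂σ ≤ κ / 40 := by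
      rw [hu]; exact hr₀ r hrr₀ hr1 j hj0
    calc ∫ ζ, t ((r:ℂ) • ζ) ∂σ
        ≤ ∫ ζ, (b ((r:ℂ) • ζ) + (M + C7) * (Aᶜ.indicator (fun _ => (1:ℝ)) ζ
            + A.indicator (fun ζ => u ((r:ℂ) • ζ) / κ) ζ)) ∂σ := by
          apply integral_mono_ae hti (hbi.add ((hi1.add hi2).const_mul _))
          filter_upwards [hσ.supp] with ζ hζ
          have hx0 := hu0 ((r:ℂ) • ζ)
          have hbM : -M ≤ b ((r:ℂ) • ζ) := by
            rw [hb]; simp only
            have : 0 ≤ 8 * (M + C7) * u ((r:ℂ) • ζ) := by positivity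
            linarith
          have hMC : 0 ≤ M + C7 := by linarith
          have htv : t ((r:ℂ) • ζ) = max (min (s ((r:ℂ) • ζ)) C7) (b ((r:ℂ) • ζ)) := by rw [ht]
          change t ((r:ℂ) • ζ) ≤ b ((r:ℂ) • ζ) + (M + C7) * (Aᶜ.indicator (fun _ => (1:ℝ)) ζ
            + A.indicator (fun ζ => u ((r:ℂ) • ζ) / κ) ζ)
          rw [htv]
          rcases le_or_gt (u ((r:ℂ) • ζ)) κ with hx | hx
          · have h1 := hsκ ζ hζ hx
            have h2 : 0 ≤ Aᶜ.indicator (fun _ => (1:ℝ)) ζ :=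
              Set.indicator_nonneg (fun _ _ => zero_le_one) ζ
            have h3 : 0 ≤ A.indicator (fun ζ => u ((r:ℂ) • ζ) / κ) ζ :=
              Set.indicator_nonneg (fun ζ _ => div_nonneg (hu0 _) hκ0.le) ζ
            have h4 : 0 ≤ (M + C7) * (Aᶜ.indicator (fun _ => (1:ℝ)) ζ
              + A.indicator (fun ζ => u ((r:ℂ) • ζ) / κ) ζ) := mul_nonneg hMC (by linarith)
            exact max_le (le_trans (min_le_left _ _) (by linarith)) (by linarith)
          · have h5 : 1 ≤ Aᶜ.indicator (fun _ => (1:ℝ)) ζ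
              + A.indicator (fun ζ => u ((r:ℂ) • ζ) / κ) ζ := by
              by_cases hζA : ζ ∈ A
              · have h6 : 1 ≤ u ((r:ℂ) • ζ) / κ := by rw [le_div_iff₀ hκ0]; linarith
                simpa [hζA] using h6
              · simp [hζA]
            have h7 : (M + C7) * 1 ≤ (M + C7) * (Aᶜ.indicator (fun _ => (1:ℝ)) ζ
              + A.indicator (fun ζ => u ((r:ℂ) • ζ) / κ) ζ) :=
              mul_le_mul_of_nonneg_left h5 hMC
            exact max_le (le_trans (min_le_right _ _) (by linarith)) (by linarith)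
      _ = b 0 + (M + C7) * ((σ Aᶜ).toReal + (∫ ζ in A, u ((r:ℂ) • ζ) ∂σ) / κ) := by
          rw [integral_add hbi hi3, integral_const_mul,
            integral_add hi1 hi2, hbm, integral_indicator hA.measurableSet.compl,
            integral_indicator hA.measurableSet, integral_div]
          simp [Measure.real]
      _ ≤ (-M + 8 * (M + C7) * (1 / 40)) + (M + C7) * (1 / 40 + (κ / 40) / κ) := by
          have hMC : 0 ≤ M + C7 := by linarith
          have h1 : b 0 ≤ -M + 8 * (M + C7) * (1 / 40) := by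
            rw [hb]; simp only
            have := mul_le_mul_of_nonneg_left hzero (show 0 ≤ 8 * (M + C7) by linarith)
            linarith
          have h2 : (∫ ζ in A, u ((r:ℂ) • ζ) ∂σ) / κ ≤ (κ / 40) / κ := by gcongr
          have h3 := mul_le_mul_of_nonneg_left (add_le_add hsmall h2) hMC
          linarith
      _ = -M + (M + C7) / 4 := by field_simp; ring
  have hfin : s 0 ≤ -M + (M + C7) / 4 := le_trans ht0 (le_trans hsub hub)
  rw [hM] at hfin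
  linarith

theorem main_small (σ : Measure E) (hσ : IsSph σ) [Nontrivial E] (hdim : 2 ≤ Module.finrank ℂ E)
    (f : E → ℂ) (hc : ContinuousOn f (closedBall 0 1))
    (hd : DifferentiableOn ℂ f (ball 0 1)) (hf : ∀ z, ‖z‖ < 1 → ‖f z‖ < 1)
    {C : ℝ} (hC : 0 ≤ C)
    (hL : ∀ z w, ‖z‖ ≤ 1 → ‖w‖ ≤ 1 → ‖f z - f w‖ ≤ C * ‖z - w‖ ^ (1 / (Module.finrank ℂ E : ℝ)))
    (hsmall : (σ (UM f)ᶜ).toReal ≤ 1 / 40) : False := by
  haveI := hσ.prob
  haveI : ProperSpace E := FiniteDimensional.proper ℂ E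
  have hn2 : (2:ℝ) ≤ (Module.finrank ℂ E : ℝ) := by exact_mod_cast hdim
  obtain ⟨α, hα⟩ : ∃ α : ℝ, α = 1 / (Module.finrank ℂ E : ℝ) := ⟨_, rfl⟩
  have hα0 : 0 < α := by rw [hα]; positivity
  have hα1 : α ≤ 1 / 2 := by rw [hα]; exact one_div_le_one_div_of_le (by norm_num) hn2
  rw [← hα] at hL
  have hAs : UM f ⊆ sphere 0 1 := by
    intro ζ hζ
    rw [mem_sphere_zero_iff_norm]
    exact hζ.1
  have hAc : IsClosed (UM f) := by
    have h1 : ContinuousOn (fun ζ => ‖f ζ‖) (sphere 0 1) := (hc.mono sphere_subset_closedBall).norm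
    have h2 := h1.preimage_isClosed_of_isClosed isClosed_sphere (isClosed_singleton (x := (1:ℝ)))
    have h3 : UM f = sphere 0 1 ∩ (fun ζ => ‖f ζ‖) ⁻¹' {1} := by
      ext ζ
      constructor
      · intro hζ; exact ⟨by rw [mem_sphere_zero_iff_norm]; exact hζ.1, hζ.2⟩
      · intro hζ; exact ⟨by have := hζ.1; rwa [mem_sphere_zero_iff_norm] at this, hζ.2⟩
    rw [h3]; exact h2
  have hne : (UM f).Nonempty := by
    by_contra h
    rw [Set.not_nonempty_iff_eq_empty] at h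
    rw [h] at hsmall
    simp only [Set.compl_empty, measure_univ, ENNReal.toReal_one] at hsmall
    norm_num at hsmall
  obtain ⟨C', hC', hm⟩ := master σ hσ hdim f hc hd hf hC hα0 hα1 hL hne
  have hpos1 : ∀ z : E, ‖z‖ < 1 → 0 < 1 - ‖f z‖ ^ 2 := by
    intro z hz
    have h1 := hf z hz
    have h2 := norm_nonneg (f z)
    nlinarith
  have hpos2 : ∀ z : E, ‖z‖ < 1 → 0 < 1 - ‖z‖ ^ 2 := by
    intro z hz
    have h2 := norm_nonneg z
    nlinarith
  refine ms_core σ hσ (UM f) hAc hAs (ss f) ?_ ?_ hC' hα0 ?_ ?_ hsmall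
  · have h1 : ContinuousOn f (ball 0 1) := hc.mono ball_subset_closedBall
    unfold ss
    refine ContinuousOn.sub ?_ ?_
    · refine ContinuousOn.log (continuousOn_const.sub (h1.norm.pow 2)) ?_
      intro z hz
      exact (hpos1 z (by simpa using hz)).ne'
    · refine continuousOn_const.mul (ContinuousOn.log (continuousOn_const.sub
        (continuous_norm.continuousOn.pow 2)) ?_)
      intro z hz
      exact (hpos2 z (by simpa using hz)).ne'
  · intro z hz ρ h0 h1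
    exact ss_step σ hσ f hd hf hz h0 h1
  · intro j z hz hj hjD hP
    have h1 := hm j z hz hj hjD hP
    have hD := hpos2 z hz
    have hX := hpos1 z hz
    have hP0 : 0 ≤ PP σ (gc (UM f) j) z := by
      unfold PP
      exact integral_nonneg fun ζ => ms_gc_nonneg (UM f) hj.le _
    have hY : 0 < (PP σ (gc (UM f) j) z) ^ (1 / 4 : ℝ) + (1 - ‖z‖ ^ 2) ^ (α / 3)
          + (j * (1 - ‖z‖ ^ 2)) ^ (-α) := by
      have h2 : 0 ≤ (PP σ (gc (UM f) j) z) ^ (1 / 4 : ℝ) := Real.rpow_nonneg hP0 _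
      have h3 : 0 < (1 - ‖z‖ ^ 2) ^ (α / 3) := Real.rpow_pos_of_pos hD _
      have h4 : 0 < (j * (1 - ‖z‖ ^ 2)) ^ (-α) := Real.rpow_pos_of_pos (by positivity) _
      linarith
    generalize (PP σ (gc (UM f) j) z) ^ (1 / 4 : ℝ) + (1 - ‖z‖ ^ 2) ^ (α / 3)
          + (j * (1 - ‖z‖ ^ 2)) ^ (-α) = Y at h1 hY
    unfold ss
    rw [← hα]
    have h5 : Real.log (1 - ‖f z‖ ^ 2) ≤ Real.log (C' * (1 - ‖z‖ ^ 2) ^ α * Y) :=
      Real.log_le_log hX h1
    have hDα : 0 < (1 - ‖z‖ ^ 2) ^ α := Real.rpow_pos_of_pos hD _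
    rw [Real.log_mul (by positivity) hY.ne', Real.log_mul hC'.ne' hDα.ne',
      Real.log_rpow hD] at h5
    rw [Real.log_mul hC'.ne' hY.ne']
    linarith
  · unfold ss
    have h1 : Real.log (1 - ‖f 0‖ ^ 2) ≤ 0 := by
      apply Real.log_nonpos (hpos1 0 (by simp)).le
      nlinarith [sq_nonneg ‖f 0‖]
    simpa using h1

end LP

end Pool.Agent.Helper287.MB.LPI

namespace Pool.Agent.Helper287.MB
alias main_small := LPI.main_small
end Pool.Agent.Helper287.MB
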