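import Pool.Agent.Helper287.LP.I
import Pool.Agent.Helper287.LP.G
set_option autoImplicit false
open MeasureTheory Metric Set Filter Topology
open scoped InnerProductSpace ComplexConjugate

namespace Pool.Agent.Helper287.MB.LPI2


section LP
variable {E : Type} [NormedAddCommGroup E] [InnerProductSpace ℂ E] [FiniteDimensional ℂ E]
  [MeasurableSpace E] [BorelSpace E]

theorem main_lip (σ : Measure E) (hσ : IsSph σ) [Nontrivial E] (hdim : 2 ≤ Module.finrank ℂ E)
    (f : E → ℂ) (hc : ContinuousOn f (closedBall 0 1))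
    (hd : DifferentiableOn ℂ f (ball 0 1)) (hf : ∀ z, ‖z‖ < 1 → ‖f z‖ < 1)
    {C α : ℝ} (hC : 0 ≤ C) (hα : 1 / (Module.finrank ℂ E : ℝ) ≤ α)
    (hL : ∀ z w, ‖z‖ ≤ 1 → ‖w‖ ≤ 1 → ‖f z - f w‖ ≤ C * ‖z - w‖ ^ α)
    (hpos : 0 < σ (UM f)) : False := by
  have hprob := hσ.prob
  have hmaps : ∀ z : E, ‖z‖ ≤ 1 → z ∈ closedBall (0 : E) 1 := fun z hz => by simpa using hz
  have hA : IsClosed (UM f) := by
    have h1 : UM f = sphere (0 : E) 1 ∩ (fun ζ => ‖f ζ‖) ⁻¹' {1} := by
      ext ζ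
      simp [UM]
    rw [h1]
    exact (hc.mono sphere_subset_closedBall).norm.preimage_isClosed_of_isClosed isClosed_sphere
      isClosed_singleton
  have hAs : UM f ⊆ sphere (0 : E) 1 := by
    intro ζ hζ
    simpa using hζ.1
  obtain ⟨a, ha, hsm⟩ := pick_a σ hσ (UM f) hA hAs hpos (ε := 1 / 40) (by norm_num)
  obtain ⟨L, hL0, hLip⟩ := mob_lip ha
  have hmc : ContinuousOn (mob a) (closedBall (0 : E) 1) :=
    (differentiableOn_mob a).continuousOn.mono
      (fun z hz => one_add_inner_ne ha (by simpa using hz))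
  have hmd : DifferentiableOn ℂ (mob a) (ball (0 : E) 1) :=
    (differentiableOn_mob a).mono (fun z hz => one_add_inner_ne ha
      (by simpa using (ball_subset_closedBall hz)))
  have hFc : ContinuousOn (fun z => f (mob a z)) (closedBall 0 1) :=
    hc.comp hmc (fun z hz => hmaps _ (norm_mob_le ha.le (by simpa using hz)))
  have hFd : DifferentiableOn ℂ (fun z => f (mob a z)) (ball 0 1) :=
    hd.comp hmd (fun z hz => by
      have := norm_mob_lt ha (z := z) (by simpa using hz)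
      simpa using this)
  have hF1 : ∀ z, ‖z‖ < 1 → ‖f (mob a z)‖ < 1 := fun z hz => hf _ (norm_mob_lt ha hz)
  set n : ℝ := (Module.finrank ℂ E : ℝ) with hn
  have hn0 : 0 < 1 / n := by
    have : (0 : ℝ) < n := by
      rw [hn]
      exact_mod_cast (by omega : 0 < Module.finrank ℂ E)
    positivity
  have hα0 : 0 < α := lt_of_lt_of_le hn0 hα
  refine main_small σ hσ hdim (fun z => f (mob a z)) hFc hFd hF1
    (C := C * L ^ α * 2 ^ (α - 1 / n)) (by positivity) ?_ ?_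
  · intro z w hz hw
    rcases eq_or_ne z w with h | h
    · subst h
      simp only [sub_self, norm_zero]
      positivity
    · have hd0 : 0 < ‖z - w‖ := norm_pos_iff.mpr (sub_ne_zero.mpr h)
      have hd2 : ‖z - w‖ ≤ 2 := by
        have := norm_sub_le z w
        linarith
      have h1 := hL (mob a z) (mob a w) (norm_mob_le ha.le hz) (norm_mob_le ha.le hw)
      have h2 : ‖mob a z - mob a w‖ ^ α ≤ (L * ‖z - w‖) ^ α :=
        Real.rpow_le_rpow (norm_nonneg _) (hLip z w hz hw) hα0.le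
      have h3 : (L * ‖z - w‖) ^ α = L ^ α * ‖z - w‖ ^ α := Real.mul_rpow hL0 hd0.le
      have h4 : ‖z - w‖ ^ α = ‖z - w‖ ^ (α - 1 / n) * ‖z - w‖ ^ (1 / n) := by
        rw [← Real.rpow_add hd0]
        congr 1
        ring
      have h5 : ‖z - w‖ ^ (α - 1 / n) ≤ 2 ^ (α - 1 / n) :=
        Real.rpow_le_rpow hd0.le hd2 (by linarith)
      calc ‖f (mob a z) - f (mob a w)‖ ≤ C * ‖mob a z - mob a w‖ ^ α := h1
        _ ≤ C * (L ^ α * (‖z - w‖ ^ (α - 1 / n) * ‖z - w‖ ^ (1 / n))) := by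
            rw [← h4, ← h3]
            exact mul_le_mul_of_nonneg_left h2 hC
        _ ≤ C * (L ^ α * (2 ^ (α - 1 / n) * ‖z - w‖ ^ (1 / n))) := by
            gcongr
        _ = C * L ^ α * 2 ^ (α - 1 / n) * ‖z - w‖ ^ (1 / n) := by ring
  · refine le_trans ?_ hsm
    apply ENNReal.toReal_mono (measure_ne_top _ _)
    have hsub : (UM (fun z => f (mob a z)))ᶜ ⊆ {ζ | mob a ζ ∉ UM f} ∪ {ζ | ¬ ‖ζ‖ = 1} := by
      intro ζ hζ
      by_cases h1 : ‖ζ‖ = 1
      · left
        intro h2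
        exact hζ ⟨h1, h2.2⟩
      · right
        exact h1
    have hnull : σ {ζ | ¬ ‖ζ‖ = 1} = 0 := hσ.supp
    calc σ (UM (fun z => f (mob a z)))ᶜ ≤ σ ({ζ | mob a ζ ∉ UM f} ∪ {ζ | ¬ ‖ζ‖ = 1}) :=
          measure_mono hsub
      _ ≤ σ {ζ | mob a ζ ∉ UM f} + σ {ζ | ¬ ‖ζ‖ = 1} := measure_union_le _ _
      _ = σ {ζ | mob a ζ ∉ UM f} := by rw [hnull, add_zero]

end LP

end Pool.Agent.Helper287.MB.LPI2

namespace Pool.Agent.Helper287.MB
alias main_lip := LPI2.main_lip
end Pool.Agent.Helper287.MB
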