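import Pool.Agent.Helper287.MB.Base
set_option autoImplicit false
open MeasureTheory Metric Set
open scoped Pointwise ComplexConjugate InnerProductSpace
namespace Pool.Agent.Helper287.MB

theorem isSph_toSphere (n : ℕ) (hn : 1 ≤ n) :
    IsSph (((volume : Measure (EuclideanSpace ℂ (Fin n))).toSphere univ)⁻¹ •
      ((volume : Measure (EuclideanSpace ℂ (Fin n))).toSphere.map Subtype.val)) := by
  have hne : Nonempty (Fin n) := ⟨⟨0, hn⟩⟩
  have hnt : Nontrivial (EuclideanSpace ℂ (Fin n)) := by infer_instance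
  set μ := (volume : Measure (EuclideanSpace ℂ (Fin n))) with hμ
  have h0 : μ.toSphere univ ≠ 0 := by
    rw [Measure.toSphere_apply_univ]
    have h1 : (Module.finrank ℝ (EuclideanSpace ℂ (Fin n)) : ENNReal) ≠ 0 := by
      have : 0 < Module.finrank ℝ (EuclideanSpace ℂ (Fin n)) := Module.finrank_pos
      exact_mod_cast this.ne'
    have h2 : μ (ball 0 1) ≠ 0 := (measure_ball_pos μ _ one_pos).ne'
    exact mul_ne_zero h1 h2
  have h1 : μ.toSphere univ ≠ ⊤ := measure_ne_top _ _
  refine ⟨⟨?_⟩, ?_, ?_⟩
  · rw [Measure.smul_apply, Measure.map_apply measurable_subtype_coe MeasurableSet.univ, preimage_univ, smul_eq_mul,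
      ENNReal.inv_mul_cancel h0 h1]
  · intro L
    rw [Measure.map_smul]
    congr 1
    have hL : Measurable L := L.continuous.measurable
    rw [Measure.map_map hL measurable_subtype_coe]
    ext s hs
    rw [Measure.map_apply (hL.comp measurable_subtype_coe) hs, Measure.map_apply measurable_subtype_coe hs]
    have m1 : MeasurableSet (⇑L ∘ Subtype.val ⁻¹' s : Set (sphere (0 : EuclideanSpace ℂ (Fin n)) 1)) :=
      (hL.comp measurable_subtype_coe) hs
    have m2 : MeasurableSet (Subtype.val ⁻¹' s : Set (sphere (0 : EuclideanSpace ℂ (Fin n)) 1)) :=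
      measurable_subtype_coe hs
    rw [Measure.toSphere_apply' μ m1, Measure.toSphere_apply' μ m2]
    congr 1
    let LR : EuclideanSpace ℂ (Fin n) ≃ₗᵢ[ℝ] EuclideanSpace ℂ (Fin n) :=
      { toLinearEquiv := L.toLinearEquiv.restrictScalars ℝ, norm_map' := L.norm_map }
    have hmp : MeasurePreserving LR μ μ := LR.measurePreserving
    have hmp' : MeasurePreserving LR.toHomeomorph.toMeasurableEquiv μ μ := hmp
    rw [← hmp'.measure_preimage_equiv (Ioo (0:ℝ) 1 • (Subtype.val ''
      (Subtype.val ⁻¹' s : Set (sphere (0 : EuclideanSpace ℂ (Fin n)) 1))))]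
    congr 1
    ext x
    constructor
    · rintro ⟨t, ht, y, ⟨a, ha, rfl⟩, rfl⟩
      refine ⟨t, ht, L a.1, ⟨⟨L a.1, ?_⟩, ha, rfl⟩, ?_⟩
      · have := a.2
        rw [mem_sphere_zero_iff_norm] at this ⊢
        rw [L.norm_map, this]
      · change t • L a.1 = LR (t • a.1)
        rw [LR.map_smul]; rfl
    · rintro ⟨t, ht, y, ⟨a, ha, rfl⟩, hx⟩
      have hx' : t • a.1 = L x := hx
      refine ⟨t, ht, L.symm a.1, ⟨⟨L.symm a.1, ?_⟩, ?_, rfl⟩, ?_⟩
      · have := a.2
        rw [mem_sphere_zero_iff_norm] at this ⊢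
        rw [L.symm.norm_map, this]
      · change L (L.symm a.1) ∈ s
        rw [L.apply_symm_apply]; exact ha
      · have h3 : x = L.symm (t • a.1) := by rw [hx', L.symm_apply_apply]
        change t • L.symm a.1 = x
        rw [h3]
        change t • L.symm a.1 = L.symm (t • a.1)
        have : (t • a.1 : EuclideanSpace ℂ (Fin n)) = (t : ℂ) • a.1 := by
          rw [Complex.coe_smul]
        rw [this, L.symm.map_smul, Complex.coe_smul]
  · have : ∀ᵐ ζ ∂(μ.toSphere.map Subtype.val), ‖ζ‖ = 1 := by
      rw [ae_map_iff measurable_subtype_coe.aemeasurable (isClosed_eq continuous_norm continuous_const).measurableSet]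
      exact Filter.Eventually.of_forall (fun x => by
        have := x.2; rwa [mem_sphere_zero_iff_norm] at this)
    exact Measure.ae_smul_measure this _

end Pool.Agent.Helper287.MB
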